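import Pool.Agent.H829.AZ.Eng2
import Pool.Graph.R_pool_sql_team_seeded_64922ed1.X175.SH.MB8

/-!
# Manifolds which become embeddable in `ℝ⁴` after the removal of small sets
-/

set_option autoImplicit false
set_option linter.unusedSectionVars false

open Set Filter Topology Metric Function MeasureTheory
open scoped Manifold ContDiff

noncomputable section

namespace Pool.Agent.H829.AZ

open Pool.Agent.Y522 Pool.Agent.N550.KH Pool.Agent.N550.TS

theorem fact5 : Fact (Module.finrank ℝ (EuclideanSpace ℝ (Fin (4 + 1))) = 4 + 1) :=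
  ⟨finrank_euclideanSpace_fin⟩

/-- the standard sphere -/
abbrev S4 : Type := sphere (0 : EuclideanSpace ℝ (Fin (4 + 1))) 1

/-- a point of the sphere -/
def pole : S4 := ⟨EuclideanSpace.single 0 1, by simp⟩

/-- the inverse of the stereographic projection -/
def sg : E 4 → S4 := (chartAt (E 4) (-pole)).symm

theorem chart_src : (chartAt (E 4) (-pole)).source = {pole}ᶜ := by
  have := fact5
  show (stereographic' 4 (-(-pole))).source = {pole}ᶜ
  rw [stereographic'_source, neg_neg]

theorem chart_tgt : (chartAt (E 4) (-pole)).target = univ := by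
  have := fact5
  show (stereographic' 4 (-(-pole))).target = univ
  rw [stereographic'_target]

theorem S4_mfd : IsManifold (𝓡 4) ∞ S4 := inferInstance

theorem sg_ld (z : E 4) : LD 4 sg z :=
  Null.ld_chart_symm (-pole) z (by rw [chart_tgt]; exact mem_univ z)

theorem sg_inj : Injective sg := by
  intro x y h
  exact (chartAt (E 4) (-pole)).symm.injOn (by
    show x ∈ (chartAt (E 4) (-pole)).target
    rw [chart_tgt]; exact mem_univ x) (by
    show y ∈ (chartAt (E 4) (-pole)).target
    rw [chart_tgt]; exact mem_univ y) h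

theorem sg_ne (z : E 4) : sg z ≠ pole := by
  have h1 : sg z ∈ (chartAt (E 4) (-pole)).source :=
    (chartAt (E 4) (-pole)).map_target (by rw [chart_tgt]; exact mem_univ z)
  rw [chart_src] at h1
  exact h1

theorem sg_surj {y : S4} (hy : y ≠ pole) : ∃ z, sg z = y := by
  refine ⟨chartAt (E 4) (-pole) y, (chartAt (E 4) (-pole)).left_inv ?_⟩
  rw [chart_src]
  exact hy

theorem sg_compact {V : Set S4} (hV : IsOpen V) (hp : pole ∈ V) : IsCompact {z | sg z ∉ V} := by
  have h1 : IsCompact (chartAt (E 4) (-pole) '' Vᶜ) := by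
    refine hV.isClosed_compl.isCompact.image_of_continuousOn ?_
    refine (chartAt (E 4) (-pole)).continuousOn.mono ?_
    rw [chart_src]
    rintro y hy rfl
    exact hy hp
  refine h1.of_isClosed_subset ?_ ?_
  · exact hV.isClosed_compl.preimage (Two.cont_of_ld sg_ld)
  · intro z hz
    refine ⟨sg z, hz, ?_⟩
    exact (chartAt (E 4) (-pole)).right_inv (by rw [chart_tgt]; exact mem_univ z)

/-- **Collapsing the complement of a cell.** A closed manifold is homeomorphic to the sphere, by a
smooth homeomorphism with one critical point, if the complement of an open cell embeds. -/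
theorem to_sphere {N : Type} [TopologicalSpace N] [CompactSpace N] [T2Space N]
    [ChartedSpace (E 4) N] [IsManifold (𝓡 4) ∞ N] {c : E 4 → N} (hc : IsCell 4 c) {U : Set N}
    (hU : IsOpen U) (hUc : (range c)ᶜ ⊆ U) {k : N → E 4} (hk : InjOn k U)
    (hkl : ∀ x ∈ U, LD 4 k x) :
    ∃ (G : N ≃ₜ S4) (x₀ : N), (∀ x, x ≠ x₀ → LD 4 G x) ∧
      ∀ x, ContMDiffAt (𝓡 4) (𝓡 4) ∞ G x := by
  classical
  have hcc := hc.cont
  have hro := hc.open_range
  let g : N → S4 := fun x => if x ∈ range c then sg (invFun c x) else pole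
  have hg1 : ∀ z, g (c z) = sg z := fun z => by
    show (if c z ∈ range c then sg (invFun c (c z)) else pole) = sg z
    rw [if_pos (mem_range_self z), leftInverse_invFun hc.1 z]
  have hg2 : ∀ x, x ∉ range c → g x = pole := fun x hx => if_neg hx
  have hgp : ∀ x, g x = pole ↔ x ∉ range c := by
    intro x
    constructor
    · rintro h ⟨z, rfl⟩
      rw [hg1] at h
      exact sg_ne z h
    · exact hg2 x
  have hgld : ∀ x, g x ≠ pole → LD 4 g x := by
    intro x hx
    have hxr : x ∈ range c := by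
      by_contra hcon
      exact hx (hg2 x hcon)
    obtain ⟨z, rfl⟩ := hxr
    have h1 : LD 4 (fun y => sg (invFun c y)) (c z) := by
      refine LD.comp_fun (g := sg) (f := invFun c) ?_ (Two.ld_inv hc.1 hc.2 z)
      exact sg_ld _
    refine LD.congr h1 ?_
    filter_upwards [hro.mem_nhds (mem_range_self z)] with y hy
    exact if_pos hy
  have hgc : Continuous g := by
    rw [continuous_iff_continuousAt]
    intro x
    by_cases hx : g x = pole
    · rw [ContinuousAt, hx]
      intro V hV
      obtain ⟨V', hV', hV'o, hpV'⟩ := _root_.mem_nhds_iff.1 hV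
      have hK : IsClosed (c '' {z | sg z ∉ V'}) := ((sg_compact hV'o hpV').image hcc).isClosed
      have hxK : x ∉ c '' {z | sg z ∉ V'} := by
        rintro ⟨z, -, rfl⟩
        exact (hgp _).1 hx (mem_range_self z)
      rw [mem_map]
      refine mem_of_superset (hK.isOpen_compl.mem_nhds hxK) ?_
      intro y hy
      refine hV' ?_
      by_cases hyr : y ∈ range c
      · obtain ⟨z, rfl⟩ := hyr
        rw [hg1]
        by_contra hcon
        exact hy ⟨z, hcon, rfl⟩
      · rw [hg2 y hyr]
        exact hpV'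
    · exact (hgld x hx).continuousAt
  have hne : ∃ x, x ∉ range c := by
    by_contra hcon
    push Not at hcon
    have hsurj : Surjective c := hcon
    have hop : IsOpenMap c := fun s hs => isOpen_image_of_LD (n := 4) hs fun z _ => hc.2 z
    let h : E 4 ≃ₜ N := (Equiv.ofBijective c ⟨hc.1, hsurj⟩).toHomeomorphOfContinuousOpen hcc hop
    have : CompactSpace (E 4) := h.symm.compactSpace
    exact noncompact_univ (E 4) isCompact_univ
  have hgs : Surjective g := by
    intro y
    by_cases hy : y = pole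
    · obtain ⟨x, hx⟩ := hne
      exact ⟨x, by rw [hy]; exact hg2 x hx⟩
    · obtain ⟨z, hz⟩ := sg_surj hy
      exact ⟨c z, by rw [hg1]; exact hz⟩
  have hcon : ConnectedSpace S4 := by
    have h1 : 1 < Module.rank ℝ (EuclideanSpace ℝ (Fin (4 + 1))) := by
      rw [← Module.finrank_eq_rank, finrank_euclideanSpace_fin]
      norm_num
    exact isConnected_iff_connectedSpace.1 (isConnected_sphere h1 0 zero_le_one)
  have hsing : Pool.Agent.X175.SH.Sing (3 + 1) g {pole} :=
    { proper := hgc.isProperMap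
      surj := hgs
      closed := isClosed_singleton
      null := by
        have h0 : Pool.Agent.X175.SH.NullM (3 + 1) (∅ : Set S4) := fun c _ => by
          rw [preimage_empty]
          exact measure_empty
        have h1 := h0.union_finite (finite_singleton pole)
        rwa [empty_union] at h1
      inj := by
        intro x y hx hxy
        have hx' : x ∈ range c := by
          by_contra hcon
          exact hx (hg2 x hcon)
        have hy' : y ∈ range c := by
          by_contra hcon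
          exact hx (hxy.trans (hg2 y hcon))
        obtain ⟨z, rfl⟩ := hx'
        obtain ⟨w, rfl⟩ := hy'
        rw [hg1, hg1] at hxy
        rw [sg_inj hxy]
      ld := fun x hx => hgld x hx
      fib := by
        rintro _ rfl
        exact ⟨U, k, hU, fun x hx => hUc ((hgp x).1 hx), hk, hkl⟩ }
  obtain ⟨G, x₀, h1, h2⟩ := Pool.Agent.X175.SH.null_final (m := 3) hsing isCompact_singleton
  exact ⟨G, x₀, h1, h2⟩

theorem dfInv {n : ℕ} {N : Type} [TopologicalSpace N] [ChartedSpace (E n) N] {κ : N → N}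
    (hκ : IsDf n κ) : ∃ κ' : N → N, IsDf n κ' ∧ (∀ x, κ' (κ x) = x) ∧ ∀ x, κ (κ' x) = x := by
  let q := Equiv.ofBijective κ hκ.1
  have hq : ∀ x, q.symm (κ x) = x := fun x => q.symm_apply_apply x
  exact ⟨q.symm, ⟨q.symm.bijective, fun y => LD.inverse_bij hκ.1 hκ.2 hq y⟩, hq,
    fun x => q.apply_symm_apply x⟩

/-- connected manifolds are homogeneous -/
theorem homog {n : ℕ} {N : Type} [TopologicalSpace N] [T2Space N] [ChartedSpace (E n) N]
    [IsManifold (𝓡 n) ∞ N] [ConnectedSpace N] (x y : N) : ∃ κ : N → N, IsDf n κ ∧ κ x = y := by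
  obtain ⟨δ, hδ, hmove⟩ := Pool.Agent.X175.SH.exists_move n
  -- the local statement
  have hloc : ∀ y : N, ∃ V ∈ 𝓝 y, ∀ y' ∈ V, ∃ κ : N → N, IsDf n κ ∧ κ y' = y := by
    intro y
    obtain ⟨c, hc, hc0, -⟩ := Pool.Agent.X175.SH.exists_cell (n := n) y (V := univ) univ_mem
    refine ⟨c '' ball 0 δ, (hc.openMap _ isOpen_ball).mem_nhds ⟨0, mem_ball_self hδ, hc0⟩, ?_⟩
    rintro _ ⟨a, ha, rfl⟩
    obtain ⟨Φ, h1, h2, h3⟩ := hmove a (mem_ball_zero_iff.1 ha)
    obtain ⟨K, hK, hKc, -⟩ := Supp.main n N c hc.inj hc.ld Φ ⟨Φ.bijective, h1⟩ ⟨1, h2⟩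
    exact ⟨K, hK, by rw [hKc, h3, hc0]⟩
  set Q : Set N := {y | ∃ κ : N → N, IsDf n κ ∧ κ x = y} with hQ
  have hopen : IsOpen Q := by
    rw [isOpen_iff_mem_nhds]
    rintro y ⟨κ, hκ, hκx⟩
    obtain ⟨V, hV, hVm⟩ := hloc y
    refine mem_of_superset hV ?_
    intro y' hy'
    obtain ⟨κ', hκ', hy⟩ := hVm y' hy'
    obtain ⟨κ'', h1, h2, -⟩ := dfInv hκ'
    refine ⟨fun x => κ'' (κ x), IsDf.comp h1 hκ, ?_⟩
    show κ'' (κ x) = y'
    rw [hκx, ← hy, h2]
  have hclosed : IsClosed Q := by
    rw [← isOpen_compl_iff, isOpen_iff_mem_nhds]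
    intro y hy
    obtain ⟨V, hV, hVm⟩ := hloc y
    refine mem_of_superset hV ?_
    rintro y' hy' ⟨κ, hκ, hκx⟩
    obtain ⟨κ', hκ', hyy⟩ := hVm y' hy'
    refine hy ⟨fun x => κ' (κ x), IsDf.comp hκ' hκ, ?_⟩
    show κ' (κ x) = y
    rw [hκx, hyy]
  have hne : Q.Nonempty := ⟨x, fun x => x, isDf_id, rfl⟩
  have h1 := IsClopen.eq_univ ⟨hclosed, hopen⟩ hne
  have h2 : y ∈ Q := by
    rw [h1]
    exact mem_univ y
  exact h2

theorem chart_src' (q : S4) : (chartAt (E 4) (-q)).source = {q}ᶜ := by
  have := fact5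
  show (stereographic' 4 (-(-q))).source = {q}ᶜ
  rw [stereographic'_source, neg_neg]

theorem chart_tgt' (q : S4) : (chartAt (E 4) (-q)).target = univ := by
  have := fact5
  show (stereographic' 4 (-(-q))).target = univ
  rw [stereographic'_target]

/-- the complement of every point is `ℝ⁴` -/
theorem of_sphere {N : Type} [TopologicalSpace N] [T2Space N] [ChartedSpace (E 4) N]
    [IsManifold (𝓡 4) ∞ N] (G : N ≃ₜ S4) (x₀ : N) (hG : ∀ x, x ≠ x₀ → LD 4 G x) (p : N) :
    ∃ k : N → E 4, InjOn k {p}ᶜ ∧ (∀ x, x ≠ p → LD 4 k x) ∧ ∀ z, ∃ x, x ≠ p ∧ k x = z := by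
  have hcon : ConnectedSpace S4 := by
    have h1 : 1 < Module.rank ℝ (EuclideanSpace ℝ (Fin (4 + 1))) := by
      rw [← Module.finrank_eq_rank, finrank_euclideanSpace_fin]
      norm_num
    exact isConnected_iff_connectedSpace.1 (isConnected_sphere h1 0 zero_le_one)
  have : ConnectedSpace N := G.symm.surjective.connectedSpace G.symm.continuous
  obtain ⟨κ, hκ, hκp⟩ := homog (n := 4) p x₀
  have hne : ∀ x, x ≠ p → κ x ≠ x₀ := fun x hx h => hx (hκ.1.1 (h.trans hκp.symm))
  have hmem : ∀ x, x ≠ p → G (κ x) ∈ (chartAt (E 4) (-(G x₀))).source := by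
    intro x hx
    rw [chart_src']
    exact fun h => hne x hx (G.injective h)
  refine ⟨fun x => chartAt (E 4) (-(G x₀)) (G (κ x)), fun x hx y hy hxy => ?_, fun x hx => ?_,
    fun z => ?_⟩
  · exact hκ.1.1 (G.injective ((chartAt (E 4) (-(G x₀))).injOn (hmem x hx) (hmem y hy) hxy))
  · have h1 : LD 4 (fun x => G (κ x)) x :=
      LD.comp_fun (g := G) (f := κ) (hG _ (hne x hx)) (hκ.2 x)
    refine LD.comp_fun (g := chartAt (E 4) (-(G x₀))) (f := fun x => G (κ x)) ?_ h1
    exact ⟨Null.chPD (-(G x₀)), hmem x hx, fun _ _ => rfl⟩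
  · have hz : z ∈ (chartAt (E 4) (-(G x₀))).target := by
      rw [chart_tgt']
      exact mem_univ z
    obtain ⟨x, hx⟩ := hκ.1.2 (G.symm ((chartAt (E 4) (-(G x₀))).symm z))
    refine ⟨x, ?_, ?_⟩
    · rintro rfl
      have h1 := (chartAt (E 4) (-(G x₀))).map_target hz
      rw [chart_src'] at h1
      exact h1 (G.symm_apply_eq.1 (hx.symm.trans hκp))
    · show chartAt (E 4) (-(G x₀)) (G (κ x)) = z
      rw [hx, G.apply_symm_apply, (chartAt (E 4) (-(G x₀))).right_inv hz]

end Pool.Agent.H829.AZ
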