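import Pool.Graph.R_pool_sql_team_seeded_63374d34.N550.KH.Two
import Pool.Graph.R_pool_sql_team_seeded_63374d34.N550.KH.Zero

/-!
# Homeomorphisms which are smooth off a set with image of area zero: good position
-/

set_option autoImplicit false

open Set Filter Topology Metric Function MeasureTheory
open scoped Manifold ContDiff

noncomputable section

namespace Pool.Agent.H829.AZ

open Pool.Agent.Y522 Pool.Agent.N550.KH Pool.Agent.N550.KH.Two

/-- a subset of a manifold with two-dimensional Hausdorff measure zero, in the preferred charts -/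
def Null2C (n : ℕ) {N : Type} [TopologicalSpace N] [ChartedSpace (E n) N] (B : Set N) : Prop :=
  ∀ x₀ : N, Measure.hausdorffMeasure 2
    (chartAt (E n) x₀ '' ((chartAt (E n) x₀).source ∩ B) : Set (E n)) = 0

/-- a subset of a manifold with two-dimensional Hausdorff measure zero, in all the open
parametrizations by `E n` -/
def Null2 (n : ℕ) {N : Type} [TopologicalSpace N] [ChartedSpace (E n) N] (B : Set N) : Prop :=
  ∀ h : E n → N, Injective h → (∀ z, LD n h z) →
    Measure.hausdorffMeasure 2 (h ⁻¹' B : Set (E n)) = 0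

section

variable {n : ℕ} {M N P : Type} [TopologicalSpace M] [ChartedSpace (E n) M]
    [TopologicalSpace N] [ChartedSpace (E n) N] [TopologicalSpace P] [ChartedSpace (E n) P]

theorem Null2.mono {B B' : Set N} (h : Null2 n B') (hB : B ⊆ B') : Null2 n B := by
  intro h' hi hl
  exact measure_mono_null (preimage_mono hB) (h h' hi hl)

theorem Null2.image {B : Set N} (h : Null2 n B) {κ : N → N} (hκ : IsDf n κ) :
    Null2 n (κ '' B) := by
  intro h' hi hl
  obtain ⟨hb, hκl⟩ := hκ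
  let e := Equiv.ofBijective κ hb
  have he : ∀ x, e.symm (κ x) = x := fun x => e.symm_apply_apply x
  have he' : ∀ x, κ (e.symm x) = x := fun x => e.apply_symm_apply x
  have h1 := h (fun z => e.symm (h' z)) (e.symm.injective.comp hi) (fun z =>
    LD.comp_fun (LD.inverse_bij hb hκl he (h' z)) (hl z))
  have h2 : h' ⁻¹' (κ '' B) = (fun z => e.symm (h' z)) ⁻¹' B := by
    ext z
    constructor
    · rintro ⟨y, hy, hyz⟩
      show e.symm (h' z) ∈ B
      rw [← hyz, he]
      exact hy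
    · intro hz
      exact ⟨_, hz, he' _⟩
  rw [h2]
  exact h1

end

/-- open sets have positive Hausdorff measure in the dimension of the space -/
theorem open_null {k : ℕ} {O : Set (E k)} (hO : IsOpen O) (hk : 2 ≤ k)
    (h : Measure.hausdorffMeasure 2 O = 0) : O = ∅ := by
  have h1 : Measure.hausdorffMeasure (Module.finrank ℝ (E k)) O = 0 := by
    refine le_antisymm ((Measure.hausdorffMeasure_mono ?_ O).trans_eq h) bot_le
    rw [finrank_euclideanSpace_fin]
    exact_mod_cast hk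
  exact (hO.measure_eq_zero_iff _).1 h1

/-- a compact piece of the projection of a closed null set omits an open set -/
theorem omit_open (m k : ℕ) (hk : 2 ≤ k) {A : Set (E (m + k))} (hA : IsClosed A)
    (h0 : Measure.hausdorffMeasure 2 A = 0) {r : ℝ} (hr : 0 < r) :
    ∃ O : Set (E k), IsOpen O ∧ O.Nonempty ∧ O ⊆ ball 0 r ∧
      ∀ z ∈ A, ‖up m k z‖ ≤ 2 → ‖vp m k z‖ ≤ 1 → vp m k z ∉ O := by
  set C : Set (E k) := vp m k '' (A ∩ {z | ‖up m k z‖ ≤ 2 ∧ ‖vp m k z‖ ≤ 1}) with hC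
  have hcpt : IsCompact (A ∩ {z | ‖up m k z‖ ≤ 2 ∧ ‖vp m k z‖ ≤ 1}) := by
    refine IsCompact.inter_left ?_ hA
    refine Metric.isCompact_of_isClosed_isBounded ?_ ?_
    · exact (isClosed_le (up m k).continuous.norm continuous_const).inter
        (isClosed_le (vp m k).continuous.norm continuous_const)
    · refine (Metric.isBounded_closedBall (x := (0 : E (m + k))) (r := 3)).subset ?_
      rintro z ⟨h1, h2⟩
      rw [mem_closedBall_zero_iff]
      have h3 : ‖z‖ ^ 2 = ‖up m k z‖ ^ 2 + ‖vp m k z‖ ^ 2 := by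
        rw [EuclideanSpace.norm_sq_eq, EuclideanSpace.norm_sq_eq, EuclideanSpace.norm_sq_eq,
          Fin.sum_univ_add]
        rfl
      have h4 := norm_nonneg (up m k z)
      have h5 := norm_nonneg (vp m k z)
      nlinarith [norm_nonneg z]
  have hCc : IsCompact C := hcpt.image (vp m k).continuous
  have hL : LipschitzWith 1 (vp m k) := by
    refine LipschitzWith.of_dist_le_mul fun u v => ?_
    rw [NNReal.coe_one, one_mul, dist_eq_norm, dist_eq_norm, ← map_sub]
    have h3 : ‖u - v‖ ^ 2 = ‖up m k (u - v)‖ ^ 2 + ‖vp m k (u - v)‖ ^ 2 := by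
      rw [EuclideanSpace.norm_sq_eq, EuclideanSpace.norm_sq_eq, EuclideanSpace.norm_sq_eq,
        Fin.sum_univ_add]
      rfl
    have h5 := norm_nonneg (vp m k (u - v))
    have h6 := norm_nonneg (u - v)
    nlinarith [sq_nonneg ‖up m k (u - v)‖]
  have hC0 : Measure.hausdorffMeasure 2 C = 0 := by
    have h2 := hL.hausdorffMeasure_image_le (d := 2) zero_le_two
      (A ∩ {z | ‖up m k z‖ ≤ 2 ∧ ‖vp m k z‖ ≤ 1})
    rw [measure_mono_null inter_subset_left h0, mul_zero] at h2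
    exact le_antisymm h2 bot_le
  refine ⟨ball 0 r \ C, isOpen_ball.sdiff hCc.isClosed, ?_, diff_subset, ?_⟩
  · rw [nonempty_iff_ne_empty]
    intro hcon
    have h1 : Measure.hausdorffMeasure 2 (ball (0 : E k) r) = 0 :=
      measure_mono_null (diff_eq_empty.1 hcon) hC0
    have h2 := open_null isOpen_ball hk h1
    exact absurd (mem_ball_self (x := (0 : E k)) hr) (by rw [h2]; exact notMem_empty _)
  · rintro z hz h1 h2 ⟨-, h3⟩
    exact h3 ⟨z, ⟨hz, h1, h2⟩, rfl⟩

/-- the handle `H` is in good position -/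
def PrM (m k : ℕ) {M N : Type} [TopologicalSpace M] [ChartedSpace (E (m + k)) M]
    [TopologicalSpace N] [ChartedSpace (E (m + k)) N] (f : M → N) (H : E (m + k) → N) : Prop :=
  ∀ x, f x ∈ range H → vp m k (invFun H (f x)) = 0 → ‖up m k (invFun H (f x))‖ < 2 →
    Sm (m + k) (fun y => invFun H (f y)) x ∧
    Surjective (mfderiv (𝓡 (m + k)) (𝓡 k) (fun y => vp m k (invFun H (f y))) x)

theorem ext_up_vp {m k : ℕ} (z w : E (m + k)) (h : up m k z = up m k w)
    (h' : vp m k z = vp m k w) : z = w := by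
  rw [← jn_up_vp m k z, ← jn_up_vp m k w, h, h']

/-- a shift along the cocore moves a closed null set off the core disc -/
theorem push (hVS : S_VS) (hSU : S_SUPP) {m k : ℕ} (hk : 2 ≤ k) {N : Type}
    [TopologicalSpace N] [T2Space N] [ChartedSpace (E (m + k)) N]
    {H : E (m + k) → N} (hi : Injective H) (hl : ∀ z, LD (m + k) H z)
    {L : Set N} (hLc : IsClosed L) (hL : Null2 (m + k) L) :
    ∃ κ : N → N, IsDf (m + k) κ ∧ (∀ x, x ∉ range H → κ x = x) ∧
      (∀ z, ∃ w, κ (H z) = H w ∧ up m k w = up m k z) ∧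
      ∀ z, vp m k z = 0 → ‖up m k z‖ ≤ 2 → H z ∉ κ '' L := by
  obtain ⟨ρ, hρ, hκ⟩ := hVS m k
  obtain ⟨O, hO, ⟨y₀, hyO⟩, hOr, hOA⟩ := omit_open m k hk (A := H ⁻¹' L)
    (hLc.preimage (cont_of_ld hl)) (hL H hi hl) (lt_min hρ one_pos)
  have hy₀ := hOr hyO
  rw [mem_ball_zero_iff] at hy₀
  have hy1 : ‖y₀‖ < ρ := lt_of_lt_of_le hy₀ (min_le_left _ _)
  have hy2 : ‖y₀‖ < 1 := lt_of_lt_of_le hy₀ (min_le_right _ _)
  obtain ⟨κ, hκ1, hκ2, hκ3, hκ4⟩ := hκ (-y₀) (by rw [norm_neg]; exact hy1)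
  obtain ⟨K, hK1, hK2, hK3⟩ := hSU (m + k) N H hi hl κ hκ1 hκ2
  refine ⟨K, hK1, hK3, fun z => ⟨κ z, hK2 z, hκ3 z⟩, fun z h1 h2 => ?_⟩
  rintro ⟨y, hy, hyz⟩
  -- the point with coordinates `(up z, y₀)`
  have h3 : κ (jn m k (up m k z) y₀) = z := by
    refine ext_up_vp _ _ ?_ ?_
    · rw [hκ3, up_jn]
    · rw [hκ4 _ (by rw [up_jn]; exact h2) (by rw [vp_jn]; exact hy2.le), vp_jn, h1,
        add_neg_cancel]
  have h4 : K (H (jn m k (up m k z) y₀)) = H z := by rw [hK2, h3]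
  have h5 : y = H (jn m k (up m k z) y₀) := hK1.1.1 (hyz.trans h4.symm)
  refine hOA (jn m k (up m k z) y₀) ?_ (by rw [up_jn]; exact h2) (by rw [vp_jn]; exact hy2.le)
    (by rw [vp_jn]; exact hyO)
  show H (jn m k (up m k z) y₀) ∈ L
  rw [← h5]
  exact hy

theorem isClosed_bad {n : ℕ} {M N : Type} [TopologicalSpace M] [ChartedSpace (E n) M]
    [TopologicalSpace N] [ChartedSpace (E n) N] (f : M → N) : IsClosed (Bad n f) := by
  have h1 : IsOpen {x : M | Sm n f x} := isOpen_setOfPred_eventually_nhds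
  exact h1.isClosed_compl

/-- regular position of one handle -/
theorem one (hVS : S_VS) (hSU : S_SUPP) (hRG : S_REG) {m k : ℕ} (hk : 2 ≤ k) {M N : Type}
    [TopologicalSpace M] [CompactSpace M] [ChartedSpace (E (m + k)) M]
    [IsManifold (𝓡 (m + k)) ∞ M] [TopologicalSpace N] [T2Space N] [ChartedSpace (E (m + k)) N]
    (f : M ≃ₜ N) {H : E (m + k) → N} (hi : Injective H) (hl : ∀ z, LD (m + k) H z)
    (hN : Null2 (m + k) (f '' Bad (m + k) f)) :
    ∃ κ : N → N, IsDf (m + k) κ ∧ (∀ x, x ∉ range H → κ x = x) ∧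
      (∀ z, ∃ w, κ (H z) = H w ∧ up m k w = up m k z) ∧ PrM m k (fun x => κ (f x)) H := by
  have hsc : SecondCountableTopology M :=
    ChartedSpace.secondCountable_of_sigmaCompact (E (m + k)) M
  obtain ⟨ρ, hρ, hκ⟩ := hVS m k
  have hBc : IsClosed (H ⁻¹' (f '' Bad (m + k) f)) :=
    (f.isClosedMap _ (isClosed_bad _)).preimage (cont_of_ld hl)
  obtain ⟨O, hO, hOn, hOr, hOA⟩ := omit_open m k hk (A := H ⁻¹' (f '' Bad (m + k) f))
    hBc (hN H hi hl) (lt_min hρ one_pos)
  have hsmF : ∀ x, f x ∈ range H → Sm (m + k) f x → Sm (m + k) (fun y => invFun H (f y)) x := by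
    intro x hx hs
    obtain ⟨z, hz⟩ := hx
    exact Sm.comp_ld hs (hz ▸ ld_inv hi hl z)
  have hvs : ∀ (g : M → E (m + k)) (x : M), ContMDiffAt (𝓡 (m + k)) (𝓡 (m + k)) ∞ g x →
      ContMDiffAt (𝓡 (m + k)) (𝓡 k) ∞ (fun y => vp m k (g y)) x := by
    intro g x hg
    exact ContMDiffAt.comp (g := vp m k) x (vp m k).contDiff.contMDiff.contMDiffAt hg
  obtain ⟨U, hU⟩ : ∃ U : TopologicalSpace.Opens M, ∀ x, x ∈ U ↔ f x ∈ range H ∧ Sm (m + k) f x := by
    refine ⟨⟨f ⁻¹' range H ∩ {x | Sm (m + k) f x}, ?_⟩, fun _ => Iff.rfl⟩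
    exact ((open_range hl).preimage f.continuous).inter isOpen_setOfPred_eventually_nhds
  obtain ⟨y₀, hyO, hreg⟩ := hRG m k U (fun x => vp m k (invFun H (f x.1)))
    univ (by omega) isOpen_univ (fun x _ => by
      have h2 := hvs _ x.1 (hsmF x.1 ((hU _).mp x.2).1 ((hU _).mp x.2).2).self_of_nhds
      exact ContMDiffAt.comp (g := fun y => vp m k (invFun H (f y))) x h2
        contMDiff_subtype_val.contMDiffAt) (fun j => by simp) O hO hOn
  have hy₀ := hOr hyO
  rw [mem_ball_zero_iff] at hy₀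
  have hy1 : ‖y₀‖ < ρ := lt_of_lt_of_le hy₀ (min_le_left _ _)
  have hy2 : ‖y₀‖ < 1 := lt_of_lt_of_le hy₀ (min_le_right _ _)
  obtain ⟨κ, hκ1, hκ2, hκ3, hκ4⟩ := hκ (-y₀) (by rw [norm_neg]; exact hy1)
  obtain ⟨K, hK1, hK2, hK3⟩ := hSU (m + k) N H hi hl κ hκ1 hκ2
  refine ⟨K, hK1, hK3, fun z => ⟨κ z, hK2 z, hκ3 z⟩, fun x hx h1 h2 => ?_⟩
  simp only at hx h1 h2
  -- the point lies in the handle
  have hfx : f x ∈ range H := by
    by_contra hcon
    rw [hK3 _ hcon] at hx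
    exact hcon hx
  have hop : IsOpen (f ⁻¹' range H) := (open_range hl).preimage f.continuous
  have hform : ∀ y, f y ∈ range H → invFun H (K (f y)) = κ (invFun H (f y)) := by
    intro y hy
    obtain ⟨z, hz⟩ := hy
    rw [← hz, hK2, inv_app hi, inv_app hi]
  rw [hform x hfx] at h1 h2
  rw [hκ3] at h2
  have hz : vp m k (invFun H (f x)) = y₀ := by
    have h3 : κ (invFun H (f x)) = κ (jn m k (up m k (invFun H (f x))) y₀) := by
      refine ext_up_vp _ _ ?_ ?_
      · rw [hκ3, hκ3, up_jn]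
      · rw [h1, hκ4 _ (by rw [up_jn]; exact h2.le) (by rw [vp_jn]; exact hy2.le), vp_jn,
          add_neg_cancel]
    have h4 := hκ1.1.1 h3
    rw [h4, vp_jn]
  have hsm : Sm (m + k) f x := by
    by_contra hcon
    refine hOA (invFun H (f x)) ?_ h2.le (by rw [hz]; exact hy2.le) (by rw [hz]; exact hyO)
    show H (invFun H (f x)) ∈ f '' Bad (m + k) f
    rw [app_inv hfx]
    exact ⟨x, hcon, rfl⟩
  obtain ⟨-, r2⟩ := hreg ⟨x, (hU x).mpr ⟨hfx, hsm⟩⟩ hz
  have hsF := hsmF x hfx hsm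
  have hev : (fun y => invFun H (K (f y))) =ᶠ[𝓝 x] fun y => κ (invFun H (f y)) := by
    filter_upwards [hop.mem_nhds hfx] with y hy
    exact hform y hy
  refine ⟨Sm.congr' (Sm.comp_ld hsF (hκ1.2 _)) hev, ?_⟩
  have hcF : ContinuousAt (fun y => invFun H (f y)) x := hsF.self_of_nhds.continuousAt
  have hev2 : (fun y => vp m k (invFun H (K (f y)))) =ᶠ[𝓝 x]
      fun y => vp m k (invFun H (f y)) + -y₀ := by
    have e1 : ∀ᶠ y in 𝓝 x, ‖up m k (invFun H (f y))‖ < 2 :=
      ((up m k).continuous.continuousAt.comp (f := fun y => invFun H (f y)) hcF).norm.eventually_lt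
        continuousAt_const h2
    have e2 : ∀ᶠ y in 𝓝 x, ‖vp m k (invFun H (f y))‖ < 1 :=
      ((vp m k).continuous.continuousAt.comp (f := fun y => invFun H (f y)) hcF).norm.eventually_lt
        continuousAt_const (by rw [Function.comp_apply, hz]; exact hy2)
    filter_upwards [hev, e1, e2] with y h3 h4 h5
    rw [h3, hκ4 _ h4.le h5.le]
  have hd : MDifferentiableAt (𝓡 (m + k)) (𝓡 k) (fun y => vp m k (invFun H (f y))) x :=
    (hvs _ x hsF.self_of_nhds).mdifferentiableAt (by simp)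
  rw [hev2.mfderiv_eq]
  have e3 : mfderiv (𝓡 (m + k)) (𝓡 k) (fun y => vp m k (invFun H (f y)) + -y₀) x =
      mfderiv (𝓡 (m + k)) (𝓡 k) (fun y => vp m k (invFun H (f y))) x := by
    have h6 := hd.hasMFDerivAt.add (hasMFDerivAt_const (I := 𝓡 (m + k)) (I' := 𝓡 k) (-y₀) x)
    exact h6.mfderiv.trans (add_zero _)
  rw [e3]
  have e4 : mfderiv (𝓡 (m + k)) (𝓡 k) (fun x : U => vp m k (invFun H (f x.1)))
      ⟨x, (hU x).mpr ⟨hfx, hsm⟩⟩ =
        (mfderiv (𝓡 (m + k)) (𝓡 k) (fun y => vp m k (invFun H (f y))) x).comp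
        (mfderiv (𝓡 (m + k)) (𝓡 (m + k)) (Subtype.val : U → M) ⟨x, (hU x).mpr ⟨hfx, hsm⟩⟩) :=
    mfderiv_comp (I := 𝓡 (m + k)) (I' := 𝓡 (m + k)) (I'' := 𝓡 k)
      (g := fun y => vp m k (invFun H (f y))) ⟨x, (hU x).mpr ⟨hfx, hsm⟩⟩ hd
      (contMDiff_subtype_val.contMDiffAt.mdifferentiableAt (n := ∞) (by simp))
  rw [e4] at r2
  exact Surjective.of_comp r2

end Pool.Agent.H829.AZ
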