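import Pool.Agent.H829.AZ.Eng

/-!
# Cells which contain a part of the bad set
-/

set_option autoImplicit false

open Set Filter Topology Metric Function MeasureTheory
open scoped Manifold ContDiff

noncomputable section

namespace Pool.Agent.H829.AZ

open Pool.Agent.Y522 Pool.Agent.N550.KH Pool.Agent.N550.TS

/-- an open cell -/
def IsCell (n : ℕ) {N : Type} [TopologicalSpace N] [ChartedSpace (E n) N] (e : E n → N) : Prop :=
  Injective e ∧ ∀ z, LD n e z

/-- the standard diffeomorphism of `E n` with a ball -/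
def bt {n : ℕ} (z₀ : E n) (r : ℝ) (z : E n) : E n :=
  z₀ + r • (OpenPartialHomeomorph.univUnitBall z : E n)

theorem bt_cell {n : ℕ} (z₀ : E n) {r : ℝ} (hr : 0 < r) : IsCell n (bt z₀ r) := by
  constructor
  · intro x y hxy
    have h1 : (OpenPartialHomeomorph.univUnitBall x : E n) = OpenPartialHomeomorph.univUnitBall y :=
      smul_right_injective _ hr.ne' (add_left_cancel hxy)
    exact (OpenPartialHomeomorph.univUnitBall (E := E n)).injOn
      (mem_univ x) (mem_univ y) h1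
  · intro z
    have h1 : LD n (fun z : E n => (OpenPartialHomeomorph.univUnitBall z : E n)) z := by
      let P : PartialDiffeomorph (𝓡 n) (𝓡 n) (E n) (E n) ∞ :=
        { toPartialEquiv := (OpenPartialHomeomorph.univUnitBall (E := E n)).toPartialEquiv
          open_source := (OpenPartialHomeomorph.univUnitBall (E := E n)).open_source
          open_target := (OpenPartialHomeomorph.univUnitBall (E := E n)).open_target
          contMDiffOn_toFun :=
            (OpenPartialHomeomorph.contDiff_univUnitBall (n := ⊤)).contDiffOn.contMDiffOn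
          contMDiffOn_invFun :=
            OpenPartialHomeomorph.contDiffOn_univUnitBall_symm.contMDiffOn }
      exact ⟨P, mem_univ z, fun _ _ => rfl⟩
    have h2 : LD n (fun w : E n => z₀ + r • w) (OpenPartialHomeomorph.univUnitBall z : E n) := by
      let D : Diffeomorph (𝓡 n) (𝓡 n) (E n) (E n) ∞ :=
        { toFun := fun w => z₀ + r • w
          invFun := fun w => r⁻¹ • (w - z₀)
          left_inv := fun w => by
            show r⁻¹ • (z₀ + r • w - z₀) = w
            rw [add_sub_cancel_left, smul_smul, inv_mul_cancel₀ hr.ne', one_smul]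
          right_inv := fun w => by
            show z₀ + r • r⁻¹ • (w - z₀) = w
            rw [smul_smul, mul_inv_cancel₀ hr.ne', one_smul, add_sub_cancel]
          contMDiff_toFun := by
            have : ContDiff ℝ ∞ (fun w : E n => z₀ + r • w) := by fun_prop
            exact this.contMDiff
          contMDiff_invFun := by
            have : ContDiff ℝ ∞ (fun w : E n => r⁻¹ • (w - z₀)) := by fun_prop
            exact this.contMDiff }
      exact D.isLocalDiffeomorph _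
    exact LD.comp_fun (g := fun w : E n => z₀ + r • w) h2 h1

theorem bt_range {n : ℕ} (z₀ : E n) {r : ℝ} (hr : 0 < r) (z : E n) : bt z₀ r z ∈ ball z₀ r := by
  have h1 : (OpenPartialHomeomorph.univUnitBall z : E n) ∈ ball (0 : E n) 1 :=
    (OpenPartialHomeomorph.univUnitBall (E := E n)).map_source (mem_univ z)
  rw [mem_ball_zero_iff] at h1
  rw [bt, mem_ball, dist_eq_norm, add_sub_cancel_left, norm_smul, Real.norm_of_nonneg hr.le]
  calc r * ‖_‖ < r * 1 := mul_lt_mul_of_pos_left h1 hr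
    _ = r := mul_one r

/-- the ball of half the radius is covered by the image of the unit ball -/
theorem bt_half {n : ℕ} (z₀ : E n) {r : ℝ} (hr : 0 < r) {w : E n} (hw : ‖w - z₀‖ ≤ r / 2) :
    ∃ z ∈ closedBall (0 : E n) 1, bt z₀ r z = w := by
  have h0 : r⁻¹ • (w - z₀) ∈ ball (0 : E n) 1 := by
    rw [mem_ball_zero_iff, norm_smul, norm_inv, Real.norm_of_nonneg hr.le, inv_mul_lt_iff₀ hr]
    linarith
  have ht : r⁻¹ • (w - z₀) ∈ (OpenPartialHomeomorph.univUnitBall (E := E n)).target := h0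
  obtain ⟨z, hz⟩ : ∃ z, z = (OpenPartialHomeomorph.univUnitBall (E := E n)).symm
      (r⁻¹ • (w - z₀)) := ⟨_, rfl⟩
  have h1 : (OpenPartialHomeomorph.univUnitBall z : E n) = r⁻¹ • (w - z₀) := by
    rw [hz]
    exact (OpenPartialHomeomorph.univUnitBall (E := E n)).right_inv ht
  refine ⟨z, ?_, ?_⟩
  · rw [mem_closedBall_zero_iff]
    have h2 : ‖(OpenPartialHomeomorph.univUnitBall z : E n)‖ ≤ 1 / 2 := by
      rw [h1, norm_smul, norm_inv, Real.norm_of_nonneg hr.le, inv_mul_le_iff₀ hr]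
      linarith
    rw [OpenPartialHomeomorph.univUnitBall_apply, norm_smul, norm_inv, Real.norm_of_nonneg (Real.sqrt_nonneg _)] at h2
    by_contra hcon
    rw [not_le] at hcon
    have h3 : 0 < √(1 + ‖z‖ ^ 2) := Real.sqrt_pos.2 (by positivity)
    rw [inv_mul_le_iff₀ h3] at h2
    have h4 : √(1 + ‖z‖ ^ 2) < 2 * ‖z‖ := by
      rw [Real.sqrt_lt' (by linarith)]
      nlinarith
    linarith
  · rw [bt, h1, smul_smul, mul_inv_cancel₀ hr.ne', one_smul, add_sub_cancel]

section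

variable {n : ℕ} {N : Type} [TopologicalSpace N] [T2Space N] [ChartedSpace (E n) N]

omit [T2Space N] in
theorem IsCell.comp {e : E n → N} (he : IsCell n e) {g : E n → E n} (hg : IsCell n g) :
    IsCell n (fun z => e (g z)) :=
  ⟨he.1.comp hg.1, fun z => LD.comp_fun (he.2 (g z)) (hg.2 z)⟩

omit [T2Space N] in
theorem IsCell.df {e : E n → N} (he : IsCell n e) {κ : N → N} (hκ : IsDf n κ) :
    IsCell n (fun z => κ (e z)) :=
  ⟨hκ.1.1.comp he.1, fun z => LD.comp_fun (hκ.2 (e z)) (he.2 z)⟩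

omit [T2Space N] in
/-- a smaller cell, disjoint from `T` -/
theorem recell {e : E n → N} (he : IsCell n e) {κ : N → N} (hκ : IsDf n κ) (T : Set N)
    (h : ∀ z, ‖z‖ ≤ 2 → κ (e z) ∉ T) :
    ∃ e' : E n → N, IsCell n e' ∧ Disjoint (range e') T ∧
      κ '' (e '' closedBall 0 1) ⊆ e' '' closedBall 0 1 := by
  refine ⟨fun z => κ (e (bt 0 2 z)), (he.comp (bt_cell 0 two_pos)).df hκ, ?_, ?_⟩
  · rw [disjoint_left]
    rintro _ ⟨z, rfl⟩
    apply h
    have h1 := bt_range (0 : E n) two_pos z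
    rw [mem_ball_zero_iff] at h1
    exact h1.le
  · rintro _ ⟨_, ⟨z, hz, rfl⟩, rfl⟩
    rw [mem_closedBall_zero_iff] at hz
    obtain ⟨w, hw, hwz⟩ := bt_half (0 : E n) two_pos (w := z) (by rw [sub_zero]; linarith)
    exact ⟨w, hw, by simp only [hwz]⟩

/-- the unit ball of a cell can be moved inside the cell to a cell which is disjoint from `T` -/
theorem avoid {e : E n → N} (he : IsCell n e) {T : Set N} (hT : IsClosed T)
    (h : ∃ z, e z ∉ T) :
    ∃ (e' : E n → N) (κ : N → N), IsCell n e' ∧ IsDf n κ ∧ (∀ x, x ∉ range e → κ x = x) ∧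
      κ '' (e '' closedBall 0 1) ⊆ e' '' closedBall 0 1 ∧ range e' ⊆ range e ∧
      Disjoint (range e') T := by
  obtain ⟨z₀, hz₀⟩ := h
  have hopen : IsOpen (e ⁻¹' T)ᶜ := (hT.preimage (Two.cont_of_ld he.2)).isOpen_compl
  obtain ⟨ε, hε, hεb⟩ := Metric.isOpen_iff.1 hopen z₀ hz₀
  obtain ⟨κ, hκ, hκs, hκb⟩ := Shift.main.2.2 n z₀ (ε / 2) 1 (by positivity)
  let q := Equiv.ofBijective κ hκ.1
  have hq : ∀ x, q.symm (κ x) = x := fun x => q.symm_apply_apply x
  have hd : IsDf n (fun z => q.symm z) :=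
    ⟨q.symm.bijective, fun y => LD.inverse_bij hκ.1 hκ.2 hq y⟩
  obtain ⟨R', hR'⟩ := hκs
  have hs : ∀ z, R' ≤ ‖z‖ → q.symm z = z := by
    intro z hz
    have h1 := hq z
    rwa [hR' z hz] at h1
  obtain ⟨K, hK, hKc, hKo⟩ := Supp.main n N e he.1 he.2 (fun z => q.symm z) hd ⟨R', hs⟩
  refine ⟨fun z => e (bt z₀ ε z), K, he.comp (bt_cell z₀ hε), hK, hKo, ?_, ?_, ?_⟩
  · rintro _ ⟨_, ⟨z, hz, rfl⟩, rfl⟩
    obtain ⟨w, hw, hwz⟩ := hκb hz
    obtain ⟨v, hv, hvw⟩ := bt_half z₀ hε (w := w) (by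
      rw [mem_ball, dist_eq_norm] at hw
      exact hw.le)
    refine ⟨v, hv, ?_⟩
    simp only
    rw [hvw, hKc, ← hwz, hq]
  · rintro _ ⟨z, rfl⟩
    exact ⟨_, rfl⟩
  · rw [disjoint_left]
    rintro _ ⟨z, rfl⟩ hz
    exact hεb (bt_range z₀ hε z) hz

end

/-- `f` is smooth off a set with image of area zero and off the preimage of the unit ball of `e` -/
def GoodOff (n : ℕ) {M N : Type} [TopologicalSpace M] [ChartedSpace (E n) M]
    [TopologicalSpace N] [ChartedSpace (E n) N] (f : M → N) (e : E n → N) : Prop :=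
  Null2 n (f '' Bad n f \ e '' closedBall 0 1)

theorem GoodOff.comp {n : ℕ} {M N : Type} [TopologicalSpace M] [ChartedSpace (E n) M]
    [TopologicalSpace N] [ChartedSpace (E n) N] {f : M → N} {e e' : E n → N}
    (h : GoodOff n f e) {κ : N → N} (hκ : IsDf n κ)
    (hsub : κ '' (e '' closedBall 0 1) ⊆ e' '' closedBall 0 1) :
    GoodOff n (fun x => κ (f x)) e' := by
  refine (h.image hκ).mono ?_
  rintro _ ⟨⟨x, hx, rfl⟩, hx'⟩
  refine ⟨f x, ⟨⟨x, ?_, rfl⟩, ?_⟩, rfl⟩
  · intro hs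
    apply hx
    filter_upwards [hs] with y hy
    exact ContMDiffAt.comp (g := κ) y (hκ.2 _).contMDiffAt hy
  · intro hcon
    exact hx' (hsub ⟨f x, hcon, rfl⟩)

/-- one handle: the common part of the following lemmas -/
theorem omit2 {m k : ℕ} (hk : 2 ≤ k) {M N : Type}
    [TopologicalSpace M] [CompactSpace M] [ChartedSpace (E (m + k)) M]
    [TopologicalSpace N] [T2Space N] [ChartedSpace (E (m + k)) N]
    (f : M ≃ₜ N) {H : E (m + k) → N} (hi : Injective H) (hl : ∀ z, LD (m + k) H z)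
    {e : E (m + k) → N} (he : IsCell (m + k) e) (hN : GoodOff (m + k) f e)
    (hT : ∀ z, vp m k z = 0 → ‖up m k z‖ ≤ 2 → H z ∉ e '' closedBall 0 2) {r : ℝ} (hr : 0 < r) :
    ∃ O : Set (E k), IsOpen O ∧ O.Nonempty ∧ O ⊆ ball 0 r ∧ O ⊆ ball 0 1 ∧
      (∀ z, ‖up m k z‖ ≤ 2 → vp m k z ∈ O → H z ∉ f '' Bad (m + k) f) ∧
      ∀ z, ‖up m k z‖ ≤ 2 → vp m k z ∈ O → H z ∉ e '' closedBall 0 2 := by
  have hcH := Two.cont_of_ld hl
  have hce := Two.cont_of_ld he.2
  have hE : IsClosed (e '' closedBall 0 2) := ((isCompact_closedBall _ _).image hce).isClosed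
  -- a neighbourhood of the core disc is disjoint from the ball
  obtain ⟨δ, hδ, hδ1, hδT⟩ : ∃ δ : ℝ, 0 < δ ∧ δ ≤ 1 ∧
      ∀ z, ‖up m k z‖ ≤ 2 → ‖vp m k z‖ ≤ δ → H z ∉ e '' closedBall 0 2 := by
    have hcpt : IsCompact (H ⁻¹' (e '' closedBall 0 2) ∩
        {z | ‖up m k z‖ ≤ 2 ∧ ‖vp m k z‖ ≤ 1}) := by
      refine IsCompact.inter_left ?_ (hE.preimage hcH)
      refine Metric.isCompact_of_isClosed_isBounded ?_ ?_
      · exact (isClosed_le (up m k).continuous.norm continuous_const).inter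
          (isClosed_le (vp m k).continuous.norm continuous_const)
      · refine (Metric.isBounded_closedBall (x := (0 : E (m + k))) (r := 3)).subset ?_
        rintro z ⟨h1, h2⟩
        rw [mem_closedBall_zero_iff]
        have h3 : ‖z‖ ^ 2 = ‖up m k z‖ ^ 2 + ‖vp m k z‖ ^ 2 := by
          rw [EuclideanSpace.norm_sq_eq, EuclideanSpace.norm_sq_eq, EuclideanSpace.norm_sq_eq,
            Fin.sum_univ_add]
          rfl
        have h4 := norm_nonneg (up m k z)
        have h5 := norm_nonneg (vp m k z)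
        nlinarith [norm_nonneg z]
    rcases (H ⁻¹' (e '' closedBall 0 2) ∩
        {z | ‖up m k z‖ ≤ 2 ∧ ‖vp m k z‖ ≤ 1}).eq_empty_or_nonempty with h0 | h0
    · refine ⟨1, one_pos, le_rfl, fun z h1 h2 h3 => ?_⟩
      have h4 : z ∈ (∅ : Set (E (m + k))) := by
        rw [← h0]
        exact ⟨h3, h1, h2⟩
      exact h4
    · obtain ⟨z₀, hz₀, hmin⟩ := hcpt.exists_isMinOn h0
        (f := fun z => ‖vp m k z‖) (vp m k).continuous.norm.continuousOn
      have hpos : 0 < ‖vp m k z₀‖ := by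
        rw [norm_pos_iff]
        intro hcon
        exact hT z₀ hcon hz₀.2.1 hz₀.1
      refine ⟨‖vp m k z₀‖ / 2, by positivity, by linarith [hz₀.2.2], fun z h1 h2 h3 => ?_⟩
      have h4 := isMinOn_iff.1 hmin z ⟨h3, h1, by linarith [hz₀.2.2]⟩
      linarith
  have hA : IsClosed (H ⁻¹' (f '' Bad (m + k) f) ∩ {z | ‖up m k z‖ ≤ 2 ∧ ‖vp m k z‖ ≤ δ}) := by
    refine IsClosed.inter ((f.isClosedMap _ (isClosed_bad _)).preimage hcH) ?_
    exact (isClosed_le (up m k).continuous.norm continuous_const).inter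
      (isClosed_le (vp m k).continuous.norm continuous_const)
  obtain ⟨O, hO, hOn, hOr, hOA⟩ := omit_open m k hk hA (by
    refine measure_mono_null ?_ (hN H hi hl)
    rintro z ⟨h1, h2, h3⟩
    refine ⟨h1, fun h4 => hδT z h2 h3 ?_⟩
    exact image_mono (closedBall_subset_closedBall one_le_two) h4) (lt_min hr hδ)
  have hO1 : ∀ y ∈ O, ‖y‖ < r ∧ ‖y‖ < δ := fun y hy => by
    have h1 := hOr hy
    rw [mem_ball_zero_iff, lt_min_iff] at h1
    exact h1
  refine ⟨O, hO, hOn, fun y hy => mem_ball_zero_iff.2 (hO1 y hy).1,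
    fun y hy => mem_ball_zero_iff.2 (by linarith [(hO1 y hy).2]), fun z h1 h2 h3 => ?_,
    fun z h1 h2 => hδT z h1 (hO1 _ h2).2.le⟩
  exact hOA z ⟨h3, h1, (hO1 _ h2).2.le⟩ h1 (by linarith [(hO1 _ h2).2]) h2

/-- regular position of one handle -/
theorem one2 {m k : ℕ} (hk : 2 ≤ k) {M N : Type}
    [TopologicalSpace M] [CompactSpace M] [ChartedSpace (E (m + k)) M]
    [IsManifold (𝓡 (m + k)) ∞ M] [TopologicalSpace N] [T2Space N] [ChartedSpace (E (m + k)) N]
    (f : M ≃ₜ N) {H : E (m + k) → N} (hi : Injective H) (hl : ∀ z, LD (m + k) H z)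
    {e : E (m + k) → N} (he : IsCell (m + k) e) (hN : GoodOff (m + k) f e)
    (hT : ∀ z, vp m k z = 0 → ‖up m k z‖ ≤ 2 → H z ∉ e '' closedBall 0 2) :
    ∃ κ : N → N, IsDf (m + k) κ ∧ (∀ x, x ∉ range H → κ x = x) ∧
      (∀ z, ∃ w, κ (H z) = H w ∧ up m k w = up m k z) ∧ PrM m k (fun x => κ (f x)) H ∧
      ∀ z, vp m k z = 0 → ‖up m k z‖ ≤ 2 → H z ∉ κ '' (e '' closedBall 0 2) := by
  have hVS : S_VS := Shift.main.2.1
  have hSU : S_SUPP := Supp.main
  have hRG : S_REG := Reg.main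
  have hsc : SecondCountableTopology M :=
    ChartedSpace.secondCountable_of_sigmaCompact (E (m + k)) M
  obtain ⟨ρ, hρ, hκ⟩ := hVS m k
  obtain ⟨O, hO, hOn, hOr, hO1, hOA, hOE⟩ := omit2 hk f hi hl he hN hT hρ
  have hsmF : ∀ x, f x ∈ range H → Sm (m + k) f x → Sm (m + k) (fun y => invFun H (f y)) x := by
    intro x hx hs
    obtain ⟨z, hz⟩ := hx
    exact Two.Sm.comp_ld hs (hz ▸ Two.ld_inv hi hl z)
  have hvs : ∀ (g : M → E (m + k)) (x : M), ContMDiffAt (𝓡 (m + k)) (𝓡 (m + k)) ∞ g x →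
      ContMDiffAt (𝓡 (m + k)) (𝓡 k) ∞ (fun y => vp m k (g y)) x := by
    intro g x hg
    exact ContMDiffAt.comp (g := vp m k) x (vp m k).contDiff.contMDiff.contMDiffAt hg
  obtain ⟨U, hU⟩ : ∃ U : TopologicalSpace.Opens M, ∀ x, x ∈ U ↔ f x ∈ range H ∧ Sm (m + k) f x := by
    refine ⟨⟨f ⁻¹' range H ∩ {x | Sm (m + k) f x}, ?_⟩, fun _ => Iff.rfl⟩
    exact ((Two.open_range hl).preimage f.continuous).inter isOpen_setOfPred_eventually_nhds
  obtain ⟨y₀, hyO, hreg⟩ := hRG m k U (fun x => vp m k (invFun H (f x.1)))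
    univ (by omega) isOpen_univ (fun x _ => by
      have h2 := hvs _ x.1 (hsmF x.1 ((hU _).mp x.2).1 ((hU _).mp x.2).2).self_of_nhds
      exact ContMDiffAt.comp (g := fun y => vp m k (invFun H (f y))) x h2
        contMDiff_subtype_val.contMDiffAt) (fun j => by simp) O hO hOn
  have hy1 := hOr hyO
  rw [mem_ball_zero_iff] at hy1
  have hy2 := hO1 hyO
  rw [mem_ball_zero_iff] at hy2
  obtain ⟨κ, hκ1, hκ2, hκ3, hκ4⟩ := hκ (-y₀) (by rw [norm_neg]; exact hy1)
  obtain ⟨K, hK1, hK2, hK3⟩ := hSU (m + k) N H hi hl κ hκ1 hκ2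
  refine ⟨K, hK1, hK3, fun z => ⟨κ z, hK2 z, hκ3 z⟩, fun x hx h1 h2 => ?_, fun z h1 h2 => ?_⟩
  swap
  · rintro ⟨y, hy, hyz⟩
    have h3 : κ (jn m k (up m k z) y₀) = z := by
      refine ext_up_vp _ _ ?_ ?_
      · rw [hκ3, up_jn]
      · rw [hκ4 _ (by rw [up_jn]; exact h2) (by rw [vp_jn]; exact hy2.le), vp_jn, h1,
          add_neg_cancel]
    have h4 : K (H (jn m k (up m k z) y₀)) = H z := by rw [hK2, h3]
    have h5 : y = H (jn m k (up m k z) y₀) := hK1.1.1 (hyz.trans h4.symm)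
    rw [h5] at hy
    exact hOE _ (by rw [up_jn]; exact h2) (by rw [vp_jn]; exact hyO) hy
  simp only at hx h1 h2
  -- the point lies in the handle
  have hfx : f x ∈ range H := by
    by_contra hcon
    rw [hK3 _ hcon] at hx
    exact hcon hx
  have hop : IsOpen (f ⁻¹' range H) := (Two.open_range hl).preimage f.continuous
  have hform : ∀ y, f y ∈ range H → invFun H (K (f y)) = κ (invFun H (f y)) := by
    intro y hy
    obtain ⟨z, hz⟩ := hy
    rw [← hz, hK2, Two.inv_app hi, Two.inv_app hi]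
  rw [hform x hfx] at h1 h2
  rw [hκ3] at h2
  have hz : vp m k (invFun H (f x)) = y₀ := by
    have h3 : κ (invFun H (f x)) = κ (jn m k (up m k (invFun H (f x))) y₀) := by
      refine ext_up_vp _ _ ?_ ?_
      · rw [hκ3, hκ3, up_jn]
      · rw [h1, hκ4 _ (by rw [up_jn]; exact h2.le) (by rw [vp_jn]; exact hy2.le), vp_jn,
          add_neg_cancel]
    have h4 := hκ1.1.1 h3
    rw [h4, vp_jn]
  have hsm : Sm (m + k) f x := by
    by_contra hcon
    refine hOA (invFun H (f x)) h2.le (by rw [hz]; exact hyO) ?_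
    rw [Two.app_inv hfx]
    exact ⟨x, hcon, rfl⟩
  obtain ⟨-, r2⟩ := hreg ⟨x, (hU x).mpr ⟨hfx, hsm⟩⟩ hz
  have hsF := hsmF x hfx hsm
  have hev : (fun y => invFun H (K (f y))) =ᶠ[𝓝 x] fun y => κ (invFun H (f y)) := by
    filter_upwards [hop.mem_nhds hfx] with y hy
    exact hform y hy
  refine ⟨Two.Sm.congr' (Two.Sm.comp_ld hsF (hκ1.2 _)) hev, ?_⟩
  have hcF : ContinuousAt (fun y => invFun H (f y)) x := hsF.self_of_nhds.continuousAt
  have hev2 : (fun y => vp m k (invFun H (K (f y)))) =ᶠ[𝓝 x]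
      fun y => vp m k (invFun H (f y)) + -y₀ := by
    have e1 : ∀ᶠ y in 𝓝 x, ‖up m k (invFun H (f y))‖ < 2 :=
      ((up m k).continuous.continuousAt.comp (f := fun y => invFun H (f y)) hcF).norm.eventually_lt
        continuousAt_const h2
    have e2 : ∀ᶠ y in 𝓝 x, ‖vp m k (invFun H (f y))‖ < 1 :=
      ((vp m k).continuous.continuousAt.comp (f := fun y => invFun H (f y)) hcF).norm.eventually_lt
        continuousAt_const (by rw [Function.comp_apply, hz]; exact hy2)
    filter_upwards [hev, e1, e2] with y h3 h4 h5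
    rw [h3, hκ4 _ h4.le h5.le]
  have hd : MDifferentiableAt (𝓡 (m + k)) (𝓡 k) (fun y => vp m k (invFun H (f y))) x :=
    (hvs _ x hsF.self_of_nhds).mdifferentiableAt (by simp)
  rw [hev2.mfderiv_eq]
  have e3 : mfderiv (𝓡 (m + k)) (𝓡 k) (fun y => vp m k (invFun H (f y)) + -y₀) x =
      mfderiv (𝓡 (m + k)) (𝓡 k) (fun y => vp m k (invFun H (f y))) x := by
    have h6 := hd.hasMFDerivAt.add (hasMFDerivAt_const (I := 𝓡 (m + k)) (I' := 𝓡 k) (-y₀) x)
    exact h6.mfderiv.trans (add_zero _)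
  rw [e3]
  have e4 : mfderiv (𝓡 (m + k)) (𝓡 k) (fun x : U => vp m k (invFun H (f x.1)))
      ⟨x, (hU x).mpr ⟨hfx, hsm⟩⟩ =
        (mfderiv (𝓡 (m + k)) (𝓡 k) (fun y => vp m k (invFun H (f y))) x).comp
        (mfderiv (𝓡 (m + k)) (𝓡 (m + k)) (Subtype.val : U → M) ⟨x, (hU x).mpr ⟨hfx, hsm⟩⟩) :=
    mfderiv_comp (I := 𝓡 (m + k)) (I' := 𝓡 (m + k)) (I'' := 𝓡 k)
      (g := fun y => vp m k (invFun H (f y))) ⟨x, (hU x).mpr ⟨hfx, hsm⟩⟩ hd
      (contMDiff_subtype_val.contMDiffAt.mdifferentiableAt (n := ∞) (by simp))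
  rw [e4] at r2
  exact Surjective.of_comp r2

end Pool.Agent.H829.AZ
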