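import Pool.Agent.H829.AZ.Cell

/-!
# Cells which contain a part of the bad set: moving the cell off the cores of the handles
-/

set_option autoImplicit false

open Set Filter Topology Metric Function MeasureTheory
open scoped Manifold ContDiff

noncomputable section

namespace Pool.Agent.H829.AZ

open Pool.Agent.Y522 Pool.Agent.N550.KH Pool.Agent.N550.TS

section

variable {n : ℕ} {N : Type} [TopologicalSpace N] [T2Space N] [ChartedSpace (E n) N]

omit [T2Space N] in
theorem IsCell.cont {e : E n → N} (he : IsCell n e) : Continuous e := Two.cont_of_ld he.2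

omit [T2Space N] in
theorem IsCell.open_range {e : E n → N} (he : IsCell n e) : IsOpen (range e) :=
  Two.open_range he.2

omit [T2Space N] in
theorem IsCell.exists_off {e : E n → N} (he : IsCell n e) {T : Set N} (hT : interior T = ∅) :
    ∃ z, e z ∉ T := by
  by_contra hcon
  push Not at hcon
  have h1 : range e ⊆ interior T := interior_maximal (range_subset_iff.2 hcon) he.open_range
  rw [hT] at h1
  exact h1 (mem_range_self 0)

/-- the unit ball of a cell can be moved inside the cell to a cell which is disjoint from finitely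
many nowhere dense closed sets -/
theorem avoid_all {e : E n → N} (he : IsCell n e) {ι : Type} (T : ι → Set N)
    (hT : ∀ i, IsClosed (T i)) (hT' : ∀ i, interior (T i) = ∅) (s : Finset ι) :
    ∃ (e' : E n → N) (κ : N → N), IsCell n e' ∧ IsDf n κ ∧ (∀ x, x ∉ range e → κ x = x) ∧
      κ '' (e '' closedBall 0 1) ⊆ e' '' closedBall 0 1 ∧ range e' ⊆ range e ∧
      ∀ i ∈ s, Disjoint (range e') (T i) := by
  classical
  induction s using Finset.induction_on with
  | empty =>
    obtain ⟨e', κ, h1, h2, h3, h4, h5, -⟩ := avoid he (T := ∅) isClosed_empty ⟨0, notMem_empty _⟩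
    exact ⟨e', κ, h1, h2, h3, h4, h5, fun i hi => absurd hi (Finset.notMem_empty i)⟩
  | insert i s his ih =>
    obtain ⟨e', κ, h1, h2, h3, h4, h5, h6⟩ := ih
    obtain ⟨e₂, κ₂, g1, g2, g3, g4, g5, g6⟩ := avoid h1 (hT i) (h1.exists_off (hT' i))
    refine ⟨e₂, fun x => κ₂ (κ x), g1, ⟨g2.1.comp h2.1, fun x => LD.comp_fun (g2.2 _) (h2.2 x)⟩,
      fun x hx => ?_, ?_, g5.trans h5, fun j hj => ?_⟩
    · show κ₂ (κ x) = x
      rw [h3 x hx]
      exact g3 x fun hx' => hx (h5 hx')
    · rw [← image_image κ₂ κ]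
      exact (image_mono h4).trans g4
    · rcases Finset.mem_insert.1 hj with rfl | hj
      · exact g6
      · exact (h6 j hj).mono_left g5

end

/-- the extended core of a handle -/
def Core {m k : ℕ} {N : Type} (H : E (m + k) → N) : Set N :=
  H '' {z | vp m k z = 0 ∧ ‖up m k z‖ ≤ 2}

theorem core_closed {m k : ℕ} {N : Type} [TopologicalSpace N] [T2Space N]
    [ChartedSpace (E (m + k)) N] {H : E (m + k) → N} (hl : ∀ z, LD (m + k) H z) :
    IsClosed (Core H) := by
  refine IsCompact.isClosed (IsCompact.image ?_ (Two.cont_of_ld hl))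
  refine Metric.isCompact_of_isClosed_isBounded ?_ ?_
  · exact (isClosed_eq (vp m k).continuous continuous_const).inter
      (isClosed_le (up m k).continuous.norm continuous_const)
  · refine (Metric.isBounded_closedBall (x := (0 : E (m + k))) (r := 3)).subset ?_
    rintro z ⟨h1, h2⟩
    rw [mem_closedBall_zero_iff]
    have h3 : ‖z‖ ^ 2 = ‖up m k z‖ ^ 2 + ‖vp m k z‖ ^ 2 := by
      rw [EuclideanSpace.norm_sq_eq, EuclideanSpace.norm_sq_eq, EuclideanSpace.norm_sq_eq,
        Fin.sum_univ_add]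
      rfl
    rw [h1, norm_zero] at h3
    have h4 := norm_nonneg (up m k z)
    nlinarith [norm_nonneg z]

theorem core_interior {m k : ℕ} (hk : 2 ≤ k) {N : Type} [TopologicalSpace N] [T2Space N]
    [ChartedSpace (E (m + k)) N] {H : E (m + k) → N} (hi : Injective H)
    (hl : ∀ z, LD (m + k) H z) : interior (Core H) = ∅ := by
  by_contra hcon
  obtain ⟨y, hy⟩ := nonempty_iff_ne_empty.2 hcon
  set U : Set (E (m + k)) := H ⁻¹' interior (Core H) with hU
  have hUo : IsOpen U := isOpen_interior.preimage (Two.cont_of_ld hl)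
  have hU0 : ∀ z ∈ U, vp m k z = 0 := by
    intro z hz
    obtain ⟨w, hw, hwz⟩ := interior_subset hz
    rw [← hi hwz]
    exact hw.1
  have hUn : U.Nonempty := by
    obtain ⟨w, hw, hwy⟩ := interior_subset hy
    refine ⟨w, ?_⟩
    show H w ∈ interior (Core H)
    rw [hwy]
    exact hy
  have hsurj : Surjective (vp m k) := fun y => ⟨jn m k 0 y, vp_jn m k 0 y⟩
  have hV : IsOpen (vp m k '' U) := (vp m k).isOpenMap hsurj U hUo
  have hV0 : Measure.hausdorffMeasure 2 (vp m k '' U) = 0 := by
    refine measure_mono_null (t := {0}) ?_ ?_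
    · rintro _ ⟨z, hz, rfl⟩
      exact hU0 z hz
    · have : NullSingletonClass (Measure.hausdorffMeasure 2 : Measure (E k)) :=
        Measure.nullSingletonClass_hausdorff (E k) (by norm_num)
      exact measure_singleton _
  have h1 := open_null hV hk hV0
  obtain ⟨z, hz⟩ := hUn
  have h2 : vp m k z ∈ (∅ : Set (E k)) := by
    rw [← h1]
    exact mem_image_of_mem _ hz
  exact h2

/-- the unit ball of radius two of the cell is disjoint from `K` and from the extended cores -/
structure Pos {m k a : ℕ} {N : Type} [TopologicalSpace N] [ChartedSpace (E (m + k)) N]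
    (e : E (m + k) → N) (h : Fin a → E (m + k) → N) (K : Set N) : Prop where
  cell : IsCell (m + k) e
  offK : ∀ z, ‖z‖ ≤ 2 → e z ∉ K
  offh : ∀ i z, ‖z‖ ≤ 2 → e z ∉ Core (h i)

/-- regular position of one handle of a family -/
theorem shift_one {m k a : ℕ} (hk : 2 ≤ k) {M N : Type}
    [TopologicalSpace M] [CompactSpace M] [ChartedSpace (E (m + k)) M]
    [IsManifold (𝓡 (m + k)) ∞ M] [TopologicalSpace N] [T2Space N] [ChartedSpace (E (m + k)) N]
    (f : M ≃ₜ N) {h : Fin a → E (m + k) → N} (hi : ∀ i, Injective (h i))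
    (hl : ∀ i z, LD (m + k) (h i) z) {K : Set N} (hK : ∀ i z, h i z ∈ K ↔ 1 ≤ ‖up m k z‖)
    (hd : ∀ i j z w, i ≠ j → h i z ≠ h j w) {e : E (m + k) → N} (P : Pos e h K)
    (hN : GoodOff (m + k) f e) (i : Fin a) :
    ∃ κ : N → N, IsDf (m + k) κ ∧ (∀ x, x ∉ range (h i) → κ x = x) ∧
      (∀ z, ∃ w, κ (h i z) = h i w ∧ up m k w = up m k z) ∧
      PrM m k (fun x => κ (f x)) (h i) ∧ Pos (fun z => κ (e z)) h K := by
  obtain ⟨κ, k1, k2, k3, k4, k5⟩ := one2 hk f (hi i) (hl i) P.cell hN (fun z h1 h2 => by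
    rintro ⟨w, hw, hwz⟩
    exact P.offh i w (mem_closedBall_zero_iff.1 hw) ⟨z, ⟨h1, h2⟩, hwz.symm⟩)
  refine ⟨κ, k1, k2, k3, k4, P.cell.df k1, fun z hz hcon => ?_, fun j z hz hcon => ?_⟩
  · refine P.offK z hz ?_
    by_cases hc : e z ∈ range (h i)
    · obtain ⟨v, hv⟩ := hc
      obtain ⟨w, hw, hw'⟩ := k3 v
      rw [← hv, hw, hK, hw', ← hK, hv] at hcon
      exact hcon
    · rwa [k2 _ hc] at hcon
  · obtain ⟨w, ⟨hw1, hw2⟩, hwz⟩ := hcon
    by_cases hji : j = i
    · rw [hji] at hwz
      exact k5 w hw1 hw2 ⟨e z, ⟨z, mem_closedBall_zero_iff.2 hz, rfl⟩, hwz.symm⟩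
    · have h1 : h j w ∉ range (h i) := by
        rintro ⟨v, hv⟩
        exact hd j i w v hji hv.symm
      have h2 : e z = h j w := k1.1.1 (hwz.symm.trans (k2 _ h1).symm)
      exact P.offh j z hz ⟨w, ⟨hw1, hw2⟩, h2.symm⟩

theorem GoodOff.mono {n : ℕ} {M N : Type} [TopologicalSpace M] [ChartedSpace (E n) M]
    [TopologicalSpace N] [ChartedSpace (E n) N] {f g : M → N} {e : E n → N}
    (h : GoodOff n f e) (hg : g '' Bad n g ⊆ f '' Bad n f) : GoodOff n g e :=
  Null2.mono h (diff_subset_diff_left hg)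

theorem GoodOff.comp' {n : ℕ} {M N : Type} [TopologicalSpace M] [ChartedSpace (E n) M]
    [TopologicalSpace N] [ChartedSpace (E n) N] {f : M → N} {e : E n → N}
    (h : GoodOff n f e) {κ : N → N} (hκ : IsDf n κ) :
    GoodOff n (fun x => κ (f x)) (fun z => κ (e z)) :=
  h.comp hκ (by rw [image_image])

end Pool.Agent.H829.AZ
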