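import Pool.Agent.H829.AZ.Mod

/-!
# Homeomorphisms whose bad set is the union of a set of area zero and a part in a cell
-/

set_option autoImplicit false
set_option linter.unusedSectionVars false

open Set Filter Topology Metric Function MeasureTheory
open scoped Manifold ContDiff

noncomputable section

namespace Pool.Agent.H829.AZ

open Pool.Agent.Y522 Pool.Agent.N550.KH Pool.Agent.N550.TS

section

variable {n : ℕ} {M N : Type} [TopologicalSpace M] [ChartedSpace (E n) M] [IsManifold (𝓡 n) ∞ M]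
  [TopologicalSpace N] [ChartedSpace (E n) N] [IsManifold (𝓡 n) ∞ N]

/-- somewhere over the open set the homeomorphism is a local diffeomorphism -/
theorem exists_pt' (f : M ≃ₜ N) (b : E n → N) (hb : Injective b) (hbl : ∀ z, LD n b z)
    {U : Set (E n)} (hU : IsOpen U) {z : E n} (hz : z ∈ U) (hzA : b z ∉ f '' Bad n f) :
    ∃ (z₀ : E n) (ε : ℝ), 0 < ε ∧ ball z₀ ε ⊆ U ∧
      ∀ x w, w ∈ ball z₀ ε → f x = b w → LD n f x := by
  set x₀ : M := f.symm (b z) with hx₀
  have hfx₀ : f x₀ = b z := f.apply_symm_apply _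
  have hx₀B : ∀ᶠ y in 𝓝 x₀, ContMDiffAt (𝓡 n) (𝓡 n) ∞ f y := by
    by_contra h
    exact hzA ⟨x₀, h, hfx₀⟩
  have hball : IsOpen (b '' U) := isOpen_image_of_LD hU fun x _ => hbl x
  have h2 : ∀ᶠ y in 𝓝 x₀, f y ∈ b '' U := by
    apply f.continuous.continuousAt
    rw [hfx₀]
    exact hball.mem_nhds ⟨z, hz, rfl⟩
  obtain ⟨W, hW, hWo, hxW⟩ := eventually_nhds_iff.1 (hx₀B.and h2)
  have hinv : ∀ w, invFun b (b w) = w := leftInverse_invFun hb
  have hinvl : ∀ w, LD n (invFun b) (b w) := fun w =>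
    LD.inverse isOpen_univ (fun z _ => hbl z) (fun z _ => hinv z) (mem_univ w)
  obtain ⟨x₁, hx₁, hld⟩ := Pool.Agent.N550.SH.exists_ld (fun x => invFun b (f x)) W hWo x₀ hxW
    (by
      intro x hx
      obtain ⟨h3, w, -, hw⟩ := hW x hx
      refine ContMDiffAt.comp (g := invFun b) x ?_ h3
      rw [← hw]
      exact (hinvl w).contMDiffAt)
    (by
      intro V hV hVo
      have h3 : (fun x => invFun b (f x)) '' V = invFun b '' (f '' V) := by
        rw [image_image]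
      rw [h3]
      refine isOpen_image_of_LD (n := n) (f.isOpenMap V hVo) ?_
      rintro _ ⟨x, hx, rfl⟩
      obtain ⟨-, w, -, hw⟩ := hW x (hV hx)
      rw [← hw]
      exact hinvl w)
  obtain ⟨-, z₀, hz₀U, hz₀⟩ := hW x₁ hx₁
  have hldf : LD n f x₁ := by
    have h3 : LD n (fun x => b (invFun b (f x))) x₁ :=
      LD.comp_fun (g := b) (f := fun x => invFun b (f x)) (hbl _) hld
    refine LD.congr h3 ?_
    filter_upwards [hWo.mem_nhds hx₁] with y hy
    obtain ⟨-, w, -, hw⟩ := hW y hy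
    rw [← hw, hinv]
  have h4 : {x | LD n f x} ∈ 𝓝 x₁ := hldf.eventually
  have h5 : f '' {x | LD n f x} ∈ 𝓝 (b z₀) := by
    rw [hz₀]
    exact f.isOpenMap.image_mem_nhds h4
  have h6 : b ⁻¹' (f '' {x | LD n f x}) ∩ U ∈ 𝓝 z₀ :=
    inter_mem ((hbl z₀).continuousAt h5) (hU.mem_nhds hz₀U)
  obtain ⟨ε, hε, hεb⟩ := Metric.mem_nhds_iff.1 h6
  refine ⟨z₀, ε, hε, fun w hw => (hεb hw).2, fun x w hw hxw => ?_⟩
  obtain ⟨x', hx', hx'w⟩ := (hεb hw).1
  have : x' = x := f.injective (hx'w.trans hxw.symm)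
  rw [← this]
  exact hx'

end

section

variable {n : ℕ} {M N : Type} [TopologicalSpace M] [CompactSpace M] [T2Space M]
    [ChartedSpace (E n) M] [IsManifold (𝓡 n) ∞ M] [TopologicalSpace N] [CompactSpace N]
    [T2Space N] [ChartedSpace (E n) N] [IsManifold (𝓡 n) ∞ N]

/-- composition with a diffeomorphism supported off `Y` -/
theorem ld_supp (f : M ≃ₜ N) {κ : N → N} (hκ : IsDf n κ) {R Y : Set N}
    (hs : ∀ x, x ∉ R → κ x = x) (hd : Disjoint R Y) (hf : ∀ x, f x ∈ Y → LD n f x) :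
    ∀ x, (f.trans (Two.toH hκ)) x ∈ Y → LD n (f.trans (Two.toH hκ)) x := by
  intro x hx
  have h1 : κ (f x) ∈ Y := hx
  have h2 : κ (κ (f x)) = κ (f x) := hs _ (disjoint_right.1 hd h1)
  have h3 : κ (f x) = f x := hκ.1.1 h2
  rw [h3] at h1
  exact LD.comp_fun (g := κ) (f := f) (hκ.2 _) (hf x h1)

/-- Step 0 -/
theorem zero_step' (hn : 2 ≤ n) (f : M ≃ₜ N) (b : E n → N) (hb : Injective b)
    (hbl : ∀ z, LD n b z) {e : E n → N} (he : IsCell n e) (hg : GoodOff n f e) :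
    ∃ (f' : M ≃ₜ N) (e' : E n → N), IsCell n e' ∧ GoodOff n f' e' ∧
      Disjoint (range e') (b '' closedBall 0 1) ∧
      ∀ x, f' x ∈ b '' closedBall 0 1 → LD n f' x := by
  -- the cell is moved off the point
  have hint : interior ({b 0} : Set N) = ∅ := by
    by_contra hcon
    obtain ⟨y, hy⟩ := nonempty_iff_ne_empty.2 hcon
    have hUo : IsOpen (b ⁻¹' interior ({b 0} : Set N)) :=
      isOpen_interior.preimage (Two.cont_of_ld hbl)
    have h0 : Measure.hausdorffMeasure 2 (b ⁻¹' interior ({b 0} : Set N)) = 0 := by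
      refine measure_mono_null (t := {0}) ?_ ?_
      · intro z hz
        exact hb (mem_singleton_iff.1 (interior_subset (s := {b 0}) hz))
      · have : NullSingletonClass (Measure.hausdorffMeasure 2 : Measure (E n)) :=
          Measure.nullSingletonClass_hausdorff (E n) (by norm_num)
        exact measure_singleton _
    have h1 := open_null hUo hn h0
    have h2 : y = b 0 := mem_singleton_iff.1 (interior_subset (s := {b 0}) hy)
    rw [h2] at hy
    have h3 : (0 : E n) ∈ (∅ : Set (E n)) := by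
      rw [← h1]
      exact hy
    exact h3
  obtain ⟨e₁, κ₁, a1, a2, -, a4, -, a6⟩ := avoid he isClosed_singleton (he.exists_off hint)
  set f₁ : M ≃ₜ N := f.trans (Two.toH a2) with hf₁
  have hg₁ : GoodOff n f₁ e₁ := hg.comp a2 a4
  -- a point near `b 0`
  have hEc : IsClosed (e₁ '' closedBall 0 2) :=
    ((isCompact_closedBall _ _).image a1.cont).isClosed
  set U : Set (E n) := b ⁻¹' (e₁ '' closedBall 0 2)ᶜ with hU
  have hUo : IsOpen U := hEc.isOpen_compl.preimage (Two.cont_of_ld hbl)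
  have hU0 : (0 : E n) ∈ U := by
    rintro ⟨z, -, hz⟩
    exact disjoint_left.1 a6 (mem_range_self z) hz
  obtain ⟨z, hz, hzA⟩ : ∃ z ∈ U, b z ∉ f₁ '' Bad n f₁ := by
    by_contra hcon
    push Not at hcon
    have h1 : Measure.hausdorffMeasure 2 U = 0 := by
      refine measure_mono_null ?_ (hg₁ b hb hbl)
      intro z hz
      exact ⟨hcon z hz, fun h => hz (image_mono (closedBall_subset_closedBall one_le_two) h)⟩
    have h2 := open_null hUo hn h1
    rw [h2] at hU0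
    exact hU0
  obtain ⟨z₀, ε, hε, hεU, hgood⟩ := exists_pt' f₁ b hb hbl hUo hz hzA
  obtain ⟨κ, hκ, hκs, hκb⟩ := Shift.main.2.2 n z₀ ε 1 hε
  obtain ⟨K, hK, hKb, -⟩ := Supp.main n N b hb hbl κ hκ hκs
  obtain ⟨e₂, c1, c2, c3⟩ := recell a1 hK (b '' closedBall 0 1) (by
    rintro z hz ⟨w, hw, hwz⟩
    obtain ⟨v, hv, rfl⟩ := hκb hw
    rw [← hKb] at hwz
    have h1 : b v = e₁ z := hK.1.1 hwz
    exact hεU hv ⟨z, mem_closedBall_zero_iff.2 hz, h1.symm⟩)
  refine ⟨f₁.trans (Two.toH hK), e₂, c1, hg₁.comp hK c3, c2, ?_⟩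
  rintro x ⟨w, hw, hwx⟩
  obtain ⟨v, hv, rfl⟩ := hκb hw
  have h1 : K (f₁ x) = K (b v) := by
    rw [hKb]
    exact hwx.symm
  have h2 : LD n f₁ x := hgood x v hv (hK.1.1 h1)
  exact LD.comp_fun (g := K) (f := f₁) (hK.2 _) h2

end

/-- the cell can be moved off the cores -/
theorem pos_step {m k a : ℕ} (hk : 2 ≤ k) {M N : Type}
    [TopologicalSpace M] [CompactSpace M] [T2Space M] [ChartedSpace (E (m + k)) M]
    [IsManifold (𝓡 (m + k)) ∞ M] [TopologicalSpace N] [CompactSpace N] [T2Space N]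
    [ChartedSpace (E (m + k)) N] [IsManifold (𝓡 (m + k)) ∞ N]
    (f : M ≃ₜ N) {h : Fin a → E (m + k) → N} (hi : ∀ i, Injective (h i))
    (hl : ∀ i z, LD (m + k) (h i) z) {K : Set N} {e : E (m + k) → N} (he : IsCell (m + k) e)
    (hN : GoodOff (m + k) f e) (hd : Disjoint (range e) K)
    (hf : ∀ x, f x ∈ K → LD (m + k) f x) :
    ∃ (f' : M ≃ₜ N) (e' : E (m + k) → N), GoodOff (m + k) f' e' ∧ Pos e' h K ∧
      ∀ x, f' x ∈ K → LD (m + k) f' x := by
  obtain ⟨e', κ, h1, h2, h3, h4, h5, h6⟩ := avoid_all he (fun i => Core (h i))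
    (fun i => core_closed (hl i)) (fun i => core_interior hk (hi i) (hl i)) Finset.univ
  refine ⟨f.trans (Two.toH h2), e', hN.comp h2 h4, ⟨h1, fun z _ => ?_, fun i z _ => ?_⟩,
    ld_supp f h2 h3 hd hf⟩
  · exact disjoint_left.1 hd (h5 (mem_range_self z))
  · exact disjoint_left.1 (h6 i (Finset.mem_univ i)) (mem_range_self z)

/-- **Homeomorphisms whose bad set is the union of a set with image of area zero and of a set which
is mapped into a compact subset of a cell.** -/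
theorem cell_main {M N : Type} [TopologicalSpace M] [CompactSpace M] [T2Space M]
    [ChartedSpace (E 4) M] [IsManifold (𝓡 4) ∞ M] [TopologicalSpace N] [CompactSpace N]
    [T2Space N] [ChartedSpace (E 4) N] [IsManifold (𝓡 4) ∞ N] {a d : ℕ} {b : E 4 → N}
    {l : Fin a → E (1 + 3) → N} {K : Set N} {h : Fin d → E (2 + 2) → N} {c : E 4 → N}
    (H : Handles2 N a d b l K h c) (f : M ≃ₜ N) {e : E 4 → N} (he : IsCell 4 e)
    (hf0 : GoodOff 4 f e) :
    ∃ G : M ≃ₜ N, ∀ x, G x ∉ range c → LD 4 G x := by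
  obtain ⟨f0, e0, p1, p2, p3, p4⟩ := zero_step' (by norm_num) f b H.b_inj H.b_ld he hf0
  obtain ⟨f1, e1, q1, q2, q3⟩ := pos_step (m := 1) (k := 3) (h := l) (by norm_num) f0 H.l_inj
    H.l_ld p1 p2 p3 p4
  -- the 1-handles
  have step : ∀ j : ℕ, j ≤ a → ∃ (f2 : M ≃ₜ N) (e2 : E (1 + 3) → N), GoodOff (1 + 3) f2 e2 ∧
      Pos e2 l (b '' closedBall 0 1) ∧
      ∀ x, f2 x ∈ b '' closedBall 0 1 ∪ (⋃ (i : Fin a) (_ : (i : ℕ) < j),
        l i '' {z | vp 1 3 z = 0 ∧ ‖up 1 3 z‖ ≤ 1}) → LD 4 f2 x := by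
    intro j
    induction j with
    | zero =>
      intro _
      refine ⟨f1, e1, q1, q2, fun x hx => ?_⟩
      rcases hx with hx | hx
      · exact q3 x hx
      · simp at hx
    | succ j ih =>
      intro hj
      obtain ⟨f2, e2, hg2, hP2, hl2⟩ := ih (by omega)
      set Y : Set N := b '' closedBall 0 1 ∪ (⋃ (i : Fin a) (_ : (i : ℕ) < j),
        l i '' {z | vp 1 3 z = 0 ∧ ‖up 1 3 z‖ ≤ 1}) with hY
      have hYl : ∀ z, l ⟨j, by omega⟩ z ∈ Y ↔ 1 ≤ ‖up 1 3 z‖ := by
        intro z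
        rw [← H.l_att ⟨j, by omega⟩ z]
        constructor
        · rintro (hz | hz)
          · exact hz
          · obtain ⟨i, hi, w, -, hw⟩ := mem_iUnion₂.1 hz
            refine absurd hw.symm (H.l_dis _ _ z w ?_)
            intro hcon
            rw [← hcon] at hi
            exact absurd hi (by simp)
        · exact fun hz => Or.inl hz
      obtain ⟨κ, k1, k2, k3, k4, k5⟩ := shift_one (m := 1) (k := 3) (by norm_num) f2 H.l_inj
        H.l_ld H.l_att H.l_dis hP2 hg2 ⟨j, by omega⟩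
      obtain ⟨f3, hb3, hl3⟩ := OneH.arc_mod (k := 3) (f2.trans (Two.toH k1)) (l ⟨j, by omega⟩) Y
        (H.l_inj _) (H.l_ld _) hYl (fun x hx => by
          have hx1 : κ (f2 x) ∈ Y := hx
          have hx2 : f2 x ∈ Y := by
            by_cases hc : f2 x ∈ range (l ⟨j, by omega⟩)
            · obtain ⟨z, hz⟩ := hc
              obtain ⟨w, hw, hw'⟩ := k3 z
              rw [← hz, hw, hYl, hw', ← hYl, hz] at hx1
              exact hx1
            · rwa [k2 _ hc] at hx1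
          exact LD.comp_fun (g := κ) (f := f2) (k1.2 _) (hl2 x hx2)) k4
      refine ⟨f3, fun z => κ (e2 z), (hg2.comp' k1).mono hb3, k5, fun x hx => hl3 x ?_⟩
      rcases hx with hx | hx
      · exact Or.inl (Or.inl hx)
      · obtain ⟨i, hi, w, hw, hwx⟩ := mem_iUnion₂.1 hx
        rcases Nat.lt_succ_iff_lt_or_eq.1 hi with h1 | h1
        · exact Or.inl (Or.inr (mem_iUnion₂.2 ⟨i, h1, w, hw, hwx⟩))
        · refine Or.inr ⟨w, hw, ?_⟩
          have : i = ⟨j, by omega⟩ := Fin.ext h1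
          rw [← this]
          exact hwx
  obtain ⟨f2, e2, hg2, hP2, hl2⟩ := step a le_rfl
  -- the compression
  have hEc : IsClosed (e2 '' closedBall 0 2) :=
    ((isCompact_closedBall _ _).image hP2.cell.cont).isClosed
  have hO : IsOpen {y | LD 4 f2 (f2.symm y)} :=
    (Fin'.isOpen_ld (n := 4) f2).preimage f2.symm.continuous
  obtain ⟨κ, hκ, hKκ⟩ := H.K_cmp ({y | LD 4 f2 (f2.symm y)} ∩ (e2 '' closedBall 0 2)ᶜ)
    (hO.inter hEc.isOpen_compl) (by
      intro y hy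
      constructor
      · show LD 4 f2 (f2.symm y)
        refine hl2 _ ?_
        rw [f2.apply_symm_apply]
        rcases hy with hy | hy
        · exact Or.inl hy
        · obtain ⟨i, hi⟩ := mem_iUnion.1 hy
          exact Or.inr (mem_iUnion₂.2 ⟨i, i.2, hi⟩)
      · rintro ⟨z, hz, rfl⟩
        rw [mem_closedBall_zero_iff] at hz
        rcases hy with hy | hy
        · exact hP2.offK z hz hy
        · obtain ⟨i, w, ⟨hw1, hw2⟩, hw⟩ := mem_iUnion.1 hy
          exact hP2.offh i z hz ⟨w, ⟨hw1, by linarith⟩, hw⟩)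
  obtain ⟨e3, r1, r2, r3⟩ := recell (n := 4) hP2.cell hκ K (by
    intro z hz hcon
    obtain ⟨y, ⟨-, hy⟩, hyz⟩ := hKκ hcon
    have h1 : y = e2 z := hκ.1.1 hyz
    exact hy ⟨z, mem_closedBall_zero_iff.2 hz, h1.symm⟩)
  have hg3 : GoodOff 4 (f2.trans (Two.toH hκ)) e3 := GoodOff.comp (n := 4) hg2 hκ r3
  have hl3 : ∀ x, (f2.trans (Two.toH hκ)) x ∈ K → LD 4 (f2.trans (Two.toH hκ)) x := by
    intro x hx
    obtain ⟨y, ⟨hy, -⟩, hyx⟩ := hKκ hx
    have h1 : y = f2 x := hκ.1.1 hyx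
    have h2 : LD 4 f2 (f2.symm y) := hy
    rw [h1, f2.symm_apply_apply] at h2
    exact LD.comp_fun (g := κ) (f := f2) (hκ.2 _) h2
  -- the 2-handles
  obtain ⟨f4, e4, s1, s2, s3⟩ := pos_step (m := 2) (k := 2) (h := h) le_rfl
    (f2.trans (Two.toH hκ)) H.h_inj H.h_ld r1 hg3 r2 hl3
  have step2 : ∀ s : Finset (Fin d), ∃ (f5 : M ≃ₜ N) (e5 : E (2 + 2) → N),
      GoodOff (2 + 2) f5 e5 ∧ Pos e5 h K ∧ (∀ x, f5 x ∈ K → LD (2 + 2) f5 x) ∧
      ∀ i ∈ s, PrM 2 2 f5 (h i) := by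
    intro s
    induction s using Finset.induction_on with
    | empty => exact ⟨f4, e4, s1, s2, s3, fun i hi => absurd hi (Finset.notMem_empty i)⟩
    | insert i s his ih =>
      obtain ⟨f5, e5, g1, g2, g3, g4⟩ := ih
      obtain ⟨κ', k1, k2, k3, k4, k5⟩ := shift_one (m := 2) (k := 2) le_rfl f5 H.h_inj
        H.h_ld H.h_att H.h_dis g2 g1 i
      refine ⟨f5.trans (Two.toH k1), fun z => κ' (e5 z), g1.comp' k1, k5, fun x hx => ?_,
        fun j hj => ?_⟩
      · have hx1 : κ' (f5 x) ∈ K := hx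
        have hx2 : f5 x ∈ K := by
          by_cases hc : f5 x ∈ range (h i)
          · obtain ⟨z, hz⟩ := hc
            obtain ⟨w, hw, hw'⟩ := k3 z
            rw [← hz, hw, H.h_att, hw', ← H.h_att, hz] at hx1
            exact hx1
          · rwa [k2 _ hc] at hx1
        exact LD.comp_fun (g := κ') (f := f5) (k1.2 _) (g3 x hx2)
      · by_cases hji : j = i
        · rw [hji]
          exact k4
        · have hjs : j ∈ s := Finset.mem_of_mem_insert_of_ne hj hji
          exact TwoH.PrM.other (H.h_ld j) (fun z w => H.h_dis i j z w (Ne.symm hji)) k2 k3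
            (g4 j hjs)
  obtain ⟨f5, e5, g1, g2, g3, g4⟩ := step2 Finset.univ
  obtain ⟨f6, -, hl6⟩ := TwoH.hnd_mod (k := 2) f5 h K H.h_inj H.h_ld H.h_att H.h_dis g3
    (fun i => g4 i (Finset.mem_univ i))
  -- the second compression
  have hO6 : IsOpen {y | LD 4 f6 (f6.symm y)} :=
    (Fin'.isOpen_ld (n := 4) f6).preimage f6.symm.continuous
  obtain ⟨κ₂, hκ₂, hcκ⟩ := H.c_cmp _ hO6 (fun y hy => by
    show LD 4 f6 (f6.symm y)
    exact hl6 _ (by rw [f6.apply_symm_apply]; exact hy))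
  refine ⟨f6.trans (Two.toH hκ₂), fun x hx => ?_⟩
  obtain ⟨y, hy, hyx⟩ := hcκ hx
  have h1 : y = f6 x := hκ₂.1.1 hyx
  have h2 : LD 4 f6 (f6.symm y) := hy
  rw [h1, f6.symm_apply_apply] at h2
  exact LD.comp_fun (g := κ₂) (f := f6) (hκ₂.2 _) h2

end Pool.Agent.H829.AZ
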