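import Pool.Agent.H829.AZ.Fin

/-!
# Engulfing of closed sets of area zero
-/

set_option autoImplicit false

open Set Filter Topology Metric Function MeasureTheory
open scoped Manifold ContDiff

noncomputable section

namespace Pool.Agent.H829.AZ

open Pool.Agent.Y522 Pool.Agent.N550.KH Pool.Agent.N550.TS

theorem isDf_id {n : ℕ} {N : Type} [TopologicalSpace N] [ChartedSpace (E n) N]
    [IsManifold (𝓡 n) ∞ N] : IsDf n (fun x : N => x) :=
  ⟨bijective_id, fun x => by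
    have h := (Diffeomorph.refl (𝓡 n) N ∞).isLocalDiffeomorph x
    exact h⟩

theorem IsDf.comp {n : ℕ} {M N P : Type} [TopologicalSpace M] [ChartedSpace (E n) M]
    [TopologicalSpace N] [ChartedSpace (E n) N] [TopologicalSpace P] [ChartedSpace (E n) P]
    {g : N → P} {f : M → N} (hg : IsDf n g) (hf : IsDf n f) : IsDf n (fun x => g (f x)) :=
  ⟨hg.1.comp hf.1, fun x => LD.comp_fun (hg.2 (f x)) (hf.2 x)⟩

theorem isClosed_image {n : ℕ} {N : Type} [TopologicalSpace N] [ChartedSpace (E n) N]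
    {κ : N → N} (hκ : IsDf n κ) {L : Set N} (hL : IsClosed L) : IsClosed (κ '' L) :=
  (Two.toH hκ).isClosedMap L hL

/-- **Engulfing.** A closed set of area zero can be moved into the cell by a diffeomorphism. -/
theorem engulf {N : Type} [TopologicalSpace N] [CompactSpace N]
    [T2Space N] [ChartedSpace (E 4) N] [IsManifold (𝓡 4) ∞ N] {a d : ℕ} {b : E 4 → N}
    {l : Fin a → E (1 + 3) → N} {K : Set N} {h : Fin d → E (2 + 2) → N} {c : E 4 → N}
    (H : Handles2 N a d b l K h c) (L : Set N) (hLc : IsClosed L) (hL : Null2 4 L) :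
    ∃ κ : N → N, IsDf 4 κ ∧ κ '' L ⊆ range c := by
  -- the 0-handle
  obtain ⟨κ₀, hκ₀, hb₀⟩ : ∃ κ : N → N, IsDf 4 κ ∧ ∀ z, ‖z‖ ≤ 1 → b z ∉ κ '' L := by
    obtain ⟨z, hz, hzA⟩ := exists_notMem (n := 4) (by norm_num) (hL b H.b_inj H.b_ld)
    have hopen : IsOpen (b ⁻¹' L)ᶜ := (hLc.preimage (Two.cont_of_ld H.b_ld)).isOpen_compl
    obtain ⟨ε, hε, hεb⟩ := Metric.isOpen_iff.1 hopen z hzA
    obtain ⟨κ, hκ, hκs, hκb⟩ := Shift.main.2.2 4 z ε 1 hε
    obtain ⟨K', hK', hKb, -⟩ := Supp.main 4 N b H.b_inj H.b_ld κ hκ hκs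
    refine ⟨K', hK', fun w hw => ?_⟩
    rintro ⟨y, hy, hyw⟩
    obtain ⟨v, hv, rfl⟩ := hκb (mem_closedBall_zero_iff.2 hw)
    rw [← hKb] at hyw
    have h1 : y = b v := hK'.1.1 hyw
    rw [h1] at hy
    exact hεb hv hy
  -- the 1-handles
  have step : ∀ j : ℕ, j ≤ a → ∃ κ : N → N, IsDf 4 κ ∧
      Disjoint (κ '' L) (b '' closedBall 0 1 ∪ (⋃ (i : Fin a) (_ : (i : ℕ) < j),
        l i '' {z | vp 1 3 z = 0 ∧ ‖up 1 3 z‖ ≤ 1})) := by
    intro j
    induction j with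
    | zero =>
      intro _
      refine ⟨κ₀, hκ₀, ?_⟩
      rw [disjoint_right]
      rintro x (⟨z, hz, rfl⟩ | hx)
      · exact hb₀ z (by simpa using hz)
      · simp at hx
    | succ j ih =>
      intro hj
      obtain ⟨κ, hκ, hdis⟩ := ih (by omega)
      set Y : Set N := b '' closedBall 0 1 ∪ (⋃ (i : Fin a) (_ : (i : ℕ) < j),
        l i '' {z | vp 1 3 z = 0 ∧ ‖up 1 3 z‖ ≤ 1}) with hY
      have hYl : ∀ z, l ⟨j, by omega⟩ z ∈ Y ↔ 1 ≤ ‖up 1 3 z‖ := by
        intro z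
        rw [← H.l_att ⟨j, by omega⟩ z]
        constructor
        · rintro (hz | hz)
          · exact hz
          · obtain ⟨i, hi, w, -, hw⟩ := mem_iUnion₂.1 hz
            refine absurd hw.symm (H.l_dis _ _ z w ?_)
            intro hcon
            rw [← hcon] at hi
            exact absurd hi (by simp)
        · exact fun hz => Or.inl hz
      obtain ⟨κ₁, k1, k2, k3, k4⟩ := push (m := 1) (k := 3) Shift.main.2.1 Supp.main (by norm_num)
        (H.l_inj ⟨j, by omega⟩) (H.l_ld ⟨j, by omega⟩) (isClosed_image hκ hLc) (hL.image hκ)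
      refine ⟨fun x => κ₁ (κ x), IsDf.comp k1 hκ, ?_⟩
      have himg : (fun x => κ₁ (κ x)) '' L = κ₁ '' (κ '' L) := (image_image _ _ _).symm
      rw [himg, disjoint_left]
      intro x hx hxY
      have h5 : x ∉ Y := by
        intro hxY
        obtain ⟨y, hy, rfl⟩ := hx
        refine disjoint_left.1 hdis hy ?_
        by_cases hc : y ∈ range (l ⟨j, by omega⟩)
        · obtain ⟨z, rfl⟩ := hc
          obtain ⟨w, hw, hw'⟩ := k3 z
          rw [hw, hYl, hw', ← hYl] at hxY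
          exact hxY
        · rwa [k2 _ hc] at hxY
      rcases hxY with hx' | hx'
      · exact h5 (Or.inl hx')
      · obtain ⟨i, hi, w, ⟨hw0, hw1⟩, hwx⟩ := mem_iUnion₂.1 hx'
        rcases Nat.lt_succ_iff_lt_or_eq.1 hi with h1 | h1
        · exact h5 (Or.inr (mem_iUnion₂.2 ⟨i, h1, w, ⟨hw0, hw1⟩, hwx⟩))
        · have h6 : i = ⟨j, by omega⟩ := Fin.ext h1
          rw [h6] at hwx
          refine k4 w hw0 (by linarith) ?_
          rw [hwx]
          exact hx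
  obtain ⟨κ₁, hκ₁, hdis₁⟩ := step a le_rfl
  -- the compression of `K`
  obtain ⟨κ₂, hκ₂, hK₂⟩ := H.K_cmp (κ₁ '' L)ᶜ (isClosed_image hκ₁ hLc).isOpen_compl (by
    intro x hx hxL
    refine disjoint_left.1 hdis₁ hxL ?_
    rcases hx with hx | hx
    · exact Or.inl hx
    · obtain ⟨i, hi⟩ := mem_iUnion.1 hx
      exact Or.inr (mem_iUnion₂.2 ⟨i, i.2, hi⟩))
  have hdis₂ : Disjoint ((fun x => κ₂ (κ₁ x)) '' L) K := by
    rw [disjoint_right]
    intro x hxK
    obtain ⟨y, hy, rfl⟩ := hK₂ hxK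
    rintro ⟨w, hw, hwy⟩
    exact hy ⟨w, hw, hκ₂.1.1 hwy⟩
  -- the 2-handles
  have step2 : ∀ s : Finset (Fin d), ∃ κ : N → N, IsDf 4 κ ∧ Disjoint (κ '' L) K ∧
      ∀ i ∈ s, ∀ z, vp 2 2 z = 0 → ‖up 2 2 z‖ ≤ 2 → h i z ∉ κ '' L := by
    intro s
    induction s using Finset.induction_on with
    | empty =>
      exact ⟨fun x => κ₂ (κ₁ x), IsDf.comp hκ₂ hκ₁, hdis₂,
        fun i hi => absurd hi (Finset.notMem_empty i)⟩
    | insert i s his ih =>
      obtain ⟨κ, hκ, g1, g2⟩ := ih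
      obtain ⟨κ', k1, k2, k3, k4⟩ := push (m := 2) (k := 2) Shift.main.2.1 Supp.main (by norm_num)
        (H.h_inj i) (H.h_ld i) (isClosed_image hκ hLc) (hL.image hκ)
      have himg : (fun x => κ' (κ x)) '' L = κ' '' (κ '' L) := (image_image _ _ _).symm
      refine ⟨fun x => κ' (κ x), IsDf.comp k1 hκ, ?_, ?_⟩
      · rw [himg, disjoint_left]
        rintro _ ⟨y, hy, rfl⟩ hxK
        refine disjoint_left.1 g1 hy ?_
        by_cases hc : y ∈ range (h i)
        · obtain ⟨z, rfl⟩ := hc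
          obtain ⟨w, hw, hw'⟩ := k3 z
          rw [hw, H.h_att, hw', ← H.h_att] at hxK
          exact hxK
        · rwa [k2 _ hc] at hxK
      · intro j hj z hz hz'
        rw [himg]
        by_cases hji : j = i
        · rw [hji]
          exact k4 z hz hz'
        · have hjs : j ∈ s := Finset.mem_of_mem_insert_of_ne hj hji
          rintro ⟨y, hy, hyz⟩
          have h1 : h j z ∉ range (h i) := by
            rintro ⟨w, hw⟩
            exact H.h_dis j i z w hji hw.symm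
          have h2 : y = h j z := k1.1.1 (hyz.trans (k2 _ h1).symm)
          rw [h2] at hy
          exact g2 j hjs z hz hz' hy
  obtain ⟨κ₃, hκ₃, hdis₃, hc₃⟩ := step2 Finset.univ
  -- the compression of the complement of the cell
  obtain ⟨κ₄, hκ₄, hK₄⟩ := H.c_cmp (κ₃ '' L)ᶜ (isClosed_image hκ₃ hLc).isOpen_compl (by
    intro x hx hxL
    rcases hx with hx | hx
    · exact disjoint_left.1 hdis₃ hxL hx
    · obtain ⟨i, z, ⟨hz1, hz2⟩, hz⟩ := mem_iUnion.1 hx
      refine hc₃ i (Finset.mem_univ i) z hz1 (by linarith) ?_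
      rw [hz]
      exact hxL)
  refine ⟨fun x => κ₄ (κ₃ x), IsDf.comp hκ₄ hκ₃, ?_⟩
  rintro _ ⟨y, hy, rfl⟩
  by_contra hcon
  obtain ⟨w, hw, hwy⟩ := hK₄ hcon
  exact hw ⟨y, hy, (hκ₄.1.1 hwy).symm⟩

/-- a compact subset of an open cell lies in the unit ball after a diffeomorphism -/
theorem shrink {N : Type} [TopologicalSpace N] [T2Space N] [ChartedSpace (E 4) N]
    {c : E 4 → N} (hi : Injective c) (hl : ∀ z, LD 4 c z) {L : Set N} (hL : IsCompact L)
    (hLc : L ⊆ range c) : ∃ κ : N → N, IsDf 4 κ ∧ κ '' L ⊆ c '' ball 0 1 := by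
  have hc : IsCompact (c ⁻¹' L) := by
    have hemb : IsOpenEmbedding c := IsOpenEmbedding.of_continuous_injective_isOpenMap
      (Two.cont_of_ld hl) hi (fun s hs => isOpen_image_of_LD (n := 4) hs fun z _ => hl z)
    rw [hemb.isInducing.isCompact_iff, image_preimage_eq_of_subset hLc]
    exact hL
  obtain ⟨R, hR⟩ := hc.isBounded.exists_norm_le
  obtain ⟨κ, hκ, hκs, hκb⟩ := Shift.main.2.2 4 0 1 R one_pos
  -- the inverse of `κ`
  let e := Equiv.ofBijective κ hκ.1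
  have he : ∀ x, e.symm (κ x) = x := fun x => e.symm_apply_apply x
  have he' : ∀ x, κ (e.symm x) = x := fun x => e.apply_symm_apply x
  have hd : IsDf 4 (fun z => e.symm z) :=
    ⟨e.symm.bijective, fun y => LD.inverse_bij hκ.1 hκ.2 he y⟩
  obtain ⟨R', hR'⟩ := hκs
  have hs : ∀ z, R' ≤ ‖z‖ → e.symm z = z := by
    intro z hz
    have h1 := he z
    rwa [hR' z hz] at h1
  obtain ⟨K, hK, hKc, -⟩ := Supp.main 4 N c hi hl (fun z => e.symm z) hd ⟨R', hs⟩
  refine ⟨K, hK, ?_⟩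
  rintro _ ⟨y, hy, rfl⟩
  obtain ⟨z, rfl⟩ := hLc hy
  rw [hKc]
  obtain ⟨w, hw, hwz⟩ := hκb (mem_closedBall_zero_iff.2 (hR z hy))
  refine ⟨e.symm z, ?_, rfl⟩
  rw [← hwz, he]
  exact hw

/-- Engulfing, in a coordinate ball. -/
theorem engulf_ball {N : Type} [TopologicalSpace N] [CompactSpace N]
    [T2Space N] [ChartedSpace (E 4) N] [IsManifold (𝓡 4) ∞ N] {a d : ℕ} {b : E 4 → N}
    {l : Fin a → E (1 + 3) → N} {K : Set N} {h : Fin d → E (2 + 2) → N} {c : E 4 → N}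
    (H : Handles2 N a d b l K h c) (L : Set N) (hLc : IsClosed L) (hL : Null2 4 L) :
    ∃ κ : N → N, IsDf 4 κ ∧ κ '' L ⊆ c '' ball 0 1 := by
  obtain ⟨κ, hκ, hκL⟩ := engulf H L hLc hL
  obtain ⟨κ', hκ', hκ'L⟩ := shrink H.c_inj H.c_ld (isClosed_image hκ hLc).isCompact hκL
  refine ⟨fun x => κ' (κ x), IsDf.comp hκ' hκ, ?_⟩
  rw [← image_image κ' κ]
  exact hκ'L

/-- Smooth homeomorphisms off a set with image of area zero, in a coordinate ball. -/
theorem smooth_ball {M N : Type} [TopologicalSpace M] [CompactSpace M] [T2Space M]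
    [ChartedSpace (E 4) M] [IsManifold (𝓡 4) ∞ M] [TopologicalSpace N] [CompactSpace N]
    [T2Space N] [ChartedSpace (E 4) N] [IsManifold (𝓡 4) ∞ N] {a d : ℕ} {b : E 4 → N}
    {l : Fin a → E (1 + 3) → N} {K : Set N} {h : Fin d → E (2 + 2) → N} {c : E 4 → N}
    (H : Handles2 N a d b l K h c) (f : M ≃ₜ N) (hf0 : Null2 4 (f '' Bad 4 f)) :
    ∃ G : M ≃ₜ N, ∀ x, G x ∉ c '' ball 0 1 → LD 4 G x := by
  obtain ⟨G, hG⟩ := smooth_off_area_zero H f hf0
  have hcl : IsClosed (G '' {x | ¬ LD 4 G x}) := by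
    apply G.isClosedMap
    exact (Fin'.isOpen_ld (n := 4) G).isClosed_compl
  obtain ⟨κ, hκ, hκL⟩ := shrink H.c_inj H.c_ld hcl.isCompact (by
    rintro _ ⟨x, hx, rfl⟩
    by_contra hcon
    exact hx (hG x hcon))
  obtain ⟨κ', hκ', hκl, hκs⟩ := Fin'.exists_homeo hκ
  refine ⟨G.trans κ', fun x hx => ?_⟩
  have h1 : (G.trans κ') x = κ (G x) := hκ' (G x)
  by_contra hcon
  refine hx ?_
  rw [h1]
  refine hκL ⟨G x, ⟨x, ?_, rfl⟩, rfl⟩
  intro h2
  exact hcon ((hκl (G x)).comp_fun h2)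

end Pool.Agent.H829.AZ
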