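import Pool.Agent.H829.AZ.Cell3

/-!
# Engulfing of closed sets which have area zero off a cell
-/

set_option autoImplicit false
set_option linter.unusedSectionVars false

open Set Filter Topology Metric Function MeasureTheory
open scoped Manifold ContDiff

noncomputable section

namespace Pool.Agent.H829.AZ

open Pool.Agent.Y522 Pool.Agent.N550.KH Pool.Agent.N550.TS

/-- `L` has area zero off the unit ball of the cell `e` -/
def NullOff (n : ℕ) {N : Type} [TopologicalSpace N] [ChartedSpace (E n) N] (L : Set N)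
    (e : E n → N) : Prop :=
  Null2 n (L \ e '' closedBall 0 1)

theorem NullOff.comp {n : ℕ} {N : Type} [TopologicalSpace N] [ChartedSpace (E n) N] {L : Set N}
    {e e' : E n → N} (h : NullOff n L e) {κ : N → N} (hκ : IsDf n κ)
    (hsub : κ '' (e '' closedBall 0 1) ⊆ e' '' closedBall 0 1) : NullOff n (κ '' L) e' := by
  refine (Null2.image h hκ).mono ?_
  rintro _ ⟨⟨x, hx, rfl⟩, hx'⟩
  exact ⟨x, ⟨hx, fun hcon => hx' (hsub ⟨x, hcon, rfl⟩)⟩, rfl⟩

/-- one handle: a shift along the cocore -/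
theorem push2 {m k : ℕ} (hk : 2 ≤ k) {N : Type}
    [TopologicalSpace N] [T2Space N] [ChartedSpace (E (m + k)) N]
    {H : E (m + k) → N} (hi : Injective H) (hl : ∀ z, LD (m + k) H z)
    {e : E (m + k) → N} (he : IsCell (m + k) e) {L : Set N} (hLc : IsClosed L)
    (hN : NullOff (m + k) L e)
    (hT : ∀ z, vp m k z = 0 → ‖up m k z‖ ≤ 2 → H z ∉ e '' closedBall 0 2) :
    ∃ κ : N → N, IsDf (m + k) κ ∧ (∀ x, x ∉ range H → κ x = x) ∧
      (∀ z, ∃ w, κ (H z) = H w ∧ up m k w = up m k z) ∧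
      (∀ z, vp m k z = 0 → ‖up m k z‖ ≤ 2 → H z ∉ κ '' L) ∧
      ∀ z, vp m k z = 0 → ‖up m k z‖ ≤ 2 → H z ∉ κ '' (e '' closedBall 0 2) := by
  have hcH := Two.cont_of_ld hl
  have hE : IsClosed (e '' closedBall 0 2) :=
    ((isCompact_closedBall _ _).image he.cont).isClosed
  -- a neighbourhood of the core disc is disjoint from the ball
  obtain ⟨δ, hδ, hδ1, hδT⟩ : ∃ δ : ℝ, 0 < δ ∧ δ ≤ 1 ∧
      ∀ z, ‖up m k z‖ ≤ 2 → ‖vp m k z‖ ≤ δ → H z ∉ e '' closedBall 0 2 := by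
    have hcpt : IsCompact (H ⁻¹' (e '' closedBall 0 2) ∩
        {z | ‖up m k z‖ ≤ 2 ∧ ‖vp m k z‖ ≤ 1}) := by
      refine IsCompact.inter_left ?_ (hE.preimage hcH)
      refine Metric.isCompact_of_isClosed_isBounded ?_ ?_
      · exact (isClosed_le (up m k).continuous.norm continuous_const).inter
          (isClosed_le (vp m k).continuous.norm continuous_const)
      · refine (Metric.isBounded_closedBall (x := (0 : E (m + k))) (r := 3)).subset ?_
        rintro z ⟨h1, h2⟩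
        rw [mem_closedBall_zero_iff]
        have h3 : ‖z‖ ^ 2 = ‖up m k z‖ ^ 2 + ‖vp m k z‖ ^ 2 := by
          rw [EuclideanSpace.norm_sq_eq, EuclideanSpace.norm_sq_eq, EuclideanSpace.norm_sq_eq,
            Fin.sum_univ_add]
          rfl
        have h4 := norm_nonneg (up m k z)
        have h5 := norm_nonneg (vp m k z)
        nlinarith [norm_nonneg z]
    rcases (H ⁻¹' (e '' closedBall 0 2) ∩
        {z | ‖up m k z‖ ≤ 2 ∧ ‖vp m k z‖ ≤ 1}).eq_empty_or_nonempty with h0 | h0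
    · refine ⟨1, one_pos, le_rfl, fun z h1 h2 h3 => ?_⟩
      have h4 : z ∈ (∅ : Set (E (m + k))) := by
        rw [← h0]
        exact ⟨h3, h1, h2⟩
      exact h4
    · obtain ⟨z₀, hz₀, hmin⟩ := hcpt.exists_isMinOn h0
        (f := fun z => ‖vp m k z‖) (vp m k).continuous.norm.continuousOn
      have hpos : 0 < ‖vp m k z₀‖ := by
        rw [norm_pos_iff]
        intro hcon
        exact hT z₀ hcon hz₀.2.1 hz₀.1
      refine ⟨‖vp m k z₀‖ / 2, by positivity, by linarith [hz₀.2.2], fun z h1 h2 h3 => ?_⟩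
      have h4 := isMinOn_iff.1 hmin z ⟨h3, h1, by linarith [hz₀.2.2]⟩
      linarith
  have hA : IsClosed (H ⁻¹' L ∩ {z | ‖up m k z‖ ≤ 2 ∧ ‖vp m k z‖ ≤ δ}) := by
    refine IsClosed.inter (hLc.preimage hcH) ?_
    exact (isClosed_le (up m k).continuous.norm continuous_const).inter
      (isClosed_le (vp m k).continuous.norm continuous_const)
  obtain ⟨ρ, hρ, hκ⟩ := Shift.main.2.1 m k
  obtain ⟨O, hO, ⟨y₀, hyO⟩, hOr, hOA⟩ := omit_open m k hk hA (by
    refine measure_mono_null ?_ (hN H hi hl)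
    rintro z ⟨h1, h2, h3⟩
    refine ⟨h1, fun h4 => hδT z h2 h3 ?_⟩
    exact image_mono (closedBall_subset_closedBall one_le_two) h4) (lt_min hρ hδ)
  have hO1 : ‖y₀‖ < ρ ∧ ‖y₀‖ < δ := by
    have h1 := hOr hyO
    rw [mem_ball_zero_iff, lt_min_iff] at h1
    exact h1
  obtain ⟨κ, hκ1, hκ2, hκ3, hκ4⟩ := hκ (-y₀) (by rw [norm_neg]; exact hO1.1)
  obtain ⟨K, hK1, hK2, hK3⟩ := Supp.main (m + k) N H hi hl κ hκ1 hκ2
  have key : ∀ z, vp m k z = 0 → ‖up m k z‖ ≤ 2 → ∀ S : Set N, H z ∈ K '' S →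
      H (jn m k (up m k z) y₀) ∈ S := by
    rintro z h1 h2 S ⟨y, hy, hyz⟩
    have h3 : κ (jn m k (up m k z) y₀) = z := by
      refine ext_up_vp _ _ ?_ ?_
      · rw [hκ3, up_jn]
      · rw [hκ4 _ (by rw [up_jn]; exact h2) (by rw [vp_jn]; linarith [hO1.2]), vp_jn, h1,
          add_neg_cancel]
    have h4 : K (H (jn m k (up m k z) y₀)) = H z := by rw [hK2, h3]
    have h5 : y = H (jn m k (up m k z) y₀) := hK1.1.1 (hyz.trans h4.symm)
    rw [← h5]
    exact hy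
  refine ⟨K, hK1, hK3, fun z => ⟨κ z, hK2 z, hκ3 z⟩, fun z h1 h2 h3 => ?_, fun z h1 h2 h3 => ?_⟩
  · refine hOA (jn m k (up m k z) y₀) ⟨key z h1 h2 L h3, ?_, ?_⟩ (by rw [up_jn]; exact h2)
      (by rw [vp_jn]; linarith [hO1.2]) (by rw [vp_jn]; exact hyO)
    · rw [up_jn]
      exact h2
    · rw [vp_jn]
      exact hO1.2.le
  · exact hδT (jn m k (up m k z) y₀) (by rw [up_jn]; exact h2) (by rw [vp_jn]; exact hO1.2.le)
      (key z h1 h2 _ h3)

/-- one handle of a family -/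
theorem push_one {m k a : ℕ} (hk : 2 ≤ k) {N : Type}
    [TopologicalSpace N] [T2Space N] [ChartedSpace (E (m + k)) N]
    {h : Fin a → E (m + k) → N} (hi : ∀ i, Injective (h i))
    (hl : ∀ i z, LD (m + k) (h i) z) {K : Set N} (hK : ∀ i z, h i z ∈ K ↔ 1 ≤ ‖up m k z‖)
    (hd : ∀ i j z w, i ≠ j → h i z ≠ h j w) {e : E (m + k) → N} (P : Pos e h K)
    {L : Set N} (hLc : IsClosed L) (hN : NullOff (m + k) L e) (i : Fin a) :
    ∃ κ : N → N, IsDf (m + k) κ ∧ (∀ x, x ∉ range (h i) → κ x = x) ∧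
      (∀ z, ∃ w, κ (h i z) = h i w ∧ up m k w = up m k z) ∧
      (∀ z, vp m k z = 0 → ‖up m k z‖ ≤ 2 → h i z ∉ κ '' L) ∧ Pos (fun z => κ (e z)) h K := by
  obtain ⟨κ, k1, k2, k3, k4, k5⟩ := push2 hk (hi i) (hl i) P.cell hLc hN (fun z h1 h2 => by
    rintro ⟨w, hw, hwz⟩
    exact P.offh i w (mem_closedBall_zero_iff.1 hw) ⟨z, ⟨h1, h2⟩, hwz.symm⟩)
  refine ⟨κ, k1, k2, k3, k4, P.cell.df k1, fun z hz hcon => ?_, fun j z hz hcon => ?_⟩
  · refine P.offK z hz ?_
    by_cases hc : e z ∈ range (h i)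
    · obtain ⟨v, hv⟩ := hc
      obtain ⟨w, hw, hw'⟩ := k3 v
      rw [← hv, hw, hK, hw', ← hK, hv] at hcon
      exact hcon
    · rwa [k2 _ hc] at hcon
  · obtain ⟨w, ⟨hw1, hw2⟩, hwz⟩ := hcon
    by_cases hji : j = i
    · rw [hji] at hwz
      exact k5 w hw1 hw2 ⟨e z, ⟨z, mem_closedBall_zero_iff.2 hz, rfl⟩, hwz.symm⟩
    · have h1 : h j w ∉ range (h i) := by
        rintro ⟨v, hv⟩
        exact hd j i w v hji hv.symm
      have h2 : e z = h j w := k1.1.1 (hwz.symm.trans (k2 _ h1).symm)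
      exact P.offh j z hz ⟨w, ⟨hw1, hw2⟩, h2.symm⟩

/-- Step 0 -/
theorem zero_push {n : ℕ} (hn : 2 ≤ n) {N : Type} [TopologicalSpace N] [T2Space N]
    [ChartedSpace (E n) N] (b : E n → N) (hb : Injective b)
    (hbl : ∀ z, LD n b z) {e : E n → N} (he : IsCell n e) {L : Set N} (hLc : IsClosed L)
    (hg : NullOff n L e) :
    ∃ (κ : N → N) (e' : E n → N), IsDf n κ ∧ IsCell n e' ∧ NullOff n (κ '' L) e' ∧
      Disjoint (range e') (b '' closedBall 0 1) ∧ Disjoint (κ '' L) (b '' closedBall 0 1) := by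
  -- the cell is moved off the point
  have hint : interior ({b 0} : Set N) = ∅ := by
    by_contra hcon
    obtain ⟨y, hy⟩ := nonempty_iff_ne_empty.2 hcon
    have hUo : IsOpen (b ⁻¹' interior ({b 0} : Set N)) :=
      isOpen_interior.preimage (Two.cont_of_ld hbl)
    have h0 : Measure.hausdorffMeasure 2 (b ⁻¹' interior ({b 0} : Set N)) = 0 := by
      refine measure_mono_null (t := {0}) ?_ ?_
      · intro z hz
        exact hb (mem_singleton_iff.1 (interior_subset (s := {b 0}) hz))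
      · have : NullSingletonClass (Measure.hausdorffMeasure 2 : Measure (E n)) :=
          Measure.nullSingletonClass_hausdorff (E n) (by norm_num)
        exact measure_singleton _
    have h1 := open_null hUo hn h0
    have h2 : y = b 0 := mem_singleton_iff.1 (interior_subset (s := {b 0}) hy)
    rw [h2] at hy
    have h3 : (0 : E n) ∈ (∅ : Set (E n)) := by
      rw [← h1]
      exact hy
    exact h3
  obtain ⟨e₁, κ₁, a1, a2, -, a4, -, a6⟩ := avoid he isClosed_singleton (he.exists_off hint)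
  have hg₁ : NullOff n (κ₁ '' L) e₁ := hg.comp a2 a4
  have hEc : IsClosed (e₁ '' closedBall 0 2) :=
    ((isCompact_closedBall _ _).image a1.cont).isClosed
  have hLc₁ : IsClosed (κ₁ '' L) := isClosed_image a2 hLc
  set U : Set (E n) := b ⁻¹' (e₁ '' closedBall 0 2)ᶜ with hU
  have hUo : IsOpen U := hEc.isOpen_compl.preimage (Two.cont_of_ld hbl)
  have hU0 : (0 : E n) ∈ U := by
    rintro ⟨z, -, hz⟩
    exact disjoint_left.1 a6 (mem_range_self z) hz
  obtain ⟨z, hz, hzA⟩ : ∃ z ∈ U, b z ∉ κ₁ '' L := by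
    by_contra hcon
    push Not at hcon
    have h1 : Measure.hausdorffMeasure 2 U = 0 := by
      refine measure_mono_null ?_ (hg₁ b hb hbl)
      intro z hz
      exact ⟨hcon z hz, fun h => hz (image_mono (closedBall_subset_closedBall one_le_two) h)⟩
    have h2 := open_null hUo hn h1
    rw [h2] at hU0
    exact hU0
  have hVo : IsOpen (U ∩ b ⁻¹' (κ₁ '' L)ᶜ) :=
    hUo.inter (hLc₁.isOpen_compl.preimage (Two.cont_of_ld hbl))
  obtain ⟨ε, hε, hεb⟩ := Metric.isOpen_iff.1 hVo z ⟨hz, hzA⟩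
  obtain ⟨κ, hκ, hκs, hκb⟩ := Shift.main.2.2 n z ε 1 hε
  obtain ⟨K, hK, hKb, -⟩ := Supp.main n N b hb hbl κ hκ hκs
  obtain ⟨e₂, c1, c2, c3⟩ := recell a1 hK (b '' closedBall 0 1) (by
    rintro z hz ⟨w, hw, hwz⟩
    obtain ⟨v, hv, rfl⟩ := hκb hw
    rw [← hKb] at hwz
    have h1 : b v = e₁ z := hK.1.1 hwz
    exact (hεb hv).1 ⟨z, mem_closedBall_zero_iff.2 hz, h1.symm⟩)
  refine ⟨fun x => K (κ₁ x), e₂, IsDf.comp hK a2, c1, ?_, c2, ?_⟩
  · rw [← image_image K κ₁]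
    exact hg₁.comp hK c3
  · rw [← image_image K κ₁, disjoint_right]
    rintro _ ⟨w, hw, rfl⟩ ⟨y, hy, hyw⟩
    obtain ⟨v, hv, rfl⟩ := hκb hw
    rw [← hKb] at hyw
    have h1 : y = b v := hK.1.1 hyw
    rw [h1] at hy
    exact (hεb hv).2 hy

/-- the cell can be moved off the cores -/
theorem pos_push {m k a : ℕ} (hk : 2 ≤ k) {N : Type} [TopologicalSpace N] [T2Space N]
    [ChartedSpace (E (m + k)) N] {h : Fin a → E (m + k) → N} (hi : ∀ i, Injective (h i))
    (hl : ∀ i z, LD (m + k) (h i) z) {K : Set N} {e : E (m + k) → N} (he : IsCell (m + k) e)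
    {L : Set N} (hN : NullOff (m + k) L e) (hd : Disjoint (range e) K) (hL : Disjoint L K) :
    ∃ (κ : N → N) (e' : E (m + k) → N), IsDf (m + k) κ ∧ NullOff (m + k) (κ '' L) e' ∧
      Pos e' h K ∧ Disjoint (κ '' L) K := by
  obtain ⟨e', κ, h1, h2, h3, h4, h5, h6⟩ := avoid_all he (fun i => Core (h i))
    (fun i => core_closed (hl i)) (fun i => core_interior hk (hi i) (hl i)) Finset.univ
  refine ⟨κ, e', h2, hN.comp h2 h4, ⟨h1, fun z _ => ?_, fun i z _ => ?_⟩, ?_⟩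
  · exact disjoint_left.1 hd (h5 (mem_range_self z))
  · exact disjoint_left.1 (h6 i (Finset.mem_univ i)) (mem_range_self z)
  · rw [disjoint_left]
    rintro _ ⟨y, hy, rfl⟩ hyK
    have h7 : κ (κ y) = κ y := h3 _ (disjoint_right.1 hd hyK)
    have h8 : κ y = y := h2.1.1 h7
    rw [h8] at hyK
    exact disjoint_left.1 hL hy hyK

/-- **Engulfing.** A closed set which has area zero off a cell can be moved into the cell of the
handles of high index by a diffeomorphism. -/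
theorem engulf_cell {N : Type} [TopologicalSpace N] [CompactSpace N]
    [T2Space N] [ChartedSpace (E 4) N] [IsManifold (𝓡 4) ∞ N] {a d : ℕ} {b : E 4 → N}
    {l : Fin a → E (1 + 3) → N} {K : Set N} {h : Fin d → E (2 + 2) → N} {c : E 4 → N}
    (H : Handles2 N a d b l K h c) (L : Set N) (hLc : IsClosed L) {e : E 4 → N} (he : IsCell 4 e)
    (hL : NullOff 4 L e) :
    ∃ κ : N → N, IsDf 4 κ ∧ κ '' L ⊆ range c := by
  obtain ⟨κ₀, e₀, p1, p2, p3, p4, p5⟩ := zero_push (by norm_num) b H.b_inj H.b_ld he hLc hL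
  obtain ⟨κ₁, e₁, q1, q2, q3, q4⟩ := pos_push (m := 1) (k := 3) (h := l) (by norm_num) H.l_inj
    H.l_ld p2 p3 p4 p5
  have himg : ∀ (α β : N → N), (fun x => α (β x)) '' L = α '' (β '' L) :=
    fun α β => (image_image _ _ _).symm
  -- the 1-handles
  have step : ∀ j : ℕ, j ≤ a → ∃ (κ : N → N) (e2 : E (1 + 3) → N), IsDf 4 κ ∧
      NullOff (1 + 3) (κ '' L) e2 ∧ Pos e2 l (b '' closedBall 0 1) ∧
      Disjoint (κ '' L) (b '' closedBall 0 1 ∪ (⋃ (i : Fin a) (_ : (i : ℕ) < j),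
        l i '' {z | vp 1 3 z = 0 ∧ ‖up 1 3 z‖ ≤ 1})) := by
    intro j
    induction j with
    | zero =>
      intro _
      refine ⟨fun x => κ₁ (κ₀ x), e₁, IsDf.comp q1 p1, ?_, q3, ?_⟩
      · rw [himg]
        exact q2
      · rw [himg, disjoint_union_right]
        exact ⟨q4, by simp⟩
    | succ j ih =>
      intro hj
      obtain ⟨κ, e2, hκ, hg2, hP2, hdis⟩ := ih (by omega)
      set Y : Set N := b '' closedBall 0 1 ∪ (⋃ (i : Fin a) (_ : (i : ℕ) < j),
        l i '' {z | vp 1 3 z = 0 ∧ ‖up 1 3 z‖ ≤ 1}) with hY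
      have hYl : ∀ z, l ⟨j, by omega⟩ z ∈ Y ↔ 1 ≤ ‖up 1 3 z‖ := by
        intro z
        rw [← H.l_att ⟨j, by omega⟩ z]
        constructor
        · rintro (hz | hz)
          · exact hz
          · obtain ⟨i, hi, w, -, hw⟩ := mem_iUnion₂.1 hz
            refine absurd hw.symm (H.l_dis _ _ z w ?_)
            intro hcon
            rw [← hcon] at hi
            exact absurd hi (by simp)
        · exact fun hz => Or.inl hz
      obtain ⟨κ', k1, k2, k3, k4, k5⟩ := push_one (m := 1) (k := 3) (by norm_num) H.l_inj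
        H.l_ld H.l_att H.l_dis hP2 (isClosed_image hκ hLc) hg2 ⟨j, by omega⟩
      refine ⟨fun x => κ' (κ x), fun z => κ' (e2 z), IsDf.comp k1 hκ, ?_, k5, ?_⟩
      · rw [himg]
        exact hg2.comp k1 (by rw [image_image])
      rw [himg, disjoint_left]
      intro x hx hxY
      have h5 : x ∉ Y := by
        intro hxY
        obtain ⟨y, hy, rfl⟩ := hx
        refine disjoint_left.1 hdis hy ?_
        by_cases hc : y ∈ range (l ⟨j, by omega⟩)
        · obtain ⟨z, rfl⟩ := hc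
          obtain ⟨w, hw, hw'⟩ := k3 z
          rw [hw, hYl, hw', ← hYl] at hxY
          exact hxY
        · rwa [k2 _ hc] at hxY
      rcases hxY with hx' | hx'
      · exact h5 (Or.inl hx')
      · obtain ⟨i, hi, w, ⟨hw0, hw1⟩, hwx⟩ := mem_iUnion₂.1 hx'
        rcases Nat.lt_succ_iff_lt_or_eq.1 hi with h1 | h1
        · exact h5 (Or.inr (mem_iUnion₂.2 ⟨i, h1, w, ⟨hw0, hw1⟩, hwx⟩))
        · have h6 : i = ⟨j, by omega⟩ := Fin.ext h1
          rw [h6] at hwx
          refine k4 w hw0 (by linarith) ?_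
          rw [hwx]
          exact hx
  obtain ⟨κ₂, e2, hκ₂, hg2, hP2, hdis⟩ := step a le_rfl
  -- the compression of `K`
  have hEc : IsClosed (e2 '' closedBall 0 2) :=
    ((isCompact_closedBall _ _).image hP2.cell.cont).isClosed
  obtain ⟨κ₃, hκ₃, hKκ⟩ := H.K_cmp ((κ₂ '' L)ᶜ ∩ (e2 '' closedBall 0 2)ᶜ)
    ((isClosed_image hκ₂ hLc).isOpen_compl.inter hEc.isOpen_compl) (by
      intro y hy
      constructor
      · intro hyL
        refine disjoint_left.1 hdis hyL ?_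
        rcases hy with hy | hy
        · exact Or.inl hy
        · obtain ⟨i, hi⟩ := mem_iUnion.1 hy
          exact Or.inr (mem_iUnion₂.2 ⟨i, i.2, hi⟩)
      · rintro ⟨z, hz, rfl⟩
        rw [mem_closedBall_zero_iff] at hz
        rcases hy with hy | hy
        · exact hP2.offK z hz hy
        · obtain ⟨i, w, ⟨hw1, hw2⟩, hw⟩ := mem_iUnion.1 hy
          exact hP2.offh i z hz ⟨w, ⟨hw1, by linarith⟩, hw⟩)
  obtain ⟨e3, r1, r2, r3⟩ := recell (n := 4) hP2.cell hκ₃ K (by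
    intro z hz hcon
    obtain ⟨y, ⟨-, hy⟩, hyz⟩ := hKκ hcon
    have h1 : y = e2 z := hκ₃.1.1 hyz
    exact hy ⟨z, mem_closedBall_zero_iff.2 hz, h1.symm⟩)
  have hg3 : NullOff 4 (κ₃ '' (κ₂ '' L)) e3 := NullOff.comp (n := 4) hg2 hκ₃ r3
  have hdis3 : Disjoint (κ₃ '' (κ₂ '' L)) K := by
    rw [disjoint_right]
    intro x hxK
    obtain ⟨y, ⟨hy, -⟩, rfl⟩ := hKκ hxK
    rintro ⟨w, hw, hwy⟩
    have h1 : w = y := hκ₃.1.1 hwy
    rw [h1] at hw
    exact hy hw
  -- the 2-handles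
  obtain ⟨κ₄, e4, s1, s2, s3, s4⟩ := pos_push (m := 2) (k := 2) (h := h) le_rfl H.h_inj H.h_ld
    r1 hg3 r2 hdis3
  have step2 : ∀ s : Finset (Fin d), ∃ (κ : N → N) (e5 : E (2 + 2) → N), IsDf 4 κ ∧
      NullOff (2 + 2) (κ '' L) e5 ∧ Pos e5 h K ∧ Disjoint (κ '' L) K ∧
      ∀ i ∈ s, ∀ z, vp 2 2 z = 0 → ‖up 2 2 z‖ ≤ 2 → h i z ∉ κ '' L := by
    intro s
    induction s using Finset.induction_on with
    | empty =>
      refine ⟨fun x => κ₄ (κ₃ (κ₂ x)), e4, IsDf.comp s1 (IsDf.comp hκ₃ hκ₂), ?_, s3, ?_,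
        fun i hi => absurd hi (Finset.notMem_empty i)⟩
      · rw [himg κ₄ (fun x => κ₃ (κ₂ x)), himg κ₃ κ₂]
        exact s2
      · rw [himg κ₄ (fun x => κ₃ (κ₂ x)), himg κ₃ κ₂]
        exact s4
    | insert i s his ih =>
      obtain ⟨κ, e5, hκ, g1, g2, g3, g4⟩ := ih
      obtain ⟨κ', k1, k2, k3, k4, k5⟩ := push_one (m := 2) (k := 2) le_rfl H.h_inj
        H.h_ld H.h_att H.h_dis g2 (isClosed_image hκ hLc) g1 i
      refine ⟨fun x => κ' (κ x), fun z => κ' (e5 z), IsDf.comp k1 hκ, ?_, k5, ?_, ?_⟩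
      · rw [himg]
        exact g1.comp k1 (by rw [image_image])
      · rw [himg, disjoint_left]
        rintro _ ⟨y, hy, rfl⟩ hxK
        refine disjoint_left.1 g3 hy ?_
        by_cases hc : y ∈ range (h i)
        · obtain ⟨z, rfl⟩ := hc
          obtain ⟨w, hw, hw'⟩ := k3 z
          rw [hw, H.h_att, hw', ← H.h_att] at hxK
          exact hxK
        · rwa [k2 _ hc] at hxK
      · intro j hj z hz hz'
        rw [himg]
        by_cases hji : j = i
        · rw [hji]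
          exact k4 z hz hz'
        · have hjs : j ∈ s := Finset.mem_of_mem_insert_of_ne hj hji
          rintro ⟨y, hy, hyz⟩
          have h1 : h j z ∉ range (h i) := by
            rintro ⟨w, hw⟩
            exact H.h_dis j i z w hji hw.symm
          have h2 : y = h j z := k1.1.1 (hyz.trans (k2 _ h1).symm)
          rw [h2] at hy
          exact g4 j hjs z hz hz' hy
  obtain ⟨κ₅, e5, hκ₅, -, -, hdis5, hc5⟩ := step2 Finset.univ
  -- the compression of the complement of the cell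
  obtain ⟨κ₆, hκ₆, hK₆⟩ := H.c_cmp (κ₅ '' L)ᶜ (isClosed_image hκ₅ hLc).isOpen_compl (by
    intro x hx hxL
    rcases hx with hx | hx
    · exact disjoint_left.1 hdis5 hxL hx
    · obtain ⟨i, z, ⟨hz1, hz2⟩, hz⟩ := mem_iUnion.1 hx
      refine hc5 i (Finset.mem_univ i) z hz1 (by linarith) ?_
      rw [hz]
      exact hxL)
  refine ⟨fun x => κ₆ (κ₅ x), IsDf.comp hκ₆ hκ₅, ?_⟩
  rintro _ ⟨y, hy, rfl⟩
  by_contra hcon
  obtain ⟨w, hw, hwy⟩ := hK₆ hcon
  exact hw ⟨y, hy, (hκ₆.1.1 hwy).symm⟩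

/-- Engulfing, in a coordinate ball. -/
theorem engulf_cell_ball {N : Type} [TopologicalSpace N] [CompactSpace N]
    [T2Space N] [ChartedSpace (E 4) N] [IsManifold (𝓡 4) ∞ N] {a d : ℕ} {b : E 4 → N}
    {l : Fin a → E (1 + 3) → N} {K : Set N} {h : Fin d → E (2 + 2) → N} {c : E 4 → N}
    (H : Handles2 N a d b l K h c) (L : Set N) (hLc : IsClosed L) {e : E 4 → N} (he : IsCell 4 e)
    (hL : NullOff 4 L e) :
    ∃ κ : N → N, IsDf 4 κ ∧ κ '' L ⊆ c '' ball 0 1 := by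
  obtain ⟨κ, hκ, hκL⟩ := engulf_cell H L hLc he hL
  obtain ⟨κ', hκ', hκ'L⟩ := shrink H.c_inj H.c_ld (isClosed_image hκ hLc).isCompact hκL
  refine ⟨fun x => κ' (κ x), IsDf.comp hκ' hκ, ?_⟩
  rw [← image_image κ' κ]
  exact hκ'L

/-- The theorem on homeomorphisms, in a coordinate ball. -/
theorem cell_ball {M N : Type} [TopologicalSpace M] [CompactSpace M] [T2Space M]
    [ChartedSpace (E 4) M] [IsManifold (𝓡 4) ∞ M] [TopologicalSpace N] [CompactSpace N]
    [T2Space N] [ChartedSpace (E 4) N] [IsManifold (𝓡 4) ∞ N] {a d : ℕ} {b : E 4 → N}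
    {l : Fin a → E (1 + 3) → N} {K : Set N} {h : Fin d → E (2 + 2) → N} {c : E 4 → N}
    (H : Handles2 N a d b l K h c) (f : M ≃ₜ N) {e : E 4 → N} (he : IsCell 4 e)
    (hf0 : GoodOff 4 f e) :
    ∃ G : M ≃ₜ N, ∀ x, G x ∉ c '' ball 0 1 → LD 4 G x := by
  obtain ⟨G, hG⟩ := cell_main H f he hf0
  have hcl : IsClosed (G '' {x | ¬ LD 4 G x}) := by
    apply G.isClosedMap
    exact (Fin'.isOpen_ld (n := 4) G).isClosed_compl
  obtain ⟨κ, hκ, hκL⟩ := shrink H.c_inj H.c_ld hcl.isCompact (by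
    rintro _ ⟨x, hx, rfl⟩
    by_contra hcon
    exact hx (hG x hcon))
  obtain ⟨κ', hκ', hκl, hκs⟩ := Fin'.exists_homeo hκ
  refine ⟨G.trans κ', fun x hx => ?_⟩
  have h1 : (G.trans κ') x = κ (G x) := hκ' (G x)
  by_contra hcon
  refine hx ?_
  rw [h1]
  refine hκL ⟨G x, ⟨x, ?_, rfl⟩, rfl⟩
  intro h2
  exact hcon ((hκl (G x)).comp_fun h2)

end Pool.Agent.H829.AZ
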