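import Pool.Agent.H829.AZ.Base
import Pool.Graph.R_pool_sql_team_seeded_63374d34.N550.TS.Two2

/-!
# Homeomorphisms which are smooth off a set with image of area zero: the 2-handles

Adaptation of `Pool.Agent.N550.KH.Two` and `Pool.Agent.N550.TS.Two2`.
-/

set_option autoImplicit false

open Set Filter Topology Metric Function MeasureTheory
open scoped Manifold ContDiff

noncomputable section

namespace Pool.Agent.H829.AZ

open Pool.Agent.Y522 Pool.Agent.N550.KH Pool.Agent.N550.TS

/-- Step 2: the 2-handles, attached to `K`. -/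
def S_TWOa : Prop :=
  ∀ (k a : ℕ) (M N : Type) [TopologicalSpace M] [CompactSpace M] [T2Space M]
    [ChartedSpace (E (2 + k)) M] [IsManifold (𝓡 (2 + k)) ∞ M] [TopologicalSpace N]
    [CompactSpace N] [T2Space N] [ChartedSpace (E (2 + k)) N] [IsManifold (𝓡 (2 + k)) ∞ N]
    (f : M ≃ₜ N) (h : Fin a → E (2 + k) → N) (K : Set N), 2 ≤ k →
    Null2 (2 + k) (f '' Bad (2 + k) f) → (∀ i, Injective (h i)) →
    (∀ i z, LD (2 + k) (h i) z) → (∀ i z, h i z ∈ K ↔ 1 ≤ ‖up 2 k z‖) →
    (∀ i j z w, i ≠ j → h i z ≠ h j w) → (∀ x, f x ∈ K → LD (2 + k) f x) → IsClosed K →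
    ∃ f' : M ≃ₜ N, Null2 (2 + k) (f' '' Bad (2 + k) f') ∧
      ∀ x, f' x ∈ K ∪ ⋃ i, h i '' {z | vp 2 k z = 0 ∧ ‖up 2 k z‖ ≤ 1} → LD (2 + k) f' x

namespace TwoH

open Pool.Agent.N550.KH.Two (ld_inv inv_app app_inv cont_of_ld open_range Fp Sm.comp_ld toH
  toH_apply Sm.congr')

/-- the other handles stay in good position -/
theorem PrM.other {k : ℕ} {M N : Type} [TopologicalSpace M] [ChartedSpace (E (2 + k)) M]
    [TopologicalSpace N] [ChartedSpace (E (2 + k)) N] {f : M ≃ₜ N} {H H' : E (2 + k) → N}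
    (hl' : ∀ z, LD (2 + k) H' z) (hd : ∀ z w, H z ≠ H' w) {κ : N → N}
    (h1 : ∀ x, x ∉ range H → κ x = x) (h2 : ∀ z, ∃ w, κ (H z) = H w ∧ up 2 k w = up 2 k z)
    (h : PrM 2 k f H') : PrM 2 k (fun x => κ (f x)) H' := by
  intro x hx hx1 hx2
  simp only at hx hx1 hx2
  have key : ∀ y, f y ∈ range H' → κ (f y) = f y := by
    intro y hy
    apply h1
    rintro ⟨z, hz⟩
    obtain ⟨w, hw⟩ := hy
    exact hd z w (hz.trans hw.symm)
  have hfx : f x ∈ range H' := by
    by_cases hc : f x ∈ range H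
    · exfalso
      obtain ⟨z, hz⟩ := hc
      obtain ⟨w, hw, -⟩ := h2 z
      rw [← hz, hw] at hx
      obtain ⟨v, hv⟩ := hx
      exact hd w v hv.symm
    · rwa [h1 _ hc] at hx
  have hop : IsOpen (f ⁻¹' range H') := (open_range hl').preimage f.continuous
  rw [key x hfx] at hx1 hx2
  obtain ⟨r1, r2⟩ := h x hfx hx1 hx2
  have hev : (fun y => invFun H' (κ (f y))) =ᶠ[𝓝 x] fun y => invFun H' (f y) := by
    filter_upwards [hop.mem_nhds hfx] with y hy
    rw [key y hy]
  have hev2 : (fun y => vp 2 k (invFun H' (κ (f y)))) =ᶠ[𝓝 x]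
      fun y => vp 2 k (invFun H' (f y)) := by
    filter_upwards [hev] with y hy
    rw [hy]
  refine ⟨Sm.congr' r1 hev, ?_⟩
  rw [hev2.mfderiv_eq]
  exact r2

/-- regular position of all handles -/
theorem all (hVS : S_VS) (hSU : S_SUPP) (hRG : S_REG) {k a : ℕ} (hk : 2 ≤ k) {M N : Type}
    [TopologicalSpace M] [CompactSpace M] [ChartedSpace (E (2 + k)) M]
    [IsManifold (𝓡 (2 + k)) ∞ M] [TopologicalSpace N] [T2Space N] [ChartedSpace (E (2 + k)) N]
    (f : M ≃ₜ N) (h : Fin a → E (2 + k) → N) (K : Set N)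
    (hN : Null2 (2 + k) (f '' Bad (2 + k) f)) (hi : ∀ i, Injective (h i))
    (hl : ∀ i z, LD (2 + k) (h i) z) (hK : ∀ i z, h i z ∈ K ↔ 1 ≤ ‖up 2 k z‖)
    (hd : ∀ i j z w, i ≠ j → h i z ≠ h j w) (hf : ∀ x, f x ∈ K → LD (2 + k) f x)
    (s : Finset (Fin a)) :
    ∃ f' : M ≃ₜ N, Null2 (2 + k) (f' '' Bad (2 + k) f') ∧
      (∀ x, f' x ∈ K → LD (2 + k) f' x) ∧ ∀ i ∈ s, PrM 2 k f' (h i) := by
  induction s using Finset.induction_on with
  | empty => exact ⟨f, hN, hf, fun i hi => absurd hi (Finset.notMem_empty i)⟩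
  | insert i s his ih =>
    obtain ⟨f', g1, g2, g3⟩ := ih
    obtain ⟨κ, k1, k2, k3, k4⟩ := one hVS hSU hRG hk f' (hi i) (hl i) g1
    have hco : ∀ x, (f'.trans (toH k1)) x = κ (f' x) := fun x => rfl
    have hco' : ((f'.trans (toH k1) : M ≃ₜ N) : M → N) = fun x => κ (f' x) := rfl
    refine ⟨f'.trans (toH k1), ?_, ?_, ?_⟩
    · refine Null2.mono (Null2.image g1 k1) ?_
      rintro _ ⟨x, hx, rfl⟩
      refine ⟨f' x, ⟨x, ?_, rfl⟩, rfl⟩
      intro hs
      apply hx
      rw [hco']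
      exact Sm.comp_ld hs (k1.2 _)
    · intro x hx
      rw [hco] at hx
      have hx' : f' x ∈ K := by
        by_cases hc : f' x ∈ range (h i)
        · obtain ⟨z, hz⟩ := hc
          obtain ⟨w, hw, hw'⟩ := k3 z
          rw [← hz, hw, hK, hw', ← hK, hz] at hx
          exact hx
        · rwa [k2 _ hc] at hx
      rw [hco']
      exact LD.comp_fun (k1.2 _) (g2 x hx')
    · intro j hj
      rw [hco']
      by_cases hji : j = i
      · rw [hji]
        exact k4
      · have hjs : j ∈ s := Finset.mem_of_mem_insert_of_ne hj hji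
        exact PrM.other (hl j) (fun z w => hd i j z w (Ne.symm hji)) k2 k3 (g3 j hjs)

/-- **The 2-handles.** -/
theorem main : S_VS → S_SUPP → S_REG → S_HND2 → S_TWOa := by
  intro hVS hSU hRG hHN k a M N _ _ _ _ _ _ _ _ _ _ f₀ h K hk hN₀ hi hl hK hd hf₀ hKc
  classical
  obtain ⟨f, hN, hf, hP⟩ := all hVS hSU hRG hk f₀ h K hN₀ hi hl hK hd hf₀ Finset.univ
  -- the handle coordinates
  obtain ⟨F, hF⟩ : ∃ F : ∀ i : Fin a, OpenPartialHomeomorph M (E (2 + k)),
      ∀ i, F i = Fp f (h i) (hi i) (hl i) := ⟨_, fun _ => rfl⟩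
  have hFa : ∀ i x, F i x = invFun (h i) (f x) := fun i x => by rw [hF]; rfl
  have hFs : ∀ i x, x ∈ (F i).source ↔ f x ∈ range (h i) := fun i x => by rw [hF]; exact Iff.rfl
  have hFt : ∀ i, (F i).target = univ := fun i => by rw [hF]; rfl
  have hFc : ∀ i, ((F i : OpenPartialHomeomorph M (E (2 + k))) : M → E (2 + k)) =
      fun x => invFun (h i) (f x) := fun i => funext fun x => hFa i x
  have hFh : ∀ i x, x ∈ (F i).source → h i (F i x) = f x := by
    intro i x hx
    rw [hFa]
    exact app_inv ((hFs i x).mp hx)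
  have hdis : ∀ i j x, x ∈ (F i).source → x ∈ (F j).source → i = j := by
    intro i j x hx hy
    by_contra hij
    obtain ⟨z, hz⟩ := (hFs i x).mp hx
    obtain ⟨w, hw⟩ := (hFs j x).mp hy
    exact hd i j z w hij (hz.trans hw.symm)
  -- the modification near the cores
  have hnd : ∀ i, ∃ (F' : OpenPartialHomeomorph M (E (2 + k))) (C : Set M),
      F'.source = (F i).source ∧ F'.target = univ ∧ IsCompact C ∧ C ⊆ (F i).source ∧
      (∀ x ∈ C, Sm (2 + k) (F i) x ∧ ‖up 2 k (F i x)‖ < 1) ∧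
      (∀ x ∈ (F i).source, x ∉ C → F' x = F i x) ∧
      (∀ x ∈ (F i).source, Sm (2 + k) (F i) x → Sm (2 + k) F' x) ∧
      ∀ x ∈ (F i).source, vp 2 k (F' x) = 0 → ‖up 2 k (F' x)‖ ≤ 1 → LD (2 + k) F' x := by
    intro i
    refine hHN k M (F i) (hFt i) (fun x hx h1 h2 => ?_) (fun x hx h1 h2 => ?_)
    · have hx' := (hFs i x).mp hx
      rw [hFa] at h1 h2
      have := hP i (Finset.mem_univ i) x hx' h1 h2
      rw [hFc]
      exact this
    · have h3 : f x ∈ K := by
        rw [← hFh i x hx, hK]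
        exact h2
      rw [hFc]
      obtain ⟨z, hz⟩ := (hFs i x).mp hx
      exact LD.comp_fun (g := invFun (h i)) (hz ▸ ld_inv (hi i) (hl i) z) (hf x h3)
  choose F' C s1 s2 c1 c2 c3 c4 c5 c6 using hnd
  -- the map
  obtain ⟨g, hg1, hg2⟩ : ∃ g : M → N, (∀ i x, x ∈ C i → g x = h i (F' i x)) ∧
      ∀ x, (∀ i, x ∉ C i) → g x = f x := by
    refine ⟨fun x => if hx : ∃ i, x ∈ C i then h hx.choose (F' hx.choose x) else f x, ?_, ?_⟩
    · intro i x hx
      have hex : ∃ i, x ∈ C i := ⟨i, hx⟩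
      simp only
      rw [dif_pos hex]
      have h1 : hex.choose = i := hdis _ _ x (c2 _ hex.choose_spec) (c2 _ hx)
      rw [h1]
    · intro x hx
      simp only
      rw [dif_neg (fun ⟨i, hi⟩ => hx i hi)]
  have hgs : ∀ i x, x ∈ (F i).source → g x = h i (F' i x) := by
    intro i x hx
    by_cases hxC : x ∈ C i
    · exact hg1 i x hxC
    · rw [hg2 x (fun j hj => by
        have := hdis i j x hx (c2 j hj)
        rw [← this] at hj
        exact hxC hj), c4 i x hx hxC, hFh i x hx]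
  have hgout : ∀ x, (∀ i, x ∉ (F i).source) → g x = f x := fun x hx =>
    hg2 x fun i hiC => hx i (c2 i hiC)
  have hCcl : IsClosed (⋃ i, C i) := isClosed_iUnion_of_finite fun i => (c1 i).isClosed
  have hgev : ∀ x, (∀ i, x ∉ C i) → g =ᶠ[𝓝 x] f := by
    intro x hx
    have h2 : x ∈ (⋃ i, C i)ᶜ := by
      rw [mem_compl_iff, mem_iUnion]
      rintro ⟨i, hiC⟩
      exact hx i hiC
    filter_upwards [hCcl.isOpen_compl.mem_nhds h2] with y hy
    exact hg2 y fun i hiC => hy (mem_iUnion.mpr ⟨i, hiC⟩)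
  have hgsev : ∀ i x, x ∈ (F i).source → g =ᶠ[𝓝 x] fun y => h i (F' i y) := by
    intro i x hx
    filter_upwards [(F i).open_source.mem_nhds hx] with y hy
    exact hgs i y hy
  have hgr : ∀ i x, g x ∈ range (h i) → x ∈ (F i).source := by
    intro i x hx
    by_cases hex : ∃ j, x ∈ (F j).source
    · obtain ⟨j, hj⟩ := hex
      rw [hgs j x hj] at hx
      obtain ⟨z, hz⟩ := hx
      by_cases hij : i = j
      · rw [hij]
        exact hj
      · exact absurd hz (hd i j _ _ hij)
    · rw [hgout x (fun j hj => hex ⟨j, hj⟩)] at hx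
      exact (hFs i x).mpr hx
  have hF'inj : ∀ i, InjOn (F' i) (F i).source := fun i => by rw [← s1 i]; exact (F' i).injOn
  have hgc : Continuous g := by
    rw [continuous_iff_continuousAt]
    intro x
    by_cases hex : ∃ j, x ∈ (F j).source
    · obtain ⟨j, hj⟩ := hex
      have h1 : ContinuousAt (F' j) x := (F' j).continuousAt (by rw [s1]; exact hj)
      exact ContinuousAt.congr (ContinuousAt.comp (g := h j) (f := F' j)
        (hl j _).continuousAt h1) (hgsev j x hj).symm
    · exact ContinuousAt.congr f.continuous.continuousAt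
        (hgev x (fun i hiC => hex ⟨i, c2 i hiC⟩)).symm
  have hginj : Injective g := by
    intro x y hxy
    by_cases hex : ∃ j, x ∈ (F j).source
    · obtain ⟨j, hj⟩ := hex
      have hy : y ∈ (F j).source := by
        apply hgr
        rw [← hxy, hgs j x hj]
        exact mem_range_self _
      rw [hgs j x hj, hgs j y hy] at hxy
      exact hF'inj j hj hy (hi j hxy)
    · have hey : ∀ j, y ∉ (F j).source := by
        intro j hj
        apply hex
        refine ⟨j, hgr j x ?_⟩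
        rw [hxy, hgs j y hj]
        exact mem_range_self _
      rw [hgout x (fun j hj => hex ⟨j, hj⟩), hgout y hey] at hxy
      exact f.injective hxy
  have hgsurj : Surjective g := by
    intro w
    by_cases hex : ∃ i, w ∈ range (h i)
    · obtain ⟨i, z, rfl⟩ := hex
      have hz : z ∈ (F' i).target := by rw [s2]; trivial
      refine ⟨(F' i).symm z, ?_⟩
      have h1 : (F' i).symm z ∈ (F i).source := by rw [← s1]; exact (F' i).map_target hz
      rw [hgs i _ h1, (F' i).right_inv hz]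
    · refine ⟨f.symm w, ?_⟩
      have h1 : ∀ i, f.symm w ∉ (F i).source := by
        intro i h2
        rw [hFs, f.apply_symm_apply] at h2
        exact hex ⟨i, h2⟩
      rw [hgout _ h1, f.apply_symm_apply]
  let f' : M ≃ₜ N :=
    Continuous.homeoOfEquivCompactToT2 (f := Equiv.ofBijective g ⟨hginj, hgsurj⟩) hgc
  have hf' : (f' : M → N) = g := rfl
  have hlld : ∀ i x, x ∈ (F i).source → LD (2 + k) (F' i) x → LD (2 + k) g x := fun i x hx h1 =>
    LD.congr (LD.comp_fun (g := h i) (f := F' i) (hl i _) h1) (hgsev i x hx)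
  have hlsm : ∀ i x, x ∈ (F i).source → Sm (2 + k) (F' i) x → Sm (2 + k) g x := fun i x hx h1 =>
    Sm.congr' (Sm.comp_ld h1 (hl i _)) (hgsev i x hx)
  refine ⟨f', ?_, ?_⟩
  · refine Null2.mono hN ?_
    rintro _ ⟨x, hx, rfl⟩
    rw [hf'] at hx ⊢
    have hxC : ∀ i, x ∉ C i := fun i hiC =>
      hx (hlsm i x (c2 i hiC) (c5 i x (c2 i hiC) (c3 i x hiC).1))
    refine ⟨x, ?_, (hg2 x hxC).symm⟩
    intro hs
    exact hx (Sm.congr' hs (hgev x hxC))
  · intro x hx
    rw [hf'] at hx ⊢
    rcases hx with hx | hx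
    · have hxC : ∀ i, x ∉ C i := by
        intro i hiC
        have hxs := c2 i hiC
        rw [hgs i x hxs, hK] at hx
        have hz : F' i x ∈ (F i).target := by rw [hFt]; exact mem_univ _
        have h1 : (F i).symm (F' i x) ∈ (F i).source := (F i).map_target hz
        have h2 : F i ((F i).symm (F' i x)) = F' i x := (F i).right_inv hz
        have h3 : (F i).symm (F' i x) ∈ C i := by
          by_contra h4
          have h5 : F' i ((F i).symm (F' i x)) = F' i x := by rw [c4 i _ h1 h4, h2]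
          have h6 := hF'inj i h1 hxs h5
          rw [h6] at h4
          exact h4 hiC
        have h7 := (c3 i _ h3).2
        rw [h2] at h7
        linarith
      have h1 : f x ∈ K := by
        rw [← hg2 x hxC]
        exact hx
      exact (hf x h1).congr (hgev x hxC)
    · rw [mem_iUnion] at hx
      obtain ⟨i, z, ⟨hz1, hz2⟩, hz⟩ := hx
      have hxs : x ∈ (F i).source := hgr i x ⟨z, hz⟩
      rw [hgs i x hxs] at hz
      have h1 : F' i x = z := (hi i hz).symm
      exact hlld i x hxs (c6 i x hxs (by rw [h1]; exact hz1) (by rw [h1]; exact hz2))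

end TwoH

end Pool.Agent.H829.AZ
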