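import Pool.Agent.H829.AZ.One
import Pool.Agent.H829.AZ.Two
import Pool.Graph.R_pool_sql_team_seeded_63374d34.N550.TS.All

/-!
# Homeomorphisms which are smooth off a set with image of area zero: the proof of the theorem

Adaptation of `Pool.Agent.N550.KH.Null`, `Zero` and of `Pool.Agent.N550.TS.Fin2`.
-/

set_option autoImplicit false

open Set Filter Topology Metric Function MeasureTheory
open scoped Manifold ContDiff

noncomputable section

namespace Pool.Agent.H829.AZ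

open Pool.Agent.Y522 Pool.Agent.N550.KH Pool.Agent.N550.TS

/-! ### Null sets in charts -/

/-- images of sets of area zero under maps of class `C¹` -/
theorem null_image {n : ℕ} {S : Set (E n)}
    (hS : Measure.hausdorffMeasure 2 S = 0) (f : E n → E n) (hf : ∀ x ∈ S, ContDiffAt ℝ 1 f x) :
    Measure.hausdorffMeasure 2 (f '' S) = 0 := by
  have h : ∀ x ∈ S, ∃ V ∈ 𝓝 x, Measure.hausdorffMeasure 2 (f '' (S ∩ V)) = 0 := by
    intro x hx
    obtain ⟨K, t, ht, hK⟩ := (hf x hx).exists_lipschitzOnWith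
    refine ⟨t, ht, ?_⟩
    have h1 := (hK.mono (inter_subset_right (s := S))).hausdorffMeasure_image_le (zero_le_two)
    have h2 : Measure.hausdorffMeasure 2 (S ∩ t) = 0 := measure_mono_null inter_subset_left hS
    rw [h2, mul_zero] at h1
    exact le_antisymm h1 bot_le
  choose! V hV hr using h
  obtain ⟨t, hts, htc, hcov⟩ := TopologicalSpace.countable_cover_nhdsWithin
    (s := S) (f := V) (fun x hx => mem_nhdsWithin_of_mem_nhds (hV x hx))
  have h1 : f '' S ⊆ ⋃ x ∈ t, f '' (S ∩ V x) := by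
    rintro _ ⟨y, hy, rfl⟩
    obtain ⟨x, hx, hyx⟩ := mem_iUnion₂.1 (hcov hy)
    exact mem_iUnion₂.2 ⟨x, hx, y, ⟨hy, hyx⟩, rfl⟩
  refine measure_mono_null h1 ?_
  rw [measure_biUnion_null_iff htc]
  exact fun x hx => hr x (hts hx)

theorem null2 (n : ℕ) (N : Type) [TopologicalSpace N] [ChartedSpace (E n) N]
    [IsManifold (𝓡 n) ∞ N] (B : Set N) (hB : Null2C n B) : Null2 n B := by
  intro h hinj hld
  set g : N → E n := invFun h with hg
  have hgl : ∀ y, g (h y) = y := leftInverse_invFun hinj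
  have key : ∀ z ∈ h ⁻¹' B, ∃ V ∈ 𝓝 z, Measure.hausdorffMeasure 2 (h ⁻¹' B ∩ V) = 0 := by
    intro z hz
    set e := chartAt (E n) (h z) with he
    refine ⟨h ⁻¹' e.source, (hld z).continuousAt.preimage_mem_nhds
      (e.open_source.mem_nhds (mem_chart_source _ _)), ?_⟩
    have hS : Measure.hausdorffMeasure 2 (e '' (e.source ∩ B ∩ range h) : Set (E n)) = 0 :=
      measure_mono_null (image_mono inter_subset_left) (hB (h z))
    refine measure_mono_null ?_ (null_image hS (fun w => g (e.symm w)) ?_)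
    · intro y hy
      refine ⟨e (h y), ⟨h y, ⟨⟨hy.2, hy.1⟩, y, rfl⟩, rfl⟩, ?_⟩
      change g (e.symm (e (h y))) = y
      rw [e.left_inv hy.2, hgl]
    · rintro _ ⟨_, ⟨⟨hs, -⟩, y, rfl⟩, rfl⟩
      have h1 : LD n e.symm (e (h y)) := Null.ld_chart_symm (h z) _ (e.map_source hs)
      have h2 : LD n g (e.symm (e (h y))) := by
        rw [e.left_inv hs]
        exact LD.inverse isOpen_univ (fun x _ => hld x) (fun x _ => hgl x) (mem_univ y)
      exact (h2.comp_fun h1).contDiffAt.of_le (by simp)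
  choose! V hV hr using key
  obtain ⟨t, hts, htc, hcov⟩ := TopologicalSpace.countable_cover_nhdsWithin
    (s := h ⁻¹' B) (f := V) (fun x hx => mem_nhdsWithin_of_mem_nhds (hV x hx))
  have h1 : h ⁻¹' B ⊆ ⋃ x ∈ t, (h ⁻¹' B ∩ V x) := by
    intro y hy
    obtain ⟨x, hx, hyx⟩ := mem_iUnion₂.1 (hcov hy)
    exact mem_iUnion₂.2 ⟨x, hx, hy, hyx⟩
  refine measure_mono_null h1 ?_
  rw [measure_biUnion_null_iff htc]
  exact fun x hx => hr x (hts hx)

/-! ### The 0-handle -/

/-- the unit ball is not contained in a set of area zero -/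
theorem exists_notMem {n : ℕ} (hn : 2 ≤ n) {A : Set (E n)}
    (hA : Measure.hausdorffMeasure 2 A = 0) : ∃ z ∈ ball (0 : E n) 1, z ∉ A := by
  by_contra hcon
  push Not at hcon
  have h1 := open_null isOpen_ball hn (measure_mono_null hcon hA)
  exact absurd (mem_ball_self (x := (0 : E n)) one_pos) (by rw [h1]; exact notMem_empty _)

section

variable {n : ℕ} {M N : Type} [TopologicalSpace M] [ChartedSpace (E n) M] [IsManifold (𝓡 n) ∞ M]
  [TopologicalSpace N] [ChartedSpace (E n) N] [IsManifold (𝓡 n) ∞ N]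

/-- somewhere over the ball the homeomorphism is a local diffeomorphism -/
theorem exists_pt (f : M ≃ₜ N) (b : E n → N) (hn : 2 ≤ n) (hnull : Null2 n (f '' Bad n f))
    (hb : Injective b) (hbl : ∀ z, LD n b z) :
    ∃ (z₀ : E n) (ε : ℝ), 0 < ε ∧ ∀ x w, w ∈ ball z₀ ε → f x = b w → LD n f x := by
  obtain ⟨z, hz, hzA⟩ := exists_notMem hn (hnull b hb hbl)
  set x₀ : M := f.symm (b z) with hx₀
  have hfx₀ : f x₀ = b z := f.apply_symm_apply _
  have hx₀B : ∀ᶠ y in 𝓝 x₀, ContMDiffAt (𝓡 n) (𝓡 n) ∞ f y := by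
    by_contra h
    exact hzA ⟨x₀, h, hfx₀⟩
  have hball : IsOpen (b '' ball (0 : E n) 1) := isOpen_image_of_LD isOpen_ball fun x _ => hbl x
  have h2 : ∀ᶠ y in 𝓝 x₀, f y ∈ b '' ball (0 : E n) 1 := by
    apply f.continuous.continuousAt
    rw [hfx₀]
    exact hball.mem_nhds ⟨z, hz, rfl⟩
  obtain ⟨W, hW, hWo, hxW⟩ := eventually_nhds_iff.1 (hx₀B.and h2)
  have hinv : ∀ w, invFun b (b w) = w := leftInverse_invFun hb
  have hinvl : ∀ w, LD n (invFun b) (b w) := fun w =>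
    LD.inverse isOpen_univ (fun z _ => hbl z) (fun z _ => hinv z) (mem_univ w)
  obtain ⟨x₁, hx₁, hld⟩ := Pool.Agent.N550.SH.exists_ld (fun x => invFun b (f x)) W hWo x₀ hxW
    (by
      intro x hx
      obtain ⟨h3, w, -, hw⟩ := hW x hx
      refine ContMDiffAt.comp (g := invFun b) x ?_ h3
      rw [← hw]
      exact (hinvl w).contMDiffAt)
    (by
      intro V hV hVo
      have h3 : (fun x => invFun b (f x)) '' V = invFun b '' (f '' V) := by
        rw [image_image]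
      rw [h3]
      refine isOpen_image_of_LD (n := n) (f.isOpenMap V hVo) ?_
      rintro _ ⟨x, hx, rfl⟩
      obtain ⟨-, w, -, hw⟩ := hW x (hV hx)
      rw [← hw]
      exact hinvl w)
  obtain ⟨-, z₀, -, hz₀⟩ := hW x₁ hx₁
  have hldf : LD n f x₁ := by
    have h3 : LD n (fun x => b (invFun b (f x))) x₁ :=
      LD.comp_fun (g := b) (f := fun x => invFun b (f x)) (hbl _) hld
    refine LD.congr h3 ?_
    filter_upwards [hWo.mem_nhds hx₁] with y hy
    obtain ⟨-, w, -, hw⟩ := hW y hy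
    rw [← hw, hinv]
  have h4 : {x | LD n f x} ∈ 𝓝 x₁ := hldf.eventually
  have h5 : f '' {x | LD n f x} ∈ 𝓝 (b z₀) := by
    rw [hz₀]
    exact f.isOpenMap.image_mem_nhds h4
  have h6 : b ⁻¹' (f '' {x | LD n f x}) ∈ 𝓝 z₀ := (hbl z₀).continuousAt h5
  obtain ⟨ε, hε, hεb⟩ := Metric.mem_nhds_iff.1 h6
  refine ⟨z₀, ε, hε, fun x w hw hxw => ?_⟩
  obtain ⟨x', hx', hx'w⟩ := hεb hw
  have : x' = x := f.injective (hx'w.trans hxw.symm)
  rw [← this]
  exact hx'

end

/-- Step 0: the homeomorphism can be made a local diffeomorphism over a given closed ball. -/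
theorem zero_step {n : ℕ} {M N : Type} [TopologicalSpace M] [CompactSpace M] [T2Space M]
    [ChartedSpace (E n) M] [IsManifold (𝓡 n) ∞ M] [TopologicalSpace N] [CompactSpace N]
    [T2Space N] [ChartedSpace (E n) N] [IsManifold (𝓡 n) ∞ N] (f : M ≃ₜ N) (b : E n → N)
    (hn : 2 ≤ n) (hnull : Null2 n (f '' Bad n f)) (hb : Injective b) (hbl : ∀ z, LD n b z) :
    ∃ f' : M ≃ₜ N, Null2 n (f' '' Bad n f') ∧ ∀ x z, f' x = b z → ‖z‖ ≤ 1 → LD n f' x := by
  obtain ⟨z₀, ε, hε, hgood⟩ := exists_pt f b hn hnull hb hbl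
  obtain ⟨κ, hκ, hκs, hκb⟩ := Shift.main.2.2 n z₀ ε 1 hε
  obtain ⟨K, hK, hKb, -⟩ := Supp.main n N b hb hbl κ hκ hκs
  have hKc : Continuous K := continuous_iff_continuousAt.2 fun x => (hK.2 x).continuousAt
  have hKo : IsOpenMap K := fun s hs => isOpen_image_of_LD hs fun x _ => hK.2 x
  let Kh : N ≃ₜ N := (Equiv.ofBijective K hK.1).toHomeomorphOfContinuousOpen hKc hKo
  have hKh : ∀ x, Kh x = K x := fun x => rfl
  refine ⟨f.trans Kh, ?_, ?_⟩
  · refine (hnull.image hK).mono ?_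
    rintro _ ⟨x, hx, rfl⟩
    refine ⟨f x, ⟨x, ?_, rfl⟩, rfl⟩
    intro hcon
    apply hx
    filter_upwards [hcon] with y hy
    exact ContMDiffAt.comp (g := K) y (hK.2 _).contMDiffAt hy
  · intro x z hx hz
    obtain ⟨w, hw, rfl⟩ := hκb (mem_closedBall_zero_iff.2 hz)
    have h1 : K (f x) = K (b w) := by
      rw [hKb]
      exact hx
    have h2 : LD n f x := hgood x w hw (hK.1.1 h1)
    have h3 : LD n (fun y => K (f y)) x := LD.comp_fun (g := K) (f := f) (hK.2 _) h2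
    exact h3

/-- composition with a diffeomorphism keeps the null condition -/
theorem null2_trans {n : ℕ} {M N P : Type} [TopologicalSpace M] [ChartedSpace (E n) M]
    [TopologicalSpace N] [ChartedSpace (E n) N] [TopologicalSpace P] [ChartedSpace (E n) P]
    (f : M ≃ₜ N) (K : N ≃ₜ P) (hl : ∀ x, LD n K x) (hs : ∀ y, LD n K.symm y)
    (h : Null2 n (f '' Bad n f)) : Null2 n ((f.trans K) '' Bad n (f.trans K)) := by
  intro c hc hcl
  have h1 := h (fun z => K.symm (c z)) (K.symm.injective.comp hc)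
    (fun z => (hs (c z)).comp_fun (hcl z))
  refine measure_mono_null ?_ h1
  rintro z ⟨x, hx, hxz⟩
  show K.symm (c z) ∈ f '' Bad n f
  rw [← hxz]
  exact ⟨x, Fin'.bad_comp f K hl hx, (K.symm_apply_apply (f x)).symm⟩

theorem oneStep : S_ONEa := OneH.main Shift.main.2.1 Supp.main Reg.main arc

theorem twoStep : S_TWOa := TwoH.main Shift.main.2.1 Supp.main Reg.main hnd2

/-- **Smooth homeomorphisms off a set with image of area zero.** -/
theorem smooth_off_area_zero {M N : Type} [TopologicalSpace M] [CompactSpace M] [T2Space M]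
    [ChartedSpace (E 4) M] [IsManifold (𝓡 4) ∞ M] [TopologicalSpace N] [CompactSpace N]
    [T2Space N] [ChartedSpace (E 4) N] [IsManifold (𝓡 4) ∞ N] {a d : ℕ} {b : E 4 → N}
    {l : Fin a → E (1 + 3) → N} {K : Set N} {h : Fin d → E (2 + 2) → N} {c : E 4 → N}
    (H : Handles2 N a d b l K h c) (f : M ≃ₜ N) (hf0 : Null2 4 (f '' Bad 4 f)) :
    ∃ G : M ≃ₜ N, ∀ x, G x ∉ range c → LD 4 G x := by
  obtain ⟨f1, hn1, hl1⟩ := zero_step f b (by norm_num) hf0 H.b_inj H.b_ld
  -- the 1-handles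
  have step : ∀ j : ℕ, j ≤ a → ∃ f2 : M ≃ₜ N, Null2 4 (f2 '' Bad 4 f2) ∧
      ∀ x, f2 x ∈ b '' closedBall 0 1 ∪ (⋃ (i : Fin a) (_ : (i : ℕ) < j),
        l i '' {z | vp 1 3 z = 0 ∧ ‖up 1 3 z‖ ≤ 1}) → LD 4 f2 x := by
    intro j
    induction j with
    | zero =>
      intro _
      refine ⟨f1, hn1, fun x hx => ?_⟩
      rcases hx with ⟨z, hz, hzx⟩ | hx
      · exact hl1 x z hzx.symm (by simpa using hz)
      · simp at hx
    | succ j ih =>
      intro hj
      obtain ⟨f2, hn2, hl2⟩ := ih (by omega)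
      obtain ⟨f3, hn3, hl3⟩ := oneStep 3 M N f2 (l ⟨j, by omega⟩) _ (by norm_num) hn2
        (H.l_inj _) (H.l_ld _) (fun z => by
          rw [← H.l_att ⟨j, by omega⟩ z]
          constructor
          · rintro (hz | hz)
            · exact hz
            · obtain ⟨i, hi, w, -, hw⟩ := mem_iUnion₂.1 hz
              refine absurd hw.symm (H.l_dis _ _ z w ?_)
              intro hcon
              rw [← hcon] at hi
              exact absurd hi (by simp)
          · exact fun hz => Or.inl hz) hl2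
      refine ⟨f3, hn3, fun x hx => hl3 x ?_⟩
      rcases hx with hx | hx
      · exact Or.inl (Or.inl hx)
      · obtain ⟨i, hi, w, hw, hwx⟩ := mem_iUnion₂.1 hx
        rcases Nat.lt_succ_iff_lt_or_eq.1 hi with h1 | h1
        · exact Or.inl (Or.inr (mem_iUnion₂.2 ⟨i, h1, w, hw, hwx⟩))
        · refine Or.inr ⟨w, hw, ?_⟩
          have : i = ⟨j, by omega⟩ := Fin.ext h1
          rw [← this]
          exact hwx
  obtain ⟨f2, hn2, hl2⟩ := step a le_rfl
  have hl2' : ∀ x, f2 x ∈ b '' closedBall 0 1 ∪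
      (⋃ i, l i '' {z | vp 1 3 z = 0 ∧ ‖up 1 3 z‖ ≤ 1}) → LD 4 f2 x := by
    intro x hx
    refine hl2 x ?_
    rcases hx with hx | hx
    · exact Or.inl hx
    · obtain ⟨i, hi⟩ := mem_iUnion.1 hx
      exact Or.inr (mem_iUnion₂.2 ⟨i, i.2, hi⟩)
  -- the compression
  have hO : IsOpen {y | LD 4 f2 (f2.symm y)} :=
    (Fin'.isOpen_ld (n := 4) f2).preimage f2.symm.continuous
  obtain ⟨κ, hκ, hKκ⟩ := H.K_cmp _ hO (fun y hy => by
    show LD 4 f2 (f2.symm y)
    exact hl2' _ (by rw [f2.apply_symm_apply]; exact hy))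
  obtain ⟨κ', hκ', hκl, hκs⟩ := Fin'.exists_homeo hκ
  set f3 : M ≃ₜ N := f2.trans κ' with hf3
  have hf3x : ∀ x, f3 x = κ' (f2 x) := fun _ => rfl
  have hn3 : Null2 4 (f3 '' Bad 4 f3) := null2_trans f2 κ' hκl hκs hn2
  have hl3 : ∀ x, f3 x ∈ K → LD 4 f3 x := by
    intro x hx
    obtain ⟨y, hy, hyx⟩ := hKκ hx
    rw [hf3x, ← hκ'] at hyx
    have h1 : y = f2 x := κ'.injective hyx
    have h2 : LD 4 f2 (f2.symm y) := hy
    rw [h1, f2.symm_apply_apply] at h2
    exact (hκl (f2 x)).comp_fun h2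
  obtain ⟨f4, hn4, hl4⟩ := twoStep 2 d M N f3 h K le_rfl hn3 H.h_inj H.h_ld
    H.h_att H.h_dis hl3 H.K_cpt.isClosed
  -- the second compression
  have hO4 : IsOpen {y | LD 4 f4 (f4.symm y)} :=
    (Fin'.isOpen_ld (n := 4) f4).preimage f4.symm.continuous
  obtain ⟨κ₂, hκ₂, hcκ⟩ := H.c_cmp _ hO4 (fun y hy => by
    show LD 4 f4 (f4.symm y)
    exact hl4 _ (by rw [f4.apply_symm_apply]; exact hy))
  obtain ⟨κ₃, hκ₃, hκ₃l, hκ₃s⟩ := Fin'.exists_homeo hκ₂
  refine ⟨f4.trans κ₃, fun x hx => ?_⟩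
  obtain ⟨y, hy, hyx⟩ := hcκ hx
  have hx5 : (f4.trans κ₃) x = κ₃ (f4 x) := rfl
  rw [hx5, ← hκ₃] at hyx
  have h1 : y = f4 x := κ₃.injective hyx
  have h2 : LD 4 f4 (f4.symm y) := hy
  rw [h1, f4.symm_apply_apply] at h2
  exact (hκ₃l (f4 x)).comp_fun h2

end Pool.Agent.H829.AZ
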