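import Pool.Agent.H829.AZ.Cell2

/-!
# The modifications near the cores, with control of the bad set
-/

set_option autoImplicit false
set_option linter.unusedSectionVars false

open Set Filter Topology Metric Function MeasureTheory
open scoped Manifold ContDiff

noncomputable section

namespace Pool.Agent.H829.AZ

open Pool.Agent.Y522 Pool.Agent.N550.KH Pool.Agent.N550.TS

namespace OneH

open Pool.Agent.N550.KH.One (mkF mkF_l mkF_apply linv linv_l linv_ld sm_comp sm_congr ld_sm)

/-- the modification near the core of a 1-handle in good position -/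
theorem arc_mod {k : ℕ} {M N : Type} [TopologicalSpace M] [CompactSpace M] [T2Space M]
    [ChartedSpace (E (1 + k)) M] [IsManifold (𝓡 (1 + k)) ∞ M] [TopologicalSpace N]
    [CompactSpace N] [T2Space N] [ChartedSpace (E (1 + k)) N] [IsManifold (𝓡 (1 + k)) ∞ N]
    (f1 : M ≃ₜ N) (l : E (1 + k) → N) (Y : Set N) (hl : Injective l) (hld : ∀ z, LD (1 + k) l z)
    (hY : ∀ z, l z ∈ Y ↔ 1 ≤ ‖up 1 k z‖) (hf1Y : ∀ x, f1 x ∈ Y → LD (1 + k) f1 x)
    (hP : PrM 1 k f1 l) :
    ∃ f' : M ≃ₜ N, f' '' Bad (1 + k) f' ⊆ f1 '' Bad (1 + k) f1 ∧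
      ∀ x, f' x ∈ Y ∪ l '' {z | vp 1 k z = 0 ∧ ‖up 1 k z‖ ≤ 1} → LD (1 + k) f' x := by
  classical
  have hpos : ∀ x ∈ (mkF f1 l hl hld).source, vp 1 k (mkF f1 l hl hld x) = 0 →
        ‖up 1 k (mkF f1 l hl hld x)‖ < 2 → Sm (1 + k) (mkF f1 l hl hld) x ∧
        Surjective (mfderiv (𝓡 (1 + k)) (𝓡 k) (fun y => vp 1 k (mkF f1 l hl hld y)) x) :=
    fun x hx h1 h2 => hP x hx h1 h2
  set F := mkF f1 l hl hld with hF
  have hFl : ∀ x ∈ F.source, l (F x) = f1 x := fun x hx => mkF_l f1 l hl hld hx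
  have hFsrc : ∀ x, x ∈ F.source ↔ f1 x ∈ range l := fun x => Iff.rfl
  have hld1 : ∀ x ∈ F.source, LD (1 + k) f1 x → LD (1 + k) F x := by
    rintro x ⟨z, hz⟩ h
    refine LD.comp_fun (g := linv l) (f := f1) ?_ h
    rw [← hz]
    exact linv_ld hl hld z
  have hld2 : ∀ x ∈ F.source, 1 ≤ ‖up 1 k (F x)‖ → LD (1 + k) f1 x := by
    intro x hx h
    apply hf1Y
    rw [← hFl x hx, hY]
    exact h
  obtain ⟨F', C, hs, ht, hC, hCs, hCsm, hFC, hF1, hsm, hldF, hcore⟩ :=
    arc k M F rfl hpos (fun x hx _ h => hld1 x hx (hld2 x hx h))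
  let g : M → N := fun x => if x ∈ F.source then l (F' x) else f1 x
  have hgin : ∀ x ∈ F.source, g x = l (F' x) := fun x hx => if_pos hx
  have hgout : ∀ x, x ∉ F.source → g x = f1 x := fun x hx => if_neg hx
  have hgC : ∀ x, x ∉ C → g x = f1 x := by
    intro x hx
    by_cases h : x ∈ F.source
    · rw [hgin x h, hFC x hx, hFl x h]
    · exact hgout x h
  have hCo : IsOpen Cᶜ := hC.isClosed.isOpen_compl
  have hgCev : ∀ x, x ∉ C → g =ᶠ[𝓝 x] f1 := by
    intro x hx
    filter_upwards [hCo.mem_nhds hx] with y hy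
    exact hgC y hy
  have hgsev : ∀ x ∈ F.source, g =ᶠ[𝓝 x] fun y => l (F' y) := by
    intro x hx
    filter_upwards [F.open_source.mem_nhds hx] with y hy
    exact hgin y hy
  have hgc : Continuous g := by
    rw [continuous_iff_continuousAt]
    intro x
    by_cases h : x ∈ F.source
    · have h1 : ContinuousAt F' x := F'.continuousAt (by rw [hs]; exact h)
      exact ContinuousAt.congr (ContinuousAt.comp (g := l) (f := F') (hld _).continuousAt h1)
        (hgsev x h).symm
    · exact ContinuousAt.congr f1.continuous.continuousAt (hgCev x (fun hx => h (hCs hx))).symm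
  have hF'inj : InjOn F' F.source := by rw [← hs]; exact F'.injOn
  have hginj : Injective g := by
    intro x y hxy
    by_cases hx : x ∈ F.source <;> by_cases hy : y ∈ F.source
    · rw [hgin x hx, hgin y hy] at hxy
      exact hF'inj hx hy (hl hxy)
    · rw [hgin x hx, hgout y hy] at hxy
      exact absurd ((hFsrc y).2 ⟨_, hxy⟩) hy
    · rw [hgout x hx, hgin y hy] at hxy
      exact absurd ((hFsrc x).2 ⟨_, hxy.symm⟩) hx
    · rw [hgout x hx, hgout y hy] at hxy
      exact f1.injective hxy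
  have hgsurj : Surjective g := by
    intro w
    by_cases hw : w ∈ range l
    · obtain ⟨z, rfl⟩ := hw
      have hz : z ∈ F'.target := by rw [ht]; trivial
      refine ⟨F'.symm z, ?_⟩
      have h1 : F'.symm z ∈ F.source := by rw [← hs]; exact F'.map_target hz
      rw [hgin _ h1, F'.right_inv hz]
    · refine ⟨f1.symm w, ?_⟩
      have h1 : f1.symm w ∉ F.source := by
        rw [hFsrc, f1.apply_symm_apply]; exact hw
      rw [hgout _ h1, f1.apply_symm_apply]
  let f' : M ≃ₜ N :=
    Continuous.homeoOfEquivCompactToT2 (f := Equiv.ofBijective g ⟨hginj, hgsurj⟩) hgc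
  have hf' : (f' : M → N) = g := rfl
  have hlsm : ∀ x, Sm (1 + k) F' x → Sm (1 + k) (fun y => l (F' y)) x := fun x h =>
    sm_comp (f := F') (g := l) h (Eventually.of_forall fun z => (hld z).contMDiffAt)
  have hlld : ∀ x ∈ F.source, LD (1 + k) F' x → LD (1 + k) g x := fun x hx h =>
    LD.congr (LD.comp_fun (g := l) (f := F') (hld _) h) (hgsev x hx)
  refine ⟨f', ?_, ?_⟩
  · rintro _ ⟨x, hx, rfl⟩
    rw [hf'] at hx ⊢
    have hxC : x ∉ C := fun h => hx (sm_congr (hlsm x (hsm x (hCs h) (hCsm x h))) (hgsev x (hCs h)))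
    have hx1 : x ∈ Bad (1 + k) f1 := by
      intro h1
      by_cases h : x ∈ F.source
      · have h2 : Sm (1 + k) F x := by
          refine sm_comp (f := f1) (g := linv l) h1 ?_
          rw [← hFl x h]
          exact ld_sm (linv_ld hl hld _)
        exact hx (sm_congr (hlsm x (hsm x h h2)) (hgsev x h))
      · exact hx (sm_congr h1 (hgCev x hxC))
    exact ⟨x, hx1, (hgC x hxC).symm⟩
  · intro x hx
    rw [hf'] at hx ⊢
    rcases hx with hx | ⟨z, ⟨hz1, hz2⟩, hz⟩
    · by_cases h : x ∈ F.source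
      · rw [hgin x h, hY] at hx
        have hz : F' x ∈ F.target := mem_univ _
        have h1 : F.symm (F' x) ∈ F.source := F.map_target hz
        have h2 : F (F.symm (F' x)) = F' x := F.right_inv hz
        have h3 : F' (F.symm (F' x)) = F (F.symm (F' x)) := hF1 _ h1 (by rw [h2]; exact hx)
        have h4 : F.symm (F' x) = x := hF'inj h1 h (by rw [h3, h2])
        rw [h4] at h2
        have h5 : 1 ≤ ‖up 1 k (F x)‖ := by rw [h2]; exact hx
        exact hlld x h (hldF x h (hld1 x h (hld2 x h h5)))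
      · rw [hgout x h] at hx
        exact LD.congr (hf1Y x hx) (hgCev x (fun hxC => h (hCs hxC)))
    · have h : x ∈ F.source := by
        by_contra h
        rw [hgout x h] at hz
        exact h ((hFsrc x).2 ⟨z, hz⟩)
      rw [hgin x h] at hz
      have h1 : F' x = z := (hl hz).symm
      exact hlld x h (hcore x h (by rw [h1]; exact hz1) (by rw [h1]; exact hz2))

end OneH

namespace TwoH

open Pool.Agent.N550.KH.Two (ld_inv inv_app app_inv cont_of_ld open_range Fp Sm.comp_ld toH
  toH_apply Sm.congr')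

/-- the modification near the cores of the 2-handles in good position -/
theorem hnd_mod {k a : ℕ} {M N : Type} [TopologicalSpace M] [CompactSpace M] [T2Space M]
    [ChartedSpace (E (2 + k)) M] [IsManifold (𝓡 (2 + k)) ∞ M] [TopologicalSpace N]
    [CompactSpace N] [T2Space N] [ChartedSpace (E (2 + k)) N] [IsManifold (𝓡 (2 + k)) ∞ N]
    (f : M ≃ₜ N) (h : Fin a → E (2 + k) → N) (K : Set N) (hi : ∀ i, Injective (h i))
    (hl : ∀ i z, LD (2 + k) (h i) z) (hK : ∀ i z, h i z ∈ K ↔ 1 ≤ ‖up 2 k z‖)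
    (hd : ∀ i j z w, i ≠ j → h i z ≠ h j w) (hf : ∀ x, f x ∈ K → LD (2 + k) f x)
    (hP : ∀ i, PrM 2 k f (h i)) :
    ∃ f' : M ≃ₜ N, f' '' Bad (2 + k) f' ⊆ f '' Bad (2 + k) f ∧
      ∀ x, f' x ∈ K ∪ ⋃ i, h i '' {z | vp 2 k z = 0 ∧ ‖up 2 k z‖ ≤ 1} → LD (2 + k) f' x := by
  classical
  -- the handle coordinates
  obtain ⟨F, hF⟩ : ∃ F : ∀ i : Fin a, OpenPartialHomeomorph M (E (2 + k)),
      ∀ i, F i = Fp f (h i) (hi i) (hl i) := ⟨_, fun _ => rfl⟩
  have hFa : ∀ i x, F i x = invFun (h i) (f x) := fun i x => by rw [hF]; rfl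
  have hFs : ∀ i x, x ∈ (F i).source ↔ f x ∈ range (h i) := fun i x => by rw [hF]; exact Iff.rfl
  have hFt : ∀ i, (F i).target = univ := fun i => by rw [hF]; rfl
  have hFc : ∀ i, ((F i : OpenPartialHomeomorph M (E (2 + k))) : M → E (2 + k)) =
      fun x => invFun (h i) (f x) := fun i => funext fun x => hFa i x
  have hFh : ∀ i x, x ∈ (F i).source → h i (F i x) = f x := by
    intro i x hx
    rw [hFa]
    exact app_inv ((hFs i x).mp hx)
  have hdis : ∀ i j x, x ∈ (F i).source → x ∈ (F j).source → i = j := by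
    intro i j x hx hy
    by_contra hij
    obtain ⟨z, hz⟩ := (hFs i x).mp hx
    obtain ⟨w, hw⟩ := (hFs j x).mp hy
    exact hd i j z w hij (hz.trans hw.symm)
  -- the modification near the cores
  have hnd : ∀ i, ∃ (F' : OpenPartialHomeomorph M (E (2 + k))) (C : Set M),
      F'.source = (F i).source ∧ F'.target = univ ∧ IsCompact C ∧ C ⊆ (F i).source ∧
      (∀ x ∈ C, Sm (2 + k) (F i) x ∧ ‖up 2 k (F i x)‖ < 1) ∧
      (∀ x ∈ (F i).source, x ∉ C → F' x = F i x) ∧
      (∀ x ∈ (F i).source, Sm (2 + k) (F i) x → Sm (2 + k) F' x) ∧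
      ∀ x ∈ (F i).source, vp 2 k (F' x) = 0 → ‖up 2 k (F' x)‖ ≤ 1 → LD (2 + k) F' x := by
    intro i
    refine hnd2 k M (F i) (hFt i) (fun x hx h1 h2 => ?_) (fun x hx h1 h2 => ?_)
    · have hx' := (hFs i x).mp hx
      rw [hFa] at h1 h2
      have := hP i x hx' h1 h2
      rw [hFc]
      exact this
    · have h3 : f x ∈ K := by
        rw [← hFh i x hx, hK]
        exact h2
      rw [hFc]
      obtain ⟨z, hz⟩ := (hFs i x).mp hx
      exact LD.comp_fun (g := invFun (h i)) (hz ▸ ld_inv (hi i) (hl i) z) (hf x h3)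
  choose F' C s1 s2 c1 c2 c3 c4 c5 c6 using hnd
  -- the map
  obtain ⟨g, hg1, hg2⟩ : ∃ g : M → N, (∀ i x, x ∈ C i → g x = h i (F' i x)) ∧
      ∀ x, (∀ i, x ∉ C i) → g x = f x := by
    refine ⟨fun x => if hx : ∃ i, x ∈ C i then h hx.choose (F' hx.choose x) else f x, ?_, ?_⟩
    · intro i x hx
      have hex : ∃ i, x ∈ C i := ⟨i, hx⟩
      simp only
      rw [dif_pos hex]
      have h1 : hex.choose = i := hdis _ _ x (c2 _ hex.choose_spec) (c2 _ hx)
      rw [h1]
    · intro x hx
      simp only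
      rw [dif_neg (fun ⟨i, hi⟩ => hx i hi)]
  have hgs : ∀ i x, x ∈ (F i).source → g x = h i (F' i x) := by
    intro i x hx
    by_cases hxC : x ∈ C i
    · exact hg1 i x hxC
    · rw [hg2 x (fun j hj => by
        have := hdis i j x hx (c2 j hj)
        rw [← this] at hj
        exact hxC hj), c4 i x hx hxC, hFh i x hx]
  have hgout : ∀ x, (∀ i, x ∉ (F i).source) → g x = f x := fun x hx =>
    hg2 x fun i hiC => hx i (c2 i hiC)
  have hCcl : IsClosed (⋃ i, C i) := isClosed_iUnion_of_finite fun i => (c1 i).isClosed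
  have hgev : ∀ x, (∀ i, x ∉ C i) → g =ᶠ[𝓝 x] f := by
    intro x hx
    have h2 : x ∈ (⋃ i, C i)ᶜ := by
      rw [mem_compl_iff, mem_iUnion]
      rintro ⟨i, hiC⟩
      exact hx i hiC
    filter_upwards [hCcl.isOpen_compl.mem_nhds h2] with y hy
    exact hg2 y fun i hiC => hy (mem_iUnion.mpr ⟨i, hiC⟩)
  have hgsev : ∀ i x, x ∈ (F i).source → g =ᶠ[𝓝 x] fun y => h i (F' i y) := by
    intro i x hx
    filter_upwards [(F i).open_source.mem_nhds hx] with y hy
    exact hgs i y hy
  have hgr : ∀ i x, g x ∈ range (h i) → x ∈ (F i).source := by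
    intro i x hx
    by_cases hex : ∃ j, x ∈ (F j).source
    · obtain ⟨j, hj⟩ := hex
      rw [hgs j x hj] at hx
      obtain ⟨z, hz⟩ := hx
      by_cases hij : i = j
      · rw [hij]
        exact hj
      · exact absurd hz (hd i j _ _ hij)
    · rw [hgout x (fun j hj => hex ⟨j, hj⟩)] at hx
      exact (hFs i x).mpr hx
  have hF'inj : ∀ i, InjOn (F' i) (F i).source := fun i => by rw [← s1 i]; exact (F' i).injOn
  have hgc : Continuous g := by
    rw [continuous_iff_continuousAt]
    intro x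
    by_cases hex : ∃ j, x ∈ (F j).source
    · obtain ⟨j, hj⟩ := hex
      have h1 : ContinuousAt (F' j) x := (F' j).continuousAt (by rw [s1]; exact hj)
      exact ContinuousAt.congr (ContinuousAt.comp (g := h j) (f := F' j)
        (hl j _).continuousAt h1) (hgsev j x hj).symm
    · exact ContinuousAt.congr f.continuous.continuousAt
        (hgev x (fun i hiC => hex ⟨i, c2 i hiC⟩)).symm
  have hginj : Injective g := by
    intro x y hxy
    by_cases hex : ∃ j, x ∈ (F j).source
    · obtain ⟨j, hj⟩ := hex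
      have hy : y ∈ (F j).source := by
        apply hgr
        rw [← hxy, hgs j x hj]
        exact mem_range_self _
      rw [hgs j x hj, hgs j y hy] at hxy
      exact hF'inj j hj hy (hi j hxy)
    · have hey : ∀ j, y ∉ (F j).source := by
        intro j hj
        apply hex
        refine ⟨j, hgr j x ?_⟩
        rw [hxy, hgs j y hj]
        exact mem_range_self _
      rw [hgout x (fun j hj => hex ⟨j, hj⟩), hgout y hey] at hxy
      exact f.injective hxy
  have hgsurj : Surjective g := by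
    intro w
    by_cases hex : ∃ i, w ∈ range (h i)
    · obtain ⟨i, z, rfl⟩ := hex
      have hz : z ∈ (F' i).target := by rw [s2]; trivial
      refine ⟨(F' i).symm z, ?_⟩
      have h1 : (F' i).symm z ∈ (F i).source := by rw [← s1]; exact (F' i).map_target hz
      rw [hgs i _ h1, (F' i).right_inv hz]
    · refine ⟨f.symm w, ?_⟩
      have h1 : ∀ i, f.symm w ∉ (F i).source := by
        intro i h2
        rw [hFs, f.apply_symm_apply] at h2
        exact hex ⟨i, h2⟩
      rw [hgout _ h1, f.apply_symm_apply]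
  let f' : M ≃ₜ N :=
    Continuous.homeoOfEquivCompactToT2 (f := Equiv.ofBijective g ⟨hginj, hgsurj⟩) hgc
  have hf' : (f' : M → N) = g := rfl
  have hlld : ∀ i x, x ∈ (F i).source → LD (2 + k) (F' i) x → LD (2 + k) g x := fun i x hx h1 =>
    LD.congr (LD.comp_fun (g := h i) (f := F' i) (hl i _) h1) (hgsev i x hx)
  have hlsm : ∀ i x, x ∈ (F i).source → Sm (2 + k) (F' i) x → Sm (2 + k) g x := fun i x hx h1 =>
    Sm.congr' (Sm.comp_ld h1 (hl i _)) (hgsev i x hx)
  refine ⟨f', ?_, ?_⟩
  · rintro _ ⟨x, hx, rfl⟩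
    rw [hf'] at hx ⊢
    have hxC : ∀ i, x ∉ C i := fun i hiC =>
      hx (hlsm i x (c2 i hiC) (c5 i x (c2 i hiC) (c3 i x hiC).1))
    refine ⟨x, ?_, (hg2 x hxC).symm⟩
    intro hs
    exact hx (Sm.congr' hs (hgev x hxC))
  · intro x hx
    rw [hf'] at hx ⊢
    rcases hx with hx | hx
    · have hxC : ∀ i, x ∉ C i := by
        intro i hiC
        have hxs := c2 i hiC
        rw [hgs i x hxs, hK] at hx
        have hz : F' i x ∈ (F i).target := by rw [hFt]; exact mem_univ _
        have h1 : (F i).symm (F' i x) ∈ (F i).source := (F i).map_target hz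
        have h2 : F i ((F i).symm (F' i x)) = F' i x := (F i).right_inv hz
        have h3 : (F i).symm (F' i x) ∈ C i := by
          by_contra h4
          have h5 : F' i ((F i).symm (F' i x)) = F' i x := by rw [c4 i _ h1 h4, h2]
          have h6 := hF'inj i h1 hxs h5
          rw [h6] at h4
          exact h4 hiC
        have h7 := (c3 i _ h3).2
        rw [h2] at h7
        linarith
      have h1 : f x ∈ K := by
        rw [← hg2 x hxC]
        exact hx
      exact (hf x h1).congr (hgev x hxC)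
    · rw [mem_iUnion] at hx
      obtain ⟨i, z, ⟨hz1, hz2⟩, hz⟩ := hx
      have hxs : x ∈ (F i).source := hgr i x ⟨z, hz⟩
      rw [hgs i x hxs] at hz
      have h1 : F' i x = z := (hi i hz).symm
      exact hlld i x hxs (c6 i x hxs (by rw [h1]; exact hz1) (by rw [h1]; exact hz2))

end TwoH

end Pool.Agent.H829.AZ
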