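import Pool.Agent.H829.AZ.Base
import Pool.Graph.R_pool_sql_team_seeded_63374d34.N550.KH.One

/-!
# Homeomorphisms which are smooth off a set with image of area zero: the 1-handles

Adaptation of `Pool.Agent.N550.KH.One`.
-/

set_option autoImplicit false
set_option linter.unusedSectionVars false

open Set Filter Topology Metric Function MeasureTheory
open scoped Manifold ContDiff

noncomputable section

namespace Pool.Agent.H829.AZ

open Pool.Agent.Y522 Pool.Agent.N550.KH

/-- Step 1: one 1-handle, with core arc `l '' {vp z = 0, ‖up z‖ ≤ 1}`, attached to `Y`. -/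
def S_ONEa : Prop :=
  ∀ (k : ℕ) (M N : Type) [TopologicalSpace M] [CompactSpace M] [T2Space M]
    [ChartedSpace (E (1 + k)) M] [IsManifold (𝓡 (1 + k)) ∞ M] [TopologicalSpace N]
    [CompactSpace N] [T2Space N] [ChartedSpace (E (1 + k)) N] [IsManifold (𝓡 (1 + k)) ∞ N]
    (f : M ≃ₜ N) (l : E (1 + k) → N) (Y : Set N), 2 ≤ k →
    Null2 (1 + k) (f '' Bad (1 + k) f) → Injective l → (∀ z, LD (1 + k) l z) →
    (∀ z, l z ∈ Y ↔ 1 ≤ ‖up 1 k z‖) → (∀ x, f x ∈ Y → LD (1 + k) f x) →
    ∃ f' : M ≃ₜ N, Null2 (1 + k) (f' '' Bad (1 + k) f') ∧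
      ∀ x, f' x ∈ Y ∪ l '' {z | vp 1 k z = 0 ∧ ‖up 1 k z‖ ≤ 1} → LD (1 + k) f' x

namespace OneH

open Pool.Agent.N550.KH.One (mkF mkF_l mkF_apply linv linv_l linv_ld sm_comp sm_congr ld_sm)

theorem position (hVS : S_VS) (hSU : S_SUPP) (hRG : S_REG) (k : ℕ) (M N : Type)
    [TopologicalSpace M] [CompactSpace M] [T2Space M]
    [ChartedSpace (E (1 + k)) M] [IsManifold (𝓡 (1 + k)) ∞ M] [TopologicalSpace N]
    [CompactSpace N] [T2Space N] [ChartedSpace (E (1 + k)) N] [IsManifold (𝓡 (1 + k)) ∞ N]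
    (f : M ≃ₜ N) (l : E (1 + k) → N) (Y : Set N) (hk : 2 ≤ k)
    (hB : Null2 (1 + k) (f '' Bad (1 + k) f)) (hl : Injective l) (hld : ∀ z, LD (1 + k) l z)
    (hY : ∀ z, l z ∈ Y ↔ 1 ≤ ‖up 1 k z‖) (hfY : ∀ x, f x ∈ Y → LD (1 + k) f x) :
    ∃ (f1 : M ≃ₜ N) (K : N → N), IsDf (1 + k) K ∧ (∀ x, f1 x = K (f x)) ∧
      (∀ x, f1 x ∈ Y → LD (1 + k) f1 x) ∧
      ∀ x ∈ (mkF f1 l hl hld).source, vp 1 k (mkF f1 l hl hld x) = 0 →
        ‖up 1 k (mkF f1 l hl hld x)‖ < 2 → Sm (1 + k) (mkF f1 l hl hld) x ∧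
        Surjective (mfderiv (𝓡 (1 + k)) (𝓡 k) (fun y => vp 1 k (mkF f1 l hl hld y)) x) := by
  obtain ⟨K, k1, k2, k3, k4⟩ := one hVS hSU hRG hk f hl hld hB
  refine ⟨f.trans (Two.toH k1), K, k1, fun x => rfl, ?_, ?_⟩
  · intro x hx
    have hx' : f x ∈ Y := by
      have hx2 : K (f x) ∈ Y := hx
      by_cases hc : f x ∈ range l
      · obtain ⟨z, hz⟩ := hc
        obtain ⟨w, hw, hw'⟩ := k3 z
        rw [← hz, hw, hY, hw', ← hY, hz] at hx2
        exact hx2
      · rwa [k2 _ hc] at hx2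
    exact LD.comp_fun (g := K) (f := f) (k1.2 _) (hfY x hx')
  · intro x hx h1 h2
    exact k4 x hx h1 h2

/-- Step 1: one 1-handle. -/
theorem main : S_VS → S_SUPP → S_REG → S_ARC → S_ONEa := by
  intro hVS hSU hRG hARC k M N _ _ _ _ _ _ _ _ _ _ f l Y hk hB hl hld hY hfY
  classical
  obtain ⟨f1, K, hK, hf1, hf1Y, hpos⟩ :=
    position hVS hSU hRG k M N f l Y hk hB hl hld hY hfY
  set F := mkF f1 l hl hld with hF
  have hFl : ∀ x ∈ F.source, l (F x) = f1 x := fun x hx => mkF_l f1 l hl hld hx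
  have hFsrc : ∀ x, x ∈ F.source ↔ f1 x ∈ range l := fun x => Iff.rfl
  have hld1 : ∀ x ∈ F.source, LD (1 + k) f1 x → LD (1 + k) F x := by
    rintro x ⟨z, hz⟩ h
    refine LD.comp_fun (g := linv l) (f := f1) ?_ h
    rw [← hz]
    exact linv_ld hl hld z
  have hld2 : ∀ x ∈ F.source, 1 ≤ ‖up 1 k (F x)‖ → LD (1 + k) f1 x := by
    intro x hx h
    apply hf1Y
    rw [← hFl x hx, hY]
    exact h
  obtain ⟨F', C, hs, ht, hC, hCs, hCsm, hFC, hF1, hsm, hldF, hcore⟩ :=
    hARC k M F rfl hpos (fun x hx _ h => hld1 x hx (hld2 x hx h))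
  let g : M → N := fun x => if x ∈ F.source then l (F' x) else f1 x
  have hgin : ∀ x ∈ F.source, g x = l (F' x) := fun x hx => if_pos hx
  have hgout : ∀ x, x ∉ F.source → g x = f1 x := fun x hx => if_neg hx
  have hgC : ∀ x, x ∉ C → g x = f1 x := by
    intro x hx
    by_cases h : x ∈ F.source
    · rw [hgin x h, hFC x hx, hFl x h]
    · exact hgout x h
  have hCo : IsOpen Cᶜ := hC.isClosed.isOpen_compl
  have hgCev : ∀ x, x ∉ C → g =ᶠ[𝓝 x] f1 := by
    intro x hx
    filter_upwards [hCo.mem_nhds hx] with y hy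
    exact hgC y hy
  have hgsev : ∀ x ∈ F.source, g =ᶠ[𝓝 x] fun y => l (F' y) := by
    intro x hx
    filter_upwards [F.open_source.mem_nhds hx] with y hy
    exact hgin y hy
  have hgc : Continuous g := by
    rw [continuous_iff_continuousAt]
    intro x
    by_cases h : x ∈ F.source
    · have h1 : ContinuousAt F' x := F'.continuousAt (by rw [hs]; exact h)
      exact ContinuousAt.congr (ContinuousAt.comp (g := l) (f := F') (hld _).continuousAt h1)
        (hgsev x h).symm
    · exact ContinuousAt.congr f1.continuous.continuousAt (hgCev x (fun hx => h (hCs hx))).symm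
  have hF'inj : InjOn F' F.source := by rw [← hs]; exact F'.injOn
  have hginj : Injective g := by
    intro x y hxy
    by_cases hx : x ∈ F.source <;> by_cases hy : y ∈ F.source
    · rw [hgin x hx, hgin y hy] at hxy
      exact hF'inj hx hy (hl hxy)
    · rw [hgin x hx, hgout y hy] at hxy
      exact absurd ((hFsrc y).2 ⟨_, hxy⟩) hy
    · rw [hgout x hx, hgin y hy] at hxy
      exact absurd ((hFsrc x).2 ⟨_, hxy.symm⟩) hx
    · rw [hgout x hx, hgout y hy] at hxy
      exact f1.injective hxy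
  have hgsurj : Surjective g := by
    intro w
    by_cases hw : w ∈ range l
    · obtain ⟨z, rfl⟩ := hw
      have hz : z ∈ F'.target := by rw [ht]; trivial
      refine ⟨F'.symm z, ?_⟩
      have h1 : F'.symm z ∈ F.source := by rw [← hs]; exact F'.map_target hz
      rw [hgin _ h1, F'.right_inv hz]
    · refine ⟨f1.symm w, ?_⟩
      have h1 : f1.symm w ∉ F.source := by
        rw [hFsrc, f1.apply_symm_apply]; exact hw
      rw [hgout _ h1, f1.apply_symm_apply]
  let f' : M ≃ₜ N :=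
    Continuous.homeoOfEquivCompactToT2 (f := Equiv.ofBijective g ⟨hginj, hgsurj⟩) hgc
  have hf' : (f' : M → N) = g := rfl
  have hlsm : ∀ x, Sm (1 + k) F' x → Sm (1 + k) (fun y => l (F' y)) x := fun x h =>
    sm_comp (f := F') (g := l) h (Eventually.of_forall fun z => (hld z).contMDiffAt)
  have hlld : ∀ x ∈ F.source, LD (1 + k) F' x → LD (1 + k) g x := fun x hx h =>
    LD.congr (LD.comp_fun (g := l) (f := F') (hld _) h) (hgsev x hx)
  refine ⟨f', ?_, ?_⟩
  · refine Null2.mono (Null2.image hB hK) ?_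
    rintro _ ⟨x, hx, rfl⟩
    rw [hf'] at hx ⊢
    have hxC : x ∉ C := fun h => hx (sm_congr (hlsm x (hsm x (hCs h) (hCsm x h))) (hgsev x (hCs h)))
    have hx1 : x ∈ Bad (1 + k) f := by
      intro hsf
      have h1 : Sm (1 + k) f1 x :=
        sm_congr (sm_comp (f := f) (g := K) hsf
          (Eventually.of_forall fun y => (hK.2 y).contMDiffAt)) (Eventually.of_forall hf1)
      by_cases h : x ∈ F.source
      · have h2 : Sm (1 + k) F x := by
          refine sm_comp (f := f1) (g := linv l) h1 ?_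
          rw [← hFl x h]
          exact ld_sm (linv_ld hl hld _)
        exact hx (sm_congr (hlsm x (hsm x h h2)) (hgsev x h))
      · exact hx (sm_congr h1 (hgCev x hxC))
    exact ⟨f x, ⟨x, hx1, rfl⟩, by rw [hgC x hxC, hf1]⟩
  · intro x hx
    rw [hf'] at hx ⊢
    rcases hx with hx | ⟨z, ⟨hz1, hz2⟩, hz⟩
    · by_cases h : x ∈ F.source
      · rw [hgin x h, hY] at hx
        have hz : F' x ∈ F.target := mem_univ _
        have h1 : F.symm (F' x) ∈ F.source := F.map_target hz
        have h2 : F (F.symm (F' x)) = F' x := F.right_inv hz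
        have h3 : F' (F.symm (F' x)) = F (F.symm (F' x)) := hF1 _ h1 (by rw [h2]; exact hx)
        have h4 : F.symm (F' x) = x := hF'inj h1 h (by rw [h3, h2])
        rw [h4] at h2
        have h5 : 1 ≤ ‖up 1 k (F x)‖ := by rw [h2]; exact hx
        exact hlld x h (hldF x h (hld1 x h (hld2 x h h5)))
      · rw [hgout x h] at hx
        exact LD.congr (hf1Y x hx) (hgCev x (fun hxC => h (hCs hxC)))
    · have h : x ∈ F.source := by
        by_contra h
        rw [hgout x h] at hz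
        exact h ((hFsrc x).2 ⟨z, hz⟩)
      rw [hgin x h] at hz
      have h1 : F' x = z := (hl hz).symm
      exact hlld x h (hcore x h (by rw [h1]; exact hz1) (by rw [h1]; exact hz2))

end OneH

end Pool.Agent.H829.AZ
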